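import Pool.Agent.P.MP_b91a16_ag.JB.LawSym

/-! Assembly: every norm has a model, and compositions of models are stably nondegenerate. -/

set_option linter.unusedSectionVars false

open MvPolynomial

namespace Pool.Agent.P.MP_b91a16_ag.JB

noncomputable section

open St Dt LawSym

variable {k β γ V α : Type} [Field k] [Fintype β] [DecidableEq β] [Fintype γ] [DecidableEq γ]
  [Fintype V] [DecidableEq V] [Fintype α] [DecidableEq α]

/-- `g` may replace `P` as a block. -/
def Blk (P : MvPolynomial β k) (g : MvPolynomial γ k) : Prop :=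
  ∀ (ζ : Type) [Fintype ζ] [DecidableEq ζ] (G : MvPolynomial (Option ζ) k), Same (sb P G) (sb g G)

theorem Blk.trans {P : MvPolynomial β k} {g : MvPolynomial γ k} {g' : MvPolynomial V k}
    (h : Blk P g) (h' : Blk g g') : Blk P g' := fun ζ _ _ G => (h ζ G).trans (h' ζ G)

theorem Blk.of_rename {P : MvPolynomial β k} {g : MvPolynomial γ k} {ε : β → γ}
    (hε : Function.Injective ε) (h : rename ε P = g) : Blk P g := fun ζ _ _ G =>
  Same.of_rename (ε := Sum.map ε id) (hε.sumMap Function.injective_id)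
    (algHom_aeval _ _ _ (fun o => by cases o <;> simp [← h, Function.comp_def]) G)

theorem same_lin {A B : Matrix β β k} (h1 : A * B = 1) (h2 : B * A = 1) (H : MvPolynomial β k) :
    Same H (aeval (fun i => ∑ j, C (A i j) * X j) H : MvPolynomial β k) := by
  refine ⟨Et.vol ⟨by simp, B, ?_, ?_⟩ H, fun b => LB.pull (e := 1)
    (φ := fun i => ((∑ j, C (A i j) * X j : MvPolynomial β k) : MvPowerSeries β k))
    (B := B.map MvPowerSeries.C) (fun a => ?_) ?_ isUnit_one ?_⟩
  · convert h1
    ext a j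
    simp [St.lin, pderiv_X, Pi.single_apply, apply_ite]
  · convert h2
    ext a j
    simp [St.lin, pderiv_X, Pi.single_apply, apply_ite]
  · rw [← MvPowerSeries.coeff_zero_eq_constantCoeff_apply, coeff_coe]
    exact (by simp : constantCoeff (∑ j, C (A a j) * X j : MvPolynomial β k) = 0)
  · rw [← Matrix.map_one MvPowerSeries.C (map_zero _) (map_one _), ← h1, Matrix.map_mul]
    congr 1
    ext a j : 2
    rw [Matrix.of_apply, MvPowerSeries.pderiv_coe]
    simp [pderiv_X, Pi.single_apply, apply_ite]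
  · rw [one_mul]
    exact (algHom_aeval (coeToMvPowerSeries.algHom k) _ _ (fun _ => rfl) H).symm

theorem Blk.lin {A : Matrix β β k} (hA : A.det ≠ 0) (P : MvPolynomial β k) :
    Blk (aeval (fun i => ∑ j, C (A i j) * X j) P : MvPolynomial β k) P := fun ζ _ _ G => by
  have h1 := Matrix.mul_nonsing_inv A (IsUnit.mk0 _ hA)
  have h2 := Matrix.nonsing_inv_mul A (IsUnit.mk0 _ hA)
  convert same_lin (A := Matrix.fromBlocks A⁻¹ 0 0 (1 : Matrix ζ ζ k))
    (B := Matrix.fromBlocks A 0 0 1) (by simp [Matrix.fromBlocks_multiply, h2])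
    (by simp [Matrix.fromBlocks_multiply, h1]) _ using 1
  refine (algHom_aeval _ _ _ (fun o => ?_) G).symm
  rcases o with _ | j
  · rw [Option.elim_none, aeval_rename, aeval_aeval, rename_eq_aeval]
    refine congrArg (aeval · P) (funext fun i => ?_)
    simp only [map_sum, map_mul, aeval_C, aeval_X, Function.comp_apply, Fintype.sum_sum_type,
      Matrix.fromBlocks_apply₁₁, Matrix.fromBlocks_apply₁₂, Matrix.zero_apply, map_zero, zero_mul,
      Finset.sum_const_zero, add_zero, Finset.mul_sum, algebraMap_eq]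
    simp only [← mul_assoc, ← map_mul]
    rw [Finset.sum_comm]
    simp only [← Finset.sum_mul, ← map_sum, ← Matrix.mul_apply, h1]
    simp [Matrix.one_apply, apply_ite]
  · simp [Matrix.one_apply, apply_ite]

theorem Hom.tw {g : MvPolynomial V k} {e : ℕ} (h : Hom g e) (d : α → ℕ) (p : ℕ) :
    Hom (tw g d p) ((p * Fintype.card α + 1) * e) := fun S _ _ s x => by
  rw [JB.tw, aeval_aeval, aeval_aeval, pow_mul, ← h]
  refine congrArg (aeval · g) (funext fun v => ?_)
  simp only [map_sum, map_mul, map_prod, aeval_X, Finset.prod_mul_distrib, Finset.prod_const,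
    Finset.card_univ, Fintype.card_fin, Finset.mul_sum]
  exact Finset.sum_congr rfl fun I _ => by ring

theorem Hom.cc {P : MvPolynomial β k} {n : ℕ} (h : Hom P (n + 1)) : constantCoeff P = 0 := by
  simpa using h k 0 0

theorem Hom.of_sq [CharZero k] {P : MvPolynomial β k} {n : ℕ} (h : Hom (P ^ 2) (2 * n)) :
    Hom P n := fun S _ _ s x => by
  have h1 := h (MvPolynomial (Option β) k) (X none) fun j => X (some j)
  rw [map_pow, map_pow, pow_mul', ← mul_pow, sq_eq_sq_iff_eq_or_eq_neg] at h1
  rcases h1 with h1 | h1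
  · have h2 := congrArg (aeval fun o : Option β => o.elim s x) h1
    rw [map_mul, aeval_aeval, aeval_aeval] at h2
    simpa using h2
  · have h2 := congrArg (aeval fun o : Option β => o.elim (1 : MvPolynomial β k) X) h1
    rw [map_neg, map_mul, aeval_aeval, aeval_aeval] at h2
    obtain rfl : P = 0 := by simpa [CharZero.eq_neg_self_iff] using h2
    simp

theorem hom_det {ν : Type} [Fintype ν] [DecidableEq ν] {A : Matrix ν ν (MvPolynomial β k)}
    (h : ∀ i j, Hom (A i j) 1) : Hom A.det (Fintype.card ν) := fun S _ _ s x => by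
  rw [AlgHom.map_det, AlgHom.map_det, ← Matrix.det_smul]
  congr 1
  ext i j
  simpa using h i j S s x

theorem hom_X (j : β) : Hom (X j : MvPolynomial β k) 1 := fun S _ _ s x => by simp

theorem hom_e6 : Hom (e6 k) 3 := fun S _ _ s x => by
  simp [e6, mat3, Matrix.det_fin_three, Matrix.trace_fin_three, Matrix.mul_apply,
    Fin.sum_univ_three]
  ring

theorem blk (h0 : TransStmt k) {P : MvPolynomial β k} {g : MvPolynomial γ k} {n : ℕ}
    (h1 : Law P g) (h2 : Hom P (n + 1)) (h3 : Hom g (n + 1)) {w : β → k} {b : ℕ → k}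
    (hw : ∀ a, w a ≠ 0) (hb : ∀ j, b j ≠ 0) (h4 : CayR w P b) (h5 : Low g b) : Blk P g :=
  fun ζ _ _ G => ⟨h1.vol h2 h3 G, h0 _ _ ζ w P g b hw hb h2.cc h4 h5 G⟩

theorem prod_sym (x : k) (m : ℕ) (d : Fin m → ℕ) (hd : ∀ i, d i + 2 * i = 2 * m + 1) :
    ∏ i ∈ Finset.range (2 * m + 1), (x + i + 2) = (x + 2) * ∏ i, ((d i + x) * (d i + x + 1)) := by
  induction m with
  | zero => simp
  | succ m ih =>
    rw [show 2 * (m + 1) + 1 = 2 * m + 1 + 1 + 1 from rfl, Finset.prod_range_succ,
      Finset.prod_range_succ, ih (fun i => d i.succ) fun i => by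
        have := hd i.succ; simp at this; omega, Fin.prod_univ_succ,
      show d 0 = 2 * m + 3 by have := hd 0; simp at this; omega]
    push_cast
    ring

theorem prod_pf (x : k) (m : ℕ) (d : Fin m → ℕ) (hd : ∀ i, d i + 2 * i = 2 * m + 1) :
    ∏ i ∈ Finset.range (m + 1), (x + 2 * i + 1) = (x + 1) * ∏ i, (d i + x) := by
  induction m with
  | zero => simp
  | succ m ih =>
    rw [Finset.prod_range_succ, ih (fun i => d i.succ) fun i => by
        have := hd i.succ; simp at this; omega, Fin.prod_univ_succ,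
      show d 0 = 2 * m + 3 by have := hd 0; simp at this; omega]
    push_cast
    ring

theorem pv_Z : PV (X () : MvPolynomial Unit k) :=
  ⟨Unit, inferInstance, id, 0, 1, 1, by simp, by simp, by simp⟩

theorem pv_Q [CharZero k] {c : k} (hc : c ≠ 0) (m : ℕ) : PV (C c * Qd k m) := by
  refine ⟨Option (Fin m), inferInstance, Option.map .inl,
    fun o => Finsupp.single (o.map .inr) 1, fun _ => c, fun o => o.elim (2 * c) fun _ => c,
    fun o => by cases o <;> simp [hc], ?_, fun o => ?_⟩
  · simp only [Qd, Fintype.sum_option, Option.map_none, Option.map_some, ← C_mul_X_eq_monomial,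
      mul_add, Finset.mul_sum]
    exact congrArg₂ (· + ·) (by ring) (Finset.sum_congr rfl fun i _ => by ring)
  · cases o <;> simp [Qd, ← C_mul_X_eq_monomial, pderiv_X, Pi.single_apply, map_ofNat]
    ring

theorem pv_diag [CharZero k] {a : β → k} (ha : ∀ i, a i ≠ 0) :
    PV (∑ i, C (a i) * X i ^ 2 : MvPolynomial β k) := by
  refine ⟨β, inferInstance, id, fun i => Finsupp.single i 1, a, fun i => 2 * a i,
    fun i => by simp [ha], Finset.sum_congr rfl fun i _ => ?_, fun i => ?_⟩
  · simp only [← C_mul_X_eq_monomial, id]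
    ring
  · simp [← C_mul_X_eq_monomial, pderiv_X, Pi.single_apply, map_ofNat]
    ring

theorem PV.cc {g : MvPolynomial V k} (h : PV g) : constantCoeff g = 0 := by
  obtain ⟨Λ, _, zv, ev, c, c', -, rfl, -⟩ := h
  simp

theorem cc_tw (g : MvPolynomial V k) (d : α → ℕ) (p : ℕ) :
    constantCoeff (tw g d p) = constantCoeff g := by
  have h : aeval (0 : Tv V d p → k) (tw g d p) = aeval 0 g := algHom_aeval _ _ _ (by simp) g
  simpa using h

theorem tw_ne {g : MvPolynomial V k} (h : g ≠ 0) {d : α → ℕ} (hd : ∀ i, 0 < d i) (p : ℕ) :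
    tw g d p ≠ 0 := fun e => by
  let I₀ : Fin p → Ix d := fun _ i => ⟨0, hd i⟩
  have h1 := algHom_aeval (aeval (Sum.elim (fun q => if q.2 = I₀ then X q.1 else 0) fun _ => 1 :
    Tv V d p → MvPolynomial V k)) (fun v => ∑ I : Fin p → Ix d, X (.inl (v, I)) *
      ∏ t, ∏ i, X (.inr ⟨i, I t i⟩)) X (fun v => by simp) g
  rw [aeval_X_left_apply] at h1
  exact h (h1.symm.trans (by rw [← tw, e, map_zero]))

theorem sA_ne [CharZero k] {ι ζ : Type} {γ : ι → Type} {g : ∀ i, MvPolynomial (γ i) k}
    (h : ∀ i, g i ≠ 0) (h0 : ∀ i, constantCoeff (g i) = 0) {F : MvPolynomial (ι ⊕ ζ) k}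
    (hF : F ≠ 0) : sA g F ≠ 0 := fun e => by
  have h1 : ∀ i, ∃ x : γ i → k, eval x (g i) ≠ 0 := fun i => by
    by_contra! h1
    exact h i (MvPolynomial.funext (by simpa using h1))
  choose x hx using h1
  let p : ι ⊕ ζ → Polynomial k := Sum.elim
    (fun i => aeval (fun a => Polynomial.C (x i a) * Polynomial.X) (g i)) fun _ => Polynomial.X
  have h2 : ∀ a, Transcendental k (p a) := by
    rintro (i | j)
    · refine Polynomial.transcendental _ (fun h2 => hx i ?_)
        (mem_nonZeroDivisors_of_ne_zero fun h2 => hx i ?_)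
      · have h3 := Polynomial.eq_C_of_natDegree_eq_zero h2
        have h4 := algHom_aeval (Polynomial.aeval (0 : k))
          (fun a => Polynomial.C (x i a) * Polynomial.X) 0 (by simp) (g i)
        have h5 := algHom_aeval (Polynomial.aeval (1 : k))
          (fun a => Polynomial.C (x i a) * Polynomial.X) (x i) (by simp) (g i)
        change Polynomial.aeval _ (p (.inl i)) = _ at h4 h5
        rw [h3, Polynomial.aeval_C] at h4 h5
        simpa [h0] using h5.symm.trans h4
      · have h5 := algHom_aeval (Polynomial.aeval (1 : k))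
          (fun a => Polynomial.C (x i a) * Polynomial.X) (x i) (by simp) (g i)
        change Polynomial.aeval _ (p (.inl i)) = _ at h5
        rw [Polynomial.leadingCoeff_eq_zero.1 h2, map_zero] at h5
        simpa using h5.symm
    · exact Polynomial.transcendental_X k
  refine hF (algebraicIndependent_polynomial_aeval_X p h2 ?_)
  rw [map_zero, ← algHom_aeval (aeval (Sum.elim (fun q : Σ i, γ i => C (x q.1 q.2) * X (.inl q.1))
    fun j => X (.inr j))) _ _ ?_ F, ← sA, e, map_zero]
  rintro (i | j)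
  · rw [Sum.elim_inl, aeval_rename]
    exact (algHom_aeval _ _ _ (by simp) (g i)).symm
  · simp [p]

variable (k) in
/-- `P` has a model. -/
def HasModel (β : Type) (P : MvPolynomial β k) : Prop :=
  ∃ (V : Type) (_ : Fintype V) (_ : DecidableEq V) (g : MvPolynomial V k) (m p : ℕ)
    (d : Fin m → ℕ), PV g ∧ g ≠ 0 ∧ (∀ i, 0 < d i) ∧
    ∀ [Fintype β] [DecidableEq β], Blk P (tw g d p)

theorem HasModel.mk {β : Type} [i1 : Fintype β] [i2 : DecidableEq β] {P : MvPolynomial β k}
    {g : MvPolynomial V k} {m p : ℕ} {d : Fin m → ℕ}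
    (h1 : PV g) (h2 : g ≠ 0) (h3 : ∀ i, 0 < d i) (h4 : Blk P (tw g d p)) : HasModel k β P :=
  ⟨V, _, _, g, m, p, d, h1, h2, h3, by
    intro j1 j2
    obtain rfl := Subsingleton.elim i1 j1
    obtain rfl := Subsingleton.elim i2 j2
    exact h4⟩

theorem hasModel [CharZero k] (h0 : TransStmt k) (h1 : CaySymStmt k) (h2 : CayPfStmt k)
    (h3 : CayE6Stmt k) (h4 : LowStmt k) (h5 : LawPfStmt k) (h6 : LawE6Stmt k) (h7 : LawSymStmt k)
    {β : Type} {P : MvPolynomial β k} (h : IsNorm k β P) : HasModel k β P := by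
  have hd : ∀ (m : ℕ) (i : Fin m), 2 * (m - i) + 1 + 2 * i = 2 * m + 1 := fun m i => by omega
  induction h with
  | lin β P _ A hA ih =>
    obtain ⟨V, _, _, g, m, p, d, g1, g2, g3, g4⟩ := ih
    exact .mk g1 g2 g3 ((Blk.lin hA P).trans g4)
  | det n hn =>
    obtain ⟨n, rfl⟩ := Nat.exists_eq_succ_of_ne_zero hn.ne'
    have hd : ∀ t : Fin n, n + 1 - t + t = n + 1 := fun t => by omega
    refine .mk (d := fun t : Fin n => n + 1 - t) (p := 1) pv_Z (X_ne_zero _) (fun t => by omega)
      (Blk.trans (fun ζ _ _ G => ⟨vol_sb _ _ hd G, fun b => LB_sb _ _ hd⟩)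
        (.of_rename (ε := Sum.map (fun I => ((), fun _ => I)) id) (Function.Injective.sumMap
          (fun I J e => congrFun (congrArg Prod.snd e) 0) Function.injective_id) ?_))
    simp only [mdl, tw, aeval_X, map_sum, map_mul, map_prod, rename_X]
    exact Fintype.sum_equiv (Equiv.funUnique (Fin 1) _).symm _ _ fun I => by simp [funext_iff]
  | sym n hn =>
    have hw : ∀ s : Sym2 (Fin n), (if s.IsDiag then 2 else 1 : k) ≠ 0 := fun s => by
      split_ifs <;> simp
    have hb : ∀ j : ℕ, (∏ i ∈ Finset.range n, (2 * j + i + 2 : k)) ≠ 0 := fun j =>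
      Finset.prod_ne_zero_iff.2 fun i _ => by norm_cast
    have hh : Hom (symD k n) n := by
      simpa [symD] using hom_det (A := Matrix.of fun p q : Fin n => X s(p, q)) fun i j => hom_X _
    obtain ⟨m, rfl | rfl⟩ : ∃ m, n = 2 * m + 1 ∨ n = 2 * m + 2 := ⟨(n - 1) / 2, by omega⟩
    · refine .mk pv_Z (X_ne_zero _) (fun t => by omega) (blk h0 (h7 m _ (hd m)).1 hh
        (by simpa using hom_Z.tw (α := Fin m) _ 2) hw hb (h1 _)
        (((h4 m _ fun t => by omega).1 2).smul 2 fun j => ?_))
      rw [prod_sym _ m _ (hd m)]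
      simp [Finset.prod_range_succ]
      ring
    · have hc : ((-1 : k) ^ (m + 1)) ≠ 0 := pow_ne_zero _ (by simp)
      refine .mk (pv_Q hc _) (fun e => ?_) (fun t => by omega) (blk h0 (h7 m _ (hd m)).2 hh
        (by
          have := (hom_Q ((-1 : k) ^ (m + 1)) (m + 1)).tw (fun i : Fin m => 2 * (m - i) + 1) 1
          rwa [show (1 * Fintype.card (Fin m) + 1) * 2 = 2 * m + 1 + 1 by simp; ring] at this) hw hb (h1 _)
        (((h4 m _ fun t => by omega).2 _ _ hc).smul 2 fun j => ?_))
      · simpa [Qd] using congrArg (eval fun o => o.elim 1 0) e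
      · rw [Finset.prod_range_succ, prod_sym _ m _ (hd m)]
        push_cast
        ring
  | pf n hn P h =>
    obtain ⟨n, rfl⟩ := Nat.exists_eq_succ_of_ne_zero hn.ne'
    refine .mk pv_Z (X_ne_zero _) (fun t => by omega) (blk h0 (h5 n P h _ (hd n)) (.of_sq ?_)
      (by simpa using hom_Z.tw (α := Fin n) _ 1) (fun _ => one_ne_zero) (fun j =>
        Finset.prod_ne_zero_iff.2 fun i _ => by norm_cast) (h2 _ P h)
      (((h4 n _ fun t => by omega).1 1).smul 1 fun j => ?_))
    · rw [h]
      simpa using hom_det (A := skew k (2 * (n + 1))) fun i j S _ _ s x => by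
        simp only [skew, Matrix.of_apply]
        split_ifs <;> simp
    · rw [prod_pf _ n _ (hd n)]
      simp
  | quad n hn a ha =>
    refine .mk (d := Fin.elim0) (p := 0) (pv_diag ha) (fun e => ha ⟨0, hn⟩ ?_) (·.elim0)
      (.of_rename (ε := fun v => .inl (v, (·.elim0))) (fun _ _ e => by simpa using e) ?_)
    · simpa [Pi.single_apply] using congrArg (eval (Pi.single ⟨0, hn⟩ 1)) e
    · rw [rename_eq_aeval]
      refine congrArg (aeval · _) (funext fun v => ?_)
      rw [Finset.sum_eq_single (·.elim0) (fun I _ h => (h (Subsingleton.elim _ _)).elim)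
        fun h => (h (Finset.mem_univ _)).elim]
      simp
  | e6 =>
    refine .mk pv_Z (X_ne_zero _) (by decide) (blk h0 h6 hom_e6
      (by simpa using hom_Z.tw ![5, 9] 1) (fun _ => one_ne_zero) (fun j => by norm_cast)
      h3 (((h4 2 _ (by decide)).1 1).smul 1 fun j => ?_))
    simp
    ring

theorem main_of [CharZero k] (h1 : NdStmt k) {r l N : ℕ} {β : Fin r → Type}
    (P : ∀ i, MvPolynomial (β i) k) (hP : ∀ i, HasModel k (β i) (P i))
    (ε : (Σ i, β i) ⊕ Fin l ≃ Fin N) (F : MvPolynomial (Fin (r + l)) k)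
    (hF : F ≠ 0) (h0 : constantCoeff F = 0) (hN : Nondeg F) :
    ∃ S : Finset (ℕ × ℕ), zeta (comp P ε F) ∈ poleRing k S ∧ ∀ p ∈ S, 0 < p.1 ∧ 0 < p.2 ∧
      ∀ b, LocalBernsteinEq (comp P ε F) b → b.eval (-(p.1 : k) / p.2) = 0 := by
  choose V i1 i2 g m p d h2 h3 h4 h5 using hP
  let _ : ∀ i, DecidableEq (β i) := fun i => Classical.decEq _
  let _ : ∀ i, Fintype (β i) := fun i => Fintype.ofInjective (fun b => ε (.inl ⟨i, b⟩))
    fun a b h => by simpa using h
  let _ : ∀ i, DecidableEq (Tv (V i) (d i) (p i)) := fun i => inferInstance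
  let F' := rename finSumFinEquiv.symm F
  let ε' := Fintype.equivFin ((Σ i, Tv (V i) (d i) (p i)) ⊕ Fin l)
  have h6 : Same (comp P ε F) (rename ε' (sA (fun i => tw (g i) (d i) (p i)) F')) := by
    refine (Same.of_rename ε.symm.injective ?_).trans ((same_sA r _ _ P _ (fun i => h5 i) _ F').trans
      (Same.of_rename ε'.injective rfl))
    rw [sA, aeval_rename]
    refine algHom_aeval _ _ _ (fun a => ?_) F
    induction a using Fin.addCases <;> simp [Function.comp_def]
  obtain ⟨S, h7, h8⟩ := St.main _ (by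
    rw [ne_eq, map_eq_zero_iff _ (rename_injective _ ε'.injective)]
    exact sA_ne (fun i => tw_ne (h3 i) (h4 i) _) (fun i => (cc_tw _ _ _).trans (h2 i).cc)
      ((map_ne_zero_iff _ (rename_injective _ finSumFinEquiv.symm.injective)).2 hF))
    (by
      have : aeval (fun _ => (0 : k)) (sA (fun i => tw (g i) (d i) (p i)) F') = aeval 0 F' :=
        algHom_aeval _ _ _ (by rintro (i | j) <;> simp [cc_tw, (h2 _).cc]) F'
      simpa [F', h0] using this) (h1 _ _ _ V g m p d F' ((ND_iff.2 hN).rename _) h2 ε')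
  refine ⟨S, ?_, fun p hp => ⟨(h8 p hp).1, (h8 p hp).2.1, fun b hb =>
    (h8 p hp).2.2 b (LB_iff.1 (h6.2 b (LB_iff.2 hb)))⟩⟩
  convert h7 using 1
  ext m
  rcases m with _ | m
  · simp [zeta, series]
  · rw [coeff_zeta_vol, coeff_zeta_vol, h6.1]

end

end Pool.Agent.P.MP_b91a16_ag.JB
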