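import Pool.Agent.P.MP_b91a16_ag.DefsLoc

/-! Compositions with the norms of the split simple Jordan algebras. -/

open MvPolynomial

namespace Pool.Agent.P.MP_b91a16_ag.JB

noncomputable section

/-- The skew-symmetric `n × n` matrix of variables `x_{pq}`, `p < q`. -/
def skew (k : Type) [Field k] (n : ℕ) :
    Matrix (Fin n) (Fin n) (MvPolynomial {p : Fin n × Fin n // p.1 < p.2} k) :=
  Matrix.of fun p q => if h : p < q then X ⟨(p, q), h⟩ else
    if h : q < p then -X ⟨(q, p), h⟩ else 0

/-- The `i`-th of three `3 × 3` matrices of variables. -/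
def mat3 (k : Type) [Field k] (i : Fin 3) :
    Matrix (Fin 3) (Fin 3) (MvPolynomial (Fin 3 × Fin 3 × Fin 3) k) :=
  Matrix.of fun p q => X (i, p, q)

/-- The norm polynomials: the determinant of a matrix of variables, the determinant of a symmetric
matrix of variables, the Pfaffian (a square root of the determinant of a skew-symmetric matrix of
variables of even size), a nondegenerate diagonal quadratic form, the `E₆` cubic
`det A + det B + det C - tr (A B C)` in `27` variables, and the polynomials obtained from these by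
invertible linear changes of variables. -/
inductive IsNorm (k : Type) [Field k] : (β : Type) → MvPolynomial β k → Prop
  | det (n : ℕ) (hn : 0 < n) : IsNorm k (Fin n × Fin n) (Matrix.of fun p q => X (p, q)).det
  | sym (n : ℕ) (hn : 0 < n) : IsNorm k (Sym2 (Fin n)) (Matrix.of fun p q => X s(p, q)).det
  | pf (n : ℕ) (hn : 0 < n) (P : MvPolynomial {p : Fin (2 * n) × Fin (2 * n) // p.1 < p.2} k)
      (h : P ^ 2 = (skew k (2 * n)).det) : IsNorm k _ P
  | quad (n : ℕ) (hn : 0 < n) (a : Fin n → k) (ha : ∀ i, a i ≠ 0) :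
      IsNorm k (Fin n) (∑ i, C (a i) * X i ^ 2)
  | e6 : IsNorm k (Fin 3 × Fin 3 × Fin 3)
      ((mat3 k 0).det + (mat3 k 1).det + (mat3 k 2).det - (mat3 k 0 * mat3 k 1 * mat3 k 2).trace)
  | lin (β : Type) [Fintype β] [DecidableEq β] (P : MvPolynomial β k) (h : IsNorm k β P)
      (A : Matrix β β k) (hA : A.det ≠ 0) :
      IsNorm k β (aeval (fun i => ∑ j, C (A i j) * X j) P)

/-- The polynomial `F(P_1(X_1), …, P_r(X_r), z_1, …, z_l)`, where the `P_i` are polynomials in
separate sets `β i` of variables; `ε` numbers these variables and the `z_j` as the variables of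
affine `N`-space. -/
def comp {k : Type} [Field k] {r l N : ℕ} {β : Fin r → Type} (P : ∀ i, MvPolynomial (β i) k)
    (ε : (Σ i, β i) ⊕ Fin l ≃ Fin N) (F : MvPolynomial (Fin (r + l)) k) : MvPolynomial (Fin N) k :=
  aeval (fun a : Fin (r + l) => a.addCases
    (fun i => rename (fun b => ε (Sum.inl ⟨i, b⟩)) (P i)) fun j => X (ε (Sum.inr j))) F

end

end Pool.Agent.P.MP_b91a16_ag.JB
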