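import Pool.Agent.P.MP_b91a16_ag.Dt.Final
import Pool.Agent.P.MP_b91a16_ag.JB.Defs

/-! Interface of the project: models, Cayley identities, lowering operators. -/

set_option linter.unusedSectionVars false

open MvPolynomial

namespace Pool.Agent.P.MP_b91a16_ag.JB

noncomputable section

open St Dt

variable {k β γ V α : Type} [Field k] [Fintype β] [DecidableEq β] [Fintype γ] [DecidableEq γ]
  [Fintype V] [DecidableEq V] [Fintype α] [DecidableEq α]

variable (k) in
/-- The symmetric determinant. -/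
def symD (n : ℕ) : MvPolynomial (Sym2 (Fin n)) k := (Matrix.of fun p q => X s(p, q)).det

variable (k) in
/-- The `E₆` cubic. -/
def e6 : MvPolynomial (Fin 3 × Fin 3 × Fin 3) k :=
  (mat3 k 0).det + (mat3 k 1).det + (mat3 k 2).det - (mat3 k 0 * mat3 k 1 * mat3 k 2).trace

variable (k) in
/-- The split quadratic form in `2 m + 1` variables. -/
def Qd (m : ℕ) : MvPolynomial (Option (Fin m ⊕ Fin m)) k :=
  X none ^ 2 + ∑ i, X (some (.inl i)) * X (some (.inr i))

abbrev Tv (V : Type) (d : α → ℕ) (p : ℕ) : Type := (V × (Fin p → Ix d)) ⊕ (Σ i, Fin (d i))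

/-- The twist of `g`: each variable `v` is replaced by `∑ x_{v,I} y^I`. -/
def tw (g : MvPolynomial V k) (d : α → ℕ) (p : ℕ) : MvPolynomial (Tv V d p) k :=
  aeval (fun v => ∑ I : Fin p → Ix d, X (.inl (v, I)) * ∏ t, ∏ i, X (.inr ⟨i, I t i⟩)) g

/-- Homogeneity. -/
def Hom (P : MvPolynomial β k) (n : ℕ) : Prop := ∀ (S : Type) [CommRing S] [Algebra k S] (s : S)
  (x : β → S), aeval (fun j => s * x j) P = s ^ n * aeval x P

/-- Scaling of the variables. -/
def sc (w : β → k) : MvPolynomial β k →ₐ[k] MvPolynomial β k := aeval fun a => C (w a) * X a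

/-- The weighted Fischer pairing: the adjoint of `X a` is `w a • pderiv a`. -/
def fw (w : β → k) : MvPolynomial β k →ₗ[k] MvPolynomial β k →ₗ[k] k := fis ∘ₗ (sc w).toLinearMap

theorem fw_apply (w : β → k) (u v : MvPolynomial β k) : fw w u v = fis (sc w u) v := rfl

theorem sc_monomial (w : β → k) (e : β →₀ ℕ) (c : k) :
    sc w (monomial e c) = monomial e (c * ∏ j, w j ^ e j) := by
  rw [sc, aeval_monomial, Finsupp.prod_fintype _ _ (by simp), monomial_eq,
    Finsupp.prod_fintype _ _ (by simp)]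
  simp [mul_pow, Finset.prod_mul_distrib, mul_assoc]

theorem fw_comm (w : β → k) (u v : MvPolynomial β k) : fw w u v = fw w v u := by
  induction u using MvPolynomial.induction_on' with
  | add p p' h h' => simp [h, h']
  | monomial e c =>
    induction v using MvPolynomial.induction_on' with
    | add q q' h h' => simp only [map_add, LinearMap.add_apply, h, h']
    | monomial e' c' =>
      simp only [fw_apply, sc_monomial, fis_monomial, coeff_monomial]
      by_cases h : e = e'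
      · simp [h]
        ring
      · simp [h, Ne.symm h]

theorem fw_X_mul (w : β → k) (a : β) (u v : MvPolynomial β k) :
    fw w (X a * u) v = w a * fw w u (pderiv a v) := by
  rw [fw_apply, fw_apply, map_mul, sc, aeval_X, mul_assoc, C_mul', map_smul, LinearMap.smul_apply,
    fis_X_mul, smul_eq_mul]

theorem fw_mul_X (w : β → k) (a : β) (u v : MvPolynomial β k) :
    fw w u (X a * v) = w a * fw w (pderiv a u) v := by
  rw [fw_comm, fw_X_mul, fw_comm]

theorem fw_one (w : β → k) (v : MvPolynomial β k) : fw w 1 v = constantCoeff v := by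
  rw [fw_apply, map_one, fis_one]

theorem fw_eq_fis (u v : MvPolynomial β k) : fw (fun _ => 1) u v = fis u v := by
  simp [fw_apply, sc]

/-- The Cayley identity `P*(∂) P^(j+1) = b j P^j`. -/
def CayR (w : β → k) (P : MvPolynomial β k) (b : ℕ → k) : Prop :=
  ∀ j v, fw w (P ^ (j + 1)) (P * v) = b j * fw w (P ^ j) v

/-- Differential operators realise the Euler operator and a lowering operator on powers of `g`. -/
def Low (g : MvPolynomial γ k) (b : ℕ → k) : Prop :=
  constantCoeff g = 0 ∧ (∃ E ∈ Wl k γ, ∀ j : ℕ, E (g ^ j) = (j : k) • g ^ j) ∧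
    ∃ D ∈ Wl k γ, D 1 = 0 ∧ ∀ j, D (g ^ (j + 1)) = b j • g ^ j

theorem Low.smul {g : MvPolynomial γ k} {b b' : ℕ → k} (h : Low g b) (c : k)
    (e : ∀ j, b' j = c * b j) : Low g b' := by
  obtain ⟨h1, h2, D, h3, h4, h5⟩ := h
  exact ⟨h1, h2, c • D, Subalgebra.smul_mem _ h3 c, by simp [h4], fun j => by
    simp [h5, e, smul_smul]⟩

/-- Every term of `g` has a private variable. -/
def PV (g : MvPolynomial V k) : Prop := ∃ (Λ : Type) (_ : Fintype Λ) (zv : Λ → V)
  (ev : Λ → V →₀ ℕ) (c c' : Λ → k), (∀ l, c' l ≠ 0) ∧ g = ∑ l, X (zv l) * monomial (ev l) (c l) ∧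
    ∀ l, pderiv (zv l) g = monomial (ev l) (c' l)

variable (k)

/-- Package `Trans`. -/
def TransStmt : Prop := ∀ (β γ ζ : Type) [Fintype β] [DecidableEq β] [Fintype γ] [DecidableEq γ]
  [Fintype ζ] [DecidableEq ζ] (w : β → k) (P : MvPolynomial β k) (g : MvPolynomial γ k) (b : ℕ → k),
  (∀ a, w a ≠ 0) → (∀ j, b j ≠ 0) → constantCoeff P = 0 → CayR w P b → Low g b →
  ∀ (G : MvPolynomial (Option ζ) k) (c : Polynomial k), LB (sb P G) c → LB (sb g G) c

/-- Package `Peirce`. -/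
def PeirceStmt : Prop := ∀ (β β' : Type) [Fintype β] [DecidableEq β] [Fintype β'] [DecidableEq β']
  (w : β → k) (a : β) (R : Finset β) (ε : β' ↪ β) (P : MvPolynomial β k) (P' : MvPolynomial β' k)
  (b : ℕ → k), a ∉ R → (∀ i, ε i ≠ a ∧ ε i ∉ R) → (∀ j, j = a ∨ j ∈ R ∨ ∃ i, ε i = j) →
  2 * (X a * pderiv a P) + ∑ ρ ∈ R, X ρ * pderiv ρ P = 2 * P →
  aeval (fun j => if j ∈ R then 0 else X j) P = X a * rename ε P' →
  (∀ ρ ∈ R, ∃ (κ : k) (l : β → MvPolynomial β' k), κ ≠ 0 ∧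
    C κ * X ρ * pderiv a P + ∑ σ ∈ R, rename ε (l σ) * pderiv σ P = 0 ∧
    ∀ (j : ℕ) v, fw w (P ^ j)
      (C κ * X ρ * pderiv a v + ∑ σ ∈ R, rename ε (l σ) * pderiv σ v) = 0) →
  CayR (w ∘ ε) P' b → CayR w P fun j => w a * (j + 1 + (R.card : k) / 2) * b j

/-- Package `CaySym`. -/
def CaySymStmt : Prop := ∀ n : ℕ, CayR (fun s => if s.IsDiag then 2 else 1) (symD k n)
  fun j => ∏ i ∈ Finset.range n, (2 * j + i + 2 : k)

/-- Package `CayPf`. -/
def CayPfStmt : Prop :=
  ∀ (n : ℕ) (P : MvPolynomial {p : Fin (2 * n) × Fin (2 * n) // p.1 < p.2} k),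
  P ^ 2 = (skew k (2 * n)).det →
  CayR (fun _ => 1) P fun j => ∏ i ∈ Finset.range n, (j + 2 * i + 1 : k)

/-- Package `CayE6`. -/
def CayE6Stmt : Prop := CayR (fun _ => 1) (e6 k) fun j => (j + 1) * (j + 5) * (j + 9)

/-- Package `LowTw`. -/
def LowStmt : Prop := ∀ (m : ℕ) (d : Fin m → ℕ), (∀ i, 0 < d i) →
  (∀ p, Low (tw (X () : MvPolynomial Unit k) d p)
    fun j => (j + 1) * ∏ i, ∏ t ∈ Finset.range p, (d i + p * j + t : k)) ∧
  ∀ (n : ℕ) (c : k), c ≠ 0 → Low (tw (C c * Qd k n) d 1)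
    fun j => (j + 1) * (2 * j + 2 * n + 1) * ∏ i, ((d i + 2 * j) * (d i + 2 * j + 1) : k)

/-- Package `Nd`. -/
def NdStmt : Prop := ∀ (r N : ℕ) (ζ : Type) [Fintype ζ] [DecidableEq ζ] (V : Fin r → Type)
  [∀ i, Fintype (V i)] [∀ i, DecidableEq (V i)] (g : ∀ i, MvPolynomial (V i) k) (m p : Fin r → ℕ)
  (d : ∀ i, Fin (m i) → ℕ) (F : MvPolynomial (Fin r ⊕ ζ) k), ND F → (∀ i, PV (g i)) →
  ∀ ε : (Σ i, Tv (V i) (d i) (p i)) ⊕ ζ ≃ Fin N,
    StablyNondeg (rename ε (sA (fun i => tw (g i) (d i) (p i)) F))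

end

end Pool.Agent.P.MP_b91a16_ag.JB
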