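import Pool.Agent.P.MP_b91a16_ag.JB.Base

/-! A calculus for the laws of polynomials along random arcs. -/

set_option linter.unusedSectionVars false

open MvPolynomial

namespace Pool.Agent.P.MP_b91a16_ag.JB

noncomputable section

open St Dt

variable {k τ β β' ζ : Type} [Field k] [Fintype τ] [DecidableEq τ] [Fintype β] [DecidableEq β]
  [Fintype β'] [DecidableEq β'] [Fintype ζ] [DecidableEq ζ]

/-- Evaluation along an arc; the variable `none` is the parameter `t` of the arc. -/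
def ev {K : Type} [CommRing K] [Algebra k K] (γ : τ → PowerSeries K) :
    MvPolynomial (Option τ) k →ₐ[k] PowerSeries K :=
  aeval fun o => o.elim PowerSeries.X γ

section ev

variable {K : Type} [CommRing K] [Algebra k K] (γ : τ → PowerSeries K)

@[simp] theorem ev_none : ev (k := k) γ (X none) = PowerSeries.X := aeval_X _ _

@[simp] theorem ev_some (j : τ) : ev (k := k) γ (X (some j)) = γ j := aeval_X _ _

@[simp] theorem ev_rename_some (p : MvPolynomial τ k) : ev γ (rename some p) = aeval γ p :=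
  aeval_rename _ _ _

theorem ev_rename (ε : β → τ) (p : MvPolynomial (Option β) k) :
    ev γ (rename (Option.map ε) p) = ev (fun j => γ (ε j)) p := by
  rw [ev, aeval_rename]
  exact congrArg (aeval · p) (funext fun o => by cases o <;> rfl)

theorem ev_congr_dvd {t : PowerSeries K} {γ γ' : τ → PowerSeries K} (h : ∀ j, t ∣ γ' j - γ j)
    (p : MvPolynomial (Option τ) k) : t ∣ ev γ' p - ev γ p :=
  aeval_congr_dvd (fun o => by cases o <;> simp [h]) p

theorem aeval_coeff_ev (x : τ × ℕ → K) (g : MvPolynomial (Option τ) k) (p : ℕ) :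
    aeval x (PowerSeries.coeff p (ev (ser (X : τ × ℕ → MvPolynomial (τ × ℕ) k)) g)) =
      PowerSeries.coeff p (ev (ser x) g) := by
  have h := algHom_aeval (PowerSeries.mapAlgHom (aeval x : MvPolynomial (τ × ℕ) k →ₐ[k] K))
    (fun o : Option τ => o.elim PowerSeries.X (ser X)) (fun o => o.elim PowerSeries.X (ser x))
    (fun o => by
      cases o
      · simp [PowerSeries.mapAlgHom_apply]
      · exact map_ser x _) g
  rw [ev, ev, ← h, PowerSeries.mapAlgHom_apply, PowerSeries.coeff_map]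
  rfl

end ev

/-- Substitution that fixes the parameter `t`. -/
def sbt (ψ : β → MvPolynomial (Option τ) k) :
    MvPolynomial (Option β) k →ₐ[k] MvPolynomial (Option τ) k :=
  aeval fun o => o.elim (X none) ψ

@[simp] theorem sbt_none (ψ : β → MvPolynomial (Option τ) k) : sbt ψ (X none) = X none :=
  aeval_X _ _

@[simp] theorem sbt_some (ψ : β → MvPolynomial (Option τ) k) (j : β) : sbt ψ (X (some j)) = ψ j :=
  aeval_X _ _

@[simp] theorem sbt_rename_some (ψ : β → MvPolynomial (Option τ) k) (p : MvPolynomial β k) :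
    sbt ψ (rename some p) = aeval ψ p := aeval_rename _ _ _

theorem ev_sbt {K : Type} [CommRing K] [Algebra k K] (γ : τ → PowerSeries K)
    (ψ : β → MvPolynomial (Option τ) k) (p : MvPolynomial (Option β) k) :
    ev γ (sbt ψ p) = ev (fun j => ev γ (ψ j)) p :=
  algHom_aeval _ _ _ (fun o => by cases o <;> simp) p

theorem cvt {P Q : AP k τ} {m : ℕ} {v : Mot k} (hP : Lev P m) (hQ : Lev Q m)
    (ψ : τ → MvPolynomial (Option τ) k)
    (h1 : ∀ (K : Type) [Field K] [Algebra k K] γ, P K γ → Q K fun j => ev γ (ψ j))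
    (h2 : ∀ (K : Type) [Field K] [Algebra k K] (γ γ' : τ → PowerSeries K) N, P K γ → P K γ' →
      (∀ j, PowerSeries.X ^ N ∣ ev γ' (ψ j) - ev γ (ψ j)) → ∀ j, PowerSeries.X ^ N ∣ γ' j - γ j)
    (h3 : ∀ (K : Type) [Field K] [Algebra k K] γ', Q K γ' →
      ∃ γ, P K γ ∧ ∀ j, ev γ (ψ j) = γ' j) (h : AV P v) : AV Q v := by
  obtain ⟨F, c, hd, hc, e⟩ := h
  obtain ⟨M, hM, hF⟩ : ∃ M, m ≤ M ∧ F ⊆ Finset.univ ×ˢ Finset.range M :=
    ⟨m + F.sup (·.2) + 1, by omega, fun p hp => by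
      have := Finset.le_sup (f := (·.2)) hp
      simp only [Finset.mem_product, Finset.mem_univ, Finset.mem_range, true_and] at this ⊢
      omega⟩
  obtain ⟨c', hc', e'⟩ := hasClass_cut_mono hd hc hF
  have hm : ∀ (K : Type) [Field K] {z : PowerSeries K}, PowerSeries.X ^ M ∣ z →
      PowerSeries.X ^ m ∣ z := fun K _ z => (pow_dvd_pow _ hM).trans
  refine ⟨Finset.univ ×ˢ Finset.range M, c', fun K _ _ x y hxy hx => ?_,
    hc'.map (fun p => if p.2 < M then PowerSeries.coeff p.2 (ev (ser X) (ψ p.1)) else 0)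
      fun K _ _ => ?_, e.trans e'⟩
  · exact hQ K _ _ (fun j => hm K (dvd_ser_sub.2 fun l hl => by
      rw [← hxy _ (by simpa using hl)]; simp [ser])) hx
  · have key : ∀ (x : τ × ℕ → K) (a : τ), PowerSeries.X ^ M ∣ ser (fun p : τ × ℕ =>
        aeval x (if p.2 < M then PowerSeries.coeff p.2 (ev (ser X) (ψ p.1)) else
          (0 : MvPolynomial (τ × ℕ) k))) a - ev (ser x) (ψ a) :=
      fun x a => dvd_ser_sub.2 fun l hl => by simp [hl, aeval_coeff_ev]
    refine ⟨fun x hx => ⟨hQ K _ _ (fun j => hm K (key x j)) (h1 K _ hx.1),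
      fun p hp => by simp [show ¬p.2 < M by simpa using hp]⟩, fun x hx x' hx' e => ?_,
      fun y hy => ?_⟩
    · have h4 := h2 K _ (ser x') M hx.1 hx'.1 fun a => by
        have := dvd_sub (key x a) (key x' a)
        beta_reduce at e
        rwa [e, sub_sub_sub_cancel_left] at this
      funext p
      by_cases hp : p.2 < M
      · rw [dvd_ser_sub.1 (h4 p.1) p.2 hp]
        simp [ser]
      · rw [hx.2 p (by simpa using hp), hx'.2 p (by simpa using hp)]
    · obtain ⟨γ, h4, h5⟩ := h3 K _ hy.1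
      let x : τ × ℕ → K := fun p => if p.2 < M then PowerSeries.coeff p.2 (γ p.1) else 0
      have h6 : ∀ j, PowerSeries.X ^ M ∣ ser x j - γ j := fun j => dvd_ser_sub.2 fun l hl => if_pos hl
      refine ⟨x, ⟨hP K _ _ (fun j => hm K (h6 j)) h4, fun p hp => if_neg (by simpa using hp)⟩,
        funext fun p => ?_⟩
      by_cases hp : p.2 < M
      · have := dvd_add (key x p.1) (ev_congr_dvd h6 (ψ p.1))
        rw [sub_add_sub_cancel, h5] at this
        simpa [ser] using dvd_ser_sub.1 this p.2 hp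
      · rw [hy.2 p (by simpa using hp)]
        simp [hp]

/-- The coordinates in `Z` lie in `t K[[t]]`, those in `U` are units. -/
def Cn {K : Type} [Field K] (Z U : Finset β) (γ : β → PowerSeries K) : Prop :=
  (∀ j ∈ Z, PowerSeries.constantCoeff (γ j) = 0) ∧ ∀ j ∈ U, PowerSeries.constantCoeff (γ j) ≠ 0

/-- The arcs with `Φ (R (t, γ), γ')` and `Cn Z U γ`. -/
def TC (Φ : AP k (Option ζ)) (R : MvPolynomial (Option β) k) (Z U : Finset β) : AP k (β ⊕ ζ) :=
  fun K _ _ γ => (Φ K fun o => o.elim (ev (fun j => γ (.inl j)) R) fun j => γ (.inr j)) ∧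
    Cn Z U fun j => γ (.inl j)

/-- Admissible test conditions. -/
structure Adm (Φ : AP k (Option ζ)) (M : ℕ) : Prop where
  lev : Lev Φ (M + 1)
  ex : ∀ (β : Type) [Fintype β] [DecidableEq β] (R : MvPolynomial (Option β) k),
    ∃ v, AV (TC Φ R ∅ ∅) v

/-- The volume of `TC Φ R Z U`. -/
def lc (Φ : AP k (Option ζ)) (R : MvPolynomial (Option β) k) (Z U : Finset β) : Mot k :=
  Classical.epsilon (AV (TC Φ R Z U))

/-- `t ^ a P`. -/
def tp (a : ℕ) (P : MvPolynomial β k) : MvPolynomial (Option β) k := X none ^ a * rename some P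

/-- The law of `t ^ a P`. -/
def ls (Φ : AP k (Option ζ)) (P : MvPolynomial β k) (a : ℕ) : Mot k := lc Φ (tp a P) ∅ ∅

variable {Φ : AP k (Option ζ)} {M : ℕ} {R R' : MvPolynomial (Option β) k} {Z U Z' U' : Finset β}

theorem Cn_congr {K : Type} [Field K] {γ γ' : β → PowerSeries K}
    (h : ∀ j, PowerSeries.X ∣ γ' j - γ j) (hγ : Cn Z U γ) : Cn Z U γ' := by
  have h1 : ∀ j, PowerSeries.constantCoeff (γ' j) = PowerSeries.constantCoeff (γ j) := fun j => by
    simpa [sub_eq_zero] using PowerSeries.X_dvd_iff.1 (h j)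
  exact ⟨fun j hj => (h1 j).trans (hγ.1 j hj), fun j hj => (h1 j).symm ▸ hγ.2 j hj⟩

theorem lev_TC (h : Lev Φ (M + 1)) (R : MvPolynomial (Option β) k) (Z U : Finset β) :
    Lev (TC Φ R Z U) (M + 1) := fun K _ _ γ γ' e hγ =>
  ⟨h K _ _ (fun o => by
    rcases o with _ | j
    · exact ev_congr_dvd (fun j => e (.inl j)) R
    · exact e _) hγ.1, Cn_congr (fun j => (dvd_pow_self _ M.succ_ne_zero).trans (e _)) hγ.2⟩

theorem cc_ser {K : Type} [CommRing K] (x : τ × ℕ → K) (j : τ) :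
    PowerSeries.constantCoeff (ser x j) = x (j, 0) := by simp [ser]

theorem av_split {v : Mot k} (h : AV (TC Φ R Z U) v) (j : β) :
    ∃ v₁ v₂, AV (TC Φ R (insert j Z) U) v₁ ∧ AV (TC Φ R Z (insert j U)) v₂ ∧ v = v₁ + v₂ := by
  obtain ⟨v₁, v₂, h₁, h₂, e⟩ := h.split (X (.inl j, 0))
  exact ⟨v₁, v₂, h₁.congr fun K _ _ x => by simp [TC, Cn, cc_ser]; tauto,
    h₂.congr fun K _ _ x => by simp [TC, Cn, cc_ser]; tauto, e⟩

theorem Adm.av (h : Adm Φ M) (R : MvPolynomial (Option β) k) (Z U : Finset β) :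
    AV (TC Φ R Z U) (lc Φ R Z U) := by
  refine Classical.epsilon_spec (p := AV (TC Φ R Z U)) ?_
  induction Z using Finset.induction_on with
  | insert j Z _ ih =>
    obtain ⟨v, hv⟩ := ih
    obtain ⟨v₁, -, h₁, -⟩ := av_split hv j
    exact ⟨v₁, h₁⟩
  | empty =>
    induction U using Finset.induction_on with
    | insert j U _ ih =>
      obtain ⟨v, hv⟩ := ih
      obtain ⟨-, v₂, -, h₂, -⟩ := av_split hv j
      exact ⟨v₂, h₂⟩
    | empty => exact h.ex β R

theorem lc_eq {v : Mot k} (hv : AV (TC Φ R Z U) v) : lc Φ R Z U = v :=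
  (Classical.epsilon_spec (p := AV (TC Φ R Z U)) ⟨v, hv⟩).unique hv

/-- Splitting along a coordinate. -/
theorem Adm.split (h : Adm Φ M) (R : MvPolynomial (Option β) k) (Z U : Finset β) (j : β) :
    lc Φ R Z U = lc Φ R (insert j Z) U + lc Φ R Z (insert j U) := by
  obtain ⟨v₁, v₂, h₁, h₂, e⟩ := av_split (h.av R Z U) j
  rw [e, lc_eq h₁, lc_eq h₂]

/-- Splitting along a row of coordinates: the first unit. -/
theorem Adm.split_row (h : Adm Φ M) (R : MvPolynomial (Option β) k) (Z U : Finset β) {D : ℕ}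
    (ρ : Fin D ↪ β) : lc Φ R Z U = lc Φ R (Z ∪ Finset.univ.map ρ) U +
      ∑ c, lc Φ R (Z ∪ (Finset.Iio c).map ρ) (insert (ρ c) U) := by
  have key : ∀ l ≤ D, lc Φ R Z U = lc Φ R (Z ∪ (Finset.univ.filter fun c => c.1 < l).map ρ) U +
      ∑ c with c.1 < l, lc Φ R (Z ∪ (Finset.Iio c).map ρ) (insert (ρ c) U) := by
    intro l hl
    induction l with
    | zero => simp
    | succ l ih =>
      have h1 : (Finset.univ.filter fun c : Fin D => c.1 < l + 1) =
          insert ⟨l, hl⟩ (Finset.univ.filter fun c : Fin D => c.1 < l) := by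
        ext c
        simp [Fin.ext_iff]
        omega
      have h2 : (Finset.univ.filter fun c : Fin D => c.1 < l) = Finset.Iio ⟨l, hl⟩ := by
        ext c
        simp [Fin.lt_def]
      rw [ih (by omega), h.split _ _ U (ρ ⟨l, hl⟩), h1, Finset.sum_insert (by simp),
        Finset.map_insert, Finset.union_insert, h2, add_assoc]
  simpa using key D le_rfl

/-- Conditions that differ by multiples of `t ^ (M + 1)`. -/
theorem Adm.congr (h : Adm Φ M)
    (e : ∀ (K : Type) [Field K] [Algebra k K] (γ : β → PowerSeries K), Cn Z U γ →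
      PowerSeries.X ^ (M + 1) ∣ ev γ R' - ev γ R) : lc Φ R Z U = lc Φ R' Z U := by
  refine lc_eq ((h.av R' Z U).congr fun K _ _ x => and_congr_left fun hx => ?_)
  constructor <;> refine h.lev K _ _ fun o => ?_ <;> rcases o with _ | j
  · exact dvd_sub_comm.1 (e K _ hx)
  · simp
  · exact e K _ hx
  · simp

/-- Change of variables. -/
theorem Adm.cv (h : Adm Φ M) (R : MvPolynomial (Option β) k) (ψ : β → MvPolynomial (Option β) k)
    (h1 : ∀ (K : Type) [Field K] [Algebra k K] (γ : β → PowerSeries K), Cn Z U γ →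
      Cn Z' U' fun j => ev γ (ψ j))
    (h2 : ∀ (K : Type) [Field K] [Algebra k K] (γ γ' : β → PowerSeries K) N, Cn Z U γ →
      Cn Z U γ' → (∀ j, PowerSeries.X ^ N ∣ ev γ' (ψ j) - ev γ (ψ j)) →
      ∀ j, PowerSeries.X ^ N ∣ γ' j - γ j)
    (h3 : ∀ (K : Type) [Field K] [Algebra k K] (γ' : β → PowerSeries K), Cn Z' U' γ' →
      ∃ γ, Cn Z U γ ∧ ∀ j, ev γ (ψ j) = γ' j) : lc Φ R Z' U' = lc Φ (sbt ψ R) Z U := by
  refine lc_eq (cvt (lev_TC h.lev _ _ _) (lev_TC h.lev _ _ _)
    (Sum.elim (fun j => rename (Option.map Sum.inl) (ψ j)) fun j => X (some (.inr j)))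
    (fun K _ _ γ hγ => ?_) (fun K _ _ γ γ' N hγ hγ' e => ?_) (fun K _ _ γ' hγ => ?_) (h.av _ Z U))
  · exact ⟨by simpa [ev_rename, ev_sbt] using hγ.1, by simpa [ev_rename] using h1 K _ hγ.2⟩
  · rintro (j | j)
    · exact h2 K _ _ N hγ.2 hγ'.2 (fun j => by simpa [ev_rename] using e (.inl j)) j
    · simpa using e (.inr j)
  · obtain ⟨γ, h4, h5⟩ := h3 K _ hγ.2
    refine ⟨Sum.elim γ fun j => γ' (.inr j), ⟨by simpa [ev_sbt, h5] using hγ.1, h4⟩, ?_⟩
    rintro (j | j) <;> simp [ev_rename, h5]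

/-- A polynomial map that is bijective where the coordinates in `U` are units. -/
def TriT (ψ : β → MvPolynomial (Option β) k) (U : Finset β) : Prop :=
  ∀ (S : Type) [CommRing S] [Algebra k S] (t : S),
  (∀ γ γ' : β → S, (∀ p ∈ U, IsUnit (γ p)) → (∀ j, aeval (fun o : Option β => o.elim t γ') (ψ j) =
    aeval (fun o : Option β => o.elim t γ) (ψ j)) → γ' = γ) ∧
    ∀ γ' : β → S, (∀ p ∈ U, IsUnit (γ' p)) →
      ∃ γ, ∀ j, aeval (fun o : Option β => o.elim t γ) (ψ j) = γ' j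

theorem isUnit_of_cc {K : Type} [Field K] {z : PowerSeries K}
    (hz : PowerSeries.constantCoeff z ≠ 0) : IsUnit z :=
  PowerSeries.isUnit_iff_constantCoeff.2 (IsUnit.mk0 _ hz)

theorem TriT.inj {ψ : β → MvPolynomial (Option β) k} (hψ : TriT ψ U) {K : Type} [Field K]
    [Algebra k K] {γ γ' : β → PowerSeries K} {N : ℕ} (hγ : ∀ p ∈ U, IsUnit (γ p))
    (e : ∀ j, PowerSeries.X ^ N ∣ ev γ' (ψ j) - ev γ (ψ j)) (j : β) :
    PowerSeries.X ^ N ∣ γ' j - γ j := by
  let π := Ideal.Quotient.mkₐ k (Ideal.span {(PowerSeries.X : PowerSeries K) ^ N})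
  have h1 : ∀ z z', π z' = π z ↔ PowerSeries.X ^ N ∣ z' - z := fun z z' =>
    Ideal.Quotient.eq.trans Ideal.mem_span_singleton
  have h2 : ∀ (δ : β → PowerSeries K) p, aeval (fun o : Option β => o.elim (π PowerSeries.X)
      fun j => π (δ j)) p = π (ev δ p) := fun δ p =>
    (algHom_aeval π _ _ (fun o => by cases o <;> rfl) p).symm
  exact (h1 _ _).1 (congrFun ((hψ _ (π PowerSeries.X)).1 (fun j => π (γ j)) (fun j => π (γ' j))
    (fun p hp => (hγ p hp).map π) fun j => by rw [h2, h2, h1]; exact e j) j)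

/-- Triangular change of variables that preserves the conditions. -/
theorem Adm.tri (h : Adm Φ M) (R : MvPolynomial (Option β) k) {ψ : β → MvPolynomial (Option β) k}
    (hψ : TriT ψ U) (hc : ∀ (K : Type) [Field K] [Algebra k K] (γ : β → PowerSeries K),
      Cn Z U γ ↔ Cn Z U fun j => ev γ (ψ j)) : lc Φ R Z U = lc Φ (sbt ψ R) Z U :=
  h.cv R ψ (fun K _ _ γ => (hc K γ).1)
    (fun K _ _ γ γ' N hγ _ e => hψ.inj (fun p hp => isUnit_of_cc (hγ.2 p hp)) e)
    fun K _ _ γ' hγ => by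
      obtain ⟨γ, e⟩ := (hψ _ PowerSeries.X).2 γ' fun p hp => isUnit_of_cc (hγ.2 p hp)
      exact ⟨γ, (hc K γ).2 (by simpa only [ev, e] using hγ), e⟩

theorem Adm.tri' (h : Adm Φ M) (R : MvPolynomial (Option β) k) {ψ : β → MvPolynomial (Option β) k}
    (hψ : TriT ψ U) (hc : ∀ j ∈ Z ∪ U, ψ j = X (some j)) : lc Φ R Z U = lc Φ (sbt ψ R) Z U :=
  h.tri R hψ fun K _ _ γ => and_congr
    (forall₂_congr fun j hj => by simp [hc j (Finset.mem_union_left _ hj)])
    (forall₂_congr fun j hj => by simp [hc j (Finset.mem_union_right _ hj)])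

/-- Renaming of variables, with conditions on the variables that do not occur. -/
theorem Adm.rename (h : Adm Φ M) (R : MvPolynomial (Option β') k) (Z U : Finset β') (ε : β' ↪ β)
    {Z' U' : Finset β} (hd : Disjoint Z' U') (hε : ∀ j, ε j ∉ Z' ∧ ε j ∉ U') :
    lc Φ (rename (Option.map ε) R) (Z.map ε ∪ Z') (U.map ε ∪ U') =
      (1 - Linv k) ^ U'.card * (Linv k ^ Z'.card * lc Φ R Z U) := by
  let e : β ↪ (β ⊕ ζ) × ℕ := ⟨fun c => (.inl c, 0), fun c c' h => by simpa using h⟩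
  have h0 : ∀ (K : Type) [Field K] (x : (β ⊕ ζ) × ℕ → K) (c : β) (t : K), (∀ j, ε j ≠ c) →
      Function.update x (e c) t ∘ ((ε.sumMap (.refl ζ)).prodMap (.refl ℕ)) =
        x ∘ ((ε.sumMap (.refl ζ)).prodMap (.refl ℕ)) := fun K _ x c t hc =>
    Function.update_comp_eq_of_forall_ne _ _ (by
      rintro ⟨j | j, l⟩ <;> simp [e, Function.Embedding.prodMap, hc])
  have h1 := (((h.av R Z U).comap ((ε.sumMap (.refl ζ)).prodMap (.refl ℕ))).and_forall_zero
    (Z'.map e) fun p hp K _ _ x t hx => by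
      obtain ⟨c, hc, rfl⟩ := Finset.mem_map.1 hp
      rwa [h0 K x c t fun j e => (hε j).1 (e ▸ hc)]).and_forall_ne (U'.map e)
    fun p hp K _ _ x t hx => by
      obtain ⟨c, hc, rfl⟩ := Finset.mem_map.1 hp
      refine ⟨by rw [h0 K x c t fun j e => (hε j).2 (e ▸ hc)]; exact hx.1, fun p hp => ?_⟩
      rw [Function.update_of_ne (ne_of_mem_of_not_mem hp (by
        simpa using Finset.disjoint_right.1 hd hc)), hx.2 p hp]
  rw [Finset.card_map, Finset.card_map] at h1
  refine lc_eq (h1.congr fun K _ _ x => ?_)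
  simp only [TC, Cn, ev_rename, Finset.forall_mem_map, Finset.forall_mem_union, cc_ser]
  exact ⟨fun ⟨⟨⟨a, b, c⟩, d⟩, e⟩ => ⟨a, ⟨b, d⟩, c, e⟩, fun ⟨a, ⟨b, d⟩, c, e⟩ => ⟨⟨⟨a, b, c⟩, d⟩, e⟩⟩

theorem Adm.rename' (h : Adm Φ M) (R : MvPolynomial (Option β') k) (ε : β' ↪ β)
    (hd : Disjoint Z U) (hε : ∀ j, ε j ∉ Z ∧ ε j ∉ U) :
    lc Φ (MvPolynomial.rename (Option.map ε) R) Z U =
      (1 - Linv k) ^ U.card * (Linv k ^ Z.card * lc Φ R ∅ ∅) := by
  simpa using h.rename R ∅ ∅ ε hd hε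

/-- Division of the coordinates in `Z'` by `t`. -/
theorem Adm.shift (h : Adm Φ M) (R : MvPolynomial (Option β) k) (hZ : Disjoint Z' Z)
    (hU : Disjoint Z' U) : lc Φ R (Z ∪ Z') U = Linv k ^ Z'.card *
      lc Φ (sbt (fun j => if j ∈ Z' then X none * X (some j) else X (some j)) R) Z U := by
  let w : β ⊕ ζ → ℕ := Sum.elim (fun j => if j ∈ Z' then 1 else 0) 0
  have h1 := ((h.av (sbt (fun j => if j ∈ Z' then X none * X (some j) else X (some j)) R) Z U).comap
    (shiftEmb w)).and_forall_zero (lowSet w) fun p hp K _ _ x t hx => by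
      rwa [Function.update_comp_eq_of_forall_ne _ _ fun q e => by
        rw [← e, mem_lowSet] at hp
        simp at hp]
  have h2 : (lowSet w).card = Z'.card := by
    rw [card_lowSet, Fintype.sum_sum_type]
    simp [w]
  rw [h2] at h1
  refine lc_eq (h1.congr fun K _ _ x => ?_)
  have h3 : (∀ p ∈ lowSet w, x p = 0) ↔ ∀ j ∈ Z', x (.inl j, 0) = 0 := by
    simp only [mem_lowSet, w]
    refine ⟨fun h j hj => h _ (by simp [hj]), ?_⟩
    rintro h ⟨j | j, l⟩ hp
    · by_cases hj : j ∈ Z'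
      · obtain rfl : l = 0 := by simpa [hj] using hp
        exact h j hj
      · simp [hj] at hp
    · simp at hp
  have h4 : (∀ j ∈ Z', x (.inl j, 0) = 0) → (fun j => ser x (.inl j)) = fun j =>
      ev (k := k) (fun j => ser (x ∘ shiftEmb w) (.inl j))
        (if j ∈ Z' then X none * X (some j) else X (some j)) := fun hx => by
    funext j
    split_ifs with hj
    · ext p
      rcases p with _ | p
      · simpa [ser] using hx j hj
      · simp [ser, w, hj, PowerSeries.coeff_succ_X_mul]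
    · ext p
      simp [ser, w, hj]
  have h5 : Cn Z U (fun j => ser (x ∘ shiftEmb w) (.inl j)) ↔ Cn Z U fun j => ser x (.inl j) :=
    and_congr (forall₂_congr fun j hj => by simp [cc_ser, w, Finset.disjoint_right.1 hZ hj])
      (forall₂_congr fun j hj => by simp [cc_ser, w, Finset.disjoint_right.1 hU hj])
  have h6 : Cn (Z ∪ Z') U (fun j => ser x (.inl j)) ↔
      Cn Z U (fun j => ser x (.inl j)) ∧ ∀ j ∈ Z', x (.inl j, 0) = 0 := by
    simp only [Cn, Finset.forall_mem_union, cc_ser]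
    tauto
  rw [h3, TC, TC, h5, h6, ← and_assoc]
  refine and_congr_left fun hx => and_congr_left' ?_
  rw [ev_sbt, ← h4 hx]
  rfl

/-- The row recursion. -/
theorem Adm.step (h : Adm Φ M) {D : ℕ} (ρ : Fin D ↪ β) {R' : MvPolynomial (Option β') k}
    (hpiv : ∀ c, ∃ (ε : β' ↪ β) (ψ ψ' : β → MvPolynomial (Option β) k), (∀ j c, ε j ≠ ρ c) ∧
      TriT ψ {ρ c} ∧ TriT ψ' {ρ c} ∧ (∀ c, ψ (ρ c) = X (some (ρ c))) ∧
      (∀ c, ψ' (ρ c) = X (some (ρ c))) ∧
      sbt ψ R = sbt ψ' (MvPolynomial.rename (Option.map ε) R')) :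
    lc Φ R ∅ ∅ = (1 - Linv k ^ D) * lc Φ R' ∅ ∅ + Linv k ^ D * lc Φ (sbt (fun j =>
      if j ∈ Finset.univ.map ρ then X none * X (some j) else X (some j)) R) ∅ ∅ := by
  rw [h.split_row R ∅ ∅ ρ, h.shift R (by simp) (by simp), add_comm, Finset.card_map,
    Finset.card_fin, Finset.sum_congr rfl (g := fun c => (1 - Linv k) * (Linv k ^ c.1 *
      lc Φ R' ∅ ∅)) fun c _ => ?_, ← Finset.mul_sum, ← Finset.sum_mul,
    Fin.sum_univ_eq_sum_range (fun c => Linv k ^ c), ← mul_assoc, mul_neg_geom_sum]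
  obtain ⟨ε, ψ, ψ', h1, h2, h3, h4, h5, h6⟩ := hpiv c
  have h7 : ∀ j ∈ (Finset.Iio c).map ρ ∪ {ρ c}, ∃ c, ρ c = j := fun j hj => by
    simp only [Finset.mem_union, Finset.mem_map, Finset.mem_singleton] at hj
    rcases hj with ⟨c, -, e⟩ | e
    exacts [⟨c, e⟩, ⟨c, e.symm⟩]
  rw [Finset.empty_union, insert_empty_eq, h.tri' R h2 fun j hj => by
    obtain ⟨c, rfl⟩ := h7 j hj; exact h4 c, h6, ← h.tri' _ h3 fun j hj => by
    obtain ⟨c, rfl⟩ := h7 j hj; exact h5 c, h.rename' R' ε (by simp) fun j => by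
      simpa [h1] using fun c _ => (h1 j c).symm]
  simp

theorem tp_rename (a : ℕ) (P : MvPolynomial β' k) (ε : β' → β) :
    tp a (rename ε P) = rename (Option.map ε) (tp a P) := by
  simp [tp, Function.comp_def]

theorem Adm.ls_rename (h : Adm Φ M) (P : MvPolynomial β' k) (ε : β' ↪ β) (a : ℕ) :
    ls Φ (MvPolynomial.rename ε P) a = ls Φ P a := by
  rw [ls, tp_rename, h.rename' _ ε (by simp) (by simp)]
  simp [ls]

/-- All laws agree for large `a`. -/
theorem Adm.ls_large (h : Adm Φ M) (P : MvPolynomial β k) {a : ℕ} (ha : M + 1 ≤ a) :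
    ls Φ P a = ls Φ (0 : MvPolynomial Empty k) 0 := by
  rw [← h.ls_rename (β := β) 0 .ofIsEmpty]
  exact h.congr fun K _ _ γ _ => by simp [tp, (pow_dvd_pow _ ha).mul_right]

theorem cancel {s : ℕ → Mot k} {c : Mot k} {e N : ℕ} (he : 0 < e) (h : ∀ a, s a = c * s (a + e))
    (h0 : ∀ a, N ≤ a → s a = 0) (a : ℕ) : s a = 0 := by
  obtain ⟨b, hb⟩ : ∃ b, N ≤ a + b := ⟨N, by omega⟩
  induction b generalizing a with
  | zero => exact h0 a hb
  | succ b ih => rw [h, ih _ (by omega), mul_zero]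

/-- Square roots of arcs. -/
theorem exists_sqrt {K : Type} [Field K] (h2 : (2 : K) ≠ 0) {r s : PowerSeries K}
    (hr : PowerSeries.constantCoeff r ≠ 0) (hs : PowerSeries.X ∣ s) :
    ∃ u, u ^ 2 = r ^ 2 + s ∧ PowerSeries.X ∣ u - r := by
  obtain ⟨u, h1, h3⟩ := HenselianRing.is_henselian
    (I := Ideal.span {(PowerSeries.X : PowerSeries K)})
    (Polynomial.X ^ 2 - Polynomial.C (r ^ 2 + s)) (Polynomial.monic_X_pow_sub_C _ two_ne_zero) r
    (by simpa [Ideal.mem_span_singleton] using hs)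
    ((isUnit_of_cc (by
      rw [Polynomial.derivative_sub, Polynomial.derivative_C]
      simpa [one_add_one_eq_two] using And.intro ((map_ofNat _ 2).trans_ne h2) hr)).map _)
  exact ⟨u, by simpa [sub_eq_zero] using h1, Ideal.mem_span_singleton.1 h3⟩

/-- The test condition for the multiples by `H`, a polynomial in further variables. -/
def mulT (Φ : AP k (Option ζ)) (H : MvPolynomial τ k) : AP k (Option (τ ⊕ ζ)) := fun K _ _ γ =>
  Φ K fun o => o.elim (aeval (fun j => γ (some (.inl j))) H * γ none) fun j => γ (some (.inr j))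

/-- The product of polynomials in separate variables. -/
def pr2 (H : MvPolynomial τ k) (P : MvPolynomial β k) : MvPolynomial (τ ⊕ β) k :=
  rename Sum.inl H * rename Sum.inr P

theorem av_mulT (H : MvPolynomial τ k) (R : MvPolynomial (Option β) k) (v : Mot k) :
    AV (TC (mulT Φ H) R ∅ ∅) v ↔ AV (TC Φ (rename (some ∘ Sum.inl) H *
      rename (Option.map (Sum.inr : β → τ ⊕ β)) R) ∅ ∅) v := by
  let e : β ⊕ τ ⊕ ζ ≃ (τ ⊕ β) ⊕ ζ :=
    (Equiv.sumAssoc _ _ _).symm.trans ((Equiv.sumComm _ _).sumCongr (.refl _))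
  constructor
  · exact fun h => (h.comap (e.toEmbedding.prodMap (.refl ℕ))).congr fun K _ _ x => by
      simp only [TC, mulT, Cn, map_mul, ev_rename, ← rename_rename, ev_rename_some, aeval_rename]
      simp only [Finset.notMem_empty, IsEmpty.forall_iff, implies_true, and_true]
      rfl
  · exact fun h => (h.comap (e.symm.toEmbedding.prodMap (.refl ℕ))).congr fun K _ _ x => by
      simp only [TC, mulT, Cn, map_mul, ev_rename, ← rename_rename, ev_rename_some, aeval_rename]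
      simp only [Finset.notMem_empty, IsEmpty.forall_iff, implies_true, and_true]
      rfl

theorem Adm.mulT (h : Adm Φ M) (H : MvPolynomial τ k) : Adm (mulT Φ H) M where
  lev K _ _ γ γ' e := h.lev K _ _ fun o => by
    rcases o with _ | j
    · have h1 := dvd_add ((aeval_congr_dvd (fun j => e (some (.inl j))) H).mul_right (γ' none))
        ((e none).mul_left (aeval (fun j => γ (some (.inl j))) H))
      convert h1 using 1
      simp only [Option.elim_none]
      ring
    · exact e _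
  ex β _ _ R := ⟨_, (av_mulT H R _).2 (h.av _ _ _)⟩

theorem Adm.ls_mulT (h : Adm Φ M) (H : MvPolynomial τ k) (P : MvPolynomial β k) (a : ℕ) :
    ls (JB.mulT Φ H) P a = ls Φ (pr2 H P) a := by
  refine lc_eq ((av_mulT H _ _).2 ?_)
  rw [ls]
  convert h.av (tp a (pr2 H P)) ∅ ∅ using 2
  simp [tp, pr2, Function.comp_def, mul_left_comm]

theorem Adm.ls_mulC (h : Adm Φ M) (c : k) (P : MvPolynomial β k) (a : ℕ) :
    ls (JB.mulT Φ (C c : MvPolynomial Empty k)) P a = ls Φ (C c * P) a := by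
  rw [h.ls_mulT, ← h.ls_rename (C c * P) (.inr : β ↪ Empty ⊕ β)]
  simp only [pr2, map_mul, rename_C]
  rfl

/-- `P` and `g` have the same law. -/
def Law (P : MvPolynomial β k) (g : MvPolynomial β' k) : Prop :=
  ∀ (ζ : Type) [Fintype ζ] [DecidableEq ζ] (Φ : AP k (Option ζ)) (M : ℕ), Adm Φ M →
    ∀ a, ls Φ P a = ls Φ g a

theorem Law.vol {P : MvPolynomial β k} {g : MvPolynomial β' k} (h : Law P g) {n : ℕ}
    (hP : Hom P n) (hg : Hom g n) (G : MvPolynomial (Option ζ) k) (m : ℕ) (c : k) :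
    vol (sb P G) m c = vol (sb g G) m c := by
  let Φ : AP k (Option ζ) := fun K _ _ γ => PowerSeries.X ^ (m + 1) ∣ aeval (fun o : Option ζ =>
    o.elim (γ none) fun j => PowerSeries.X * γ (some j)) G -
      PowerSeries.C (algebraMap k K c) * PowerSeries.X ^ m
  have key : ∀ (β : Type) [Fintype β] [DecidableEq β] (R : MvPolynomial β k), Hom R n →
      ls Φ R n = St.vol (sb R G) m c := fun β _ _ R hR =>
    lc_eq ((hasVol_vol _ m c).congr fun K _ _ x => by
      simp only [CP, TC, Cn, Φ, sb, aeval_aeval, tp, map_mul, map_pow, ev_none, ev_rename_some,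
        ← hR _, Finset.notMem_empty, IsEmpty.forall_iff, implies_true, and_true]
      refine iff_of_eq (congrArg (fun z => _ ∣ aeval z G - _) (funext fun o => ?_))
      rcases o with _ | j <;> simp [arc, aeval_rename, Function.comp_def])
  rw [← key _ _ hP, ← key _ _ hg]
  refine h ζ Φ m ⟨fun K _ _ γ γ' e => (CP_congr le_rfl fun o => ?_).1, fun β _ _ R => ?_⟩ n
  · rcases o with _ | j
    · exact e _
    · simpa [← mul_sub] using (e _).mul_left _
  · let U : MvPolynomial (Option (β ⊕ ζ)) k := aeval (fun o : Option ζ => o.elim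
      (rename (Option.map Sum.inl) R) fun j => X none * X (some (.inr j))) G - C c * X none ^ m
    obtain ⟨v, h⟩ := (hasVol_true (k := k) (ι := (β ⊕ ζ) × ℕ)).and_forall_eq (Finset.range (m + 1))
      fun p => PowerSeries.coeff p (ev (ser X) U)
    refine ⟨v, h.congr fun K _ _ x => ?_⟩
    simp only [aeval_coeff_ev, true_and, Finset.mem_range, ← PowerSeries.X_pow_dvd_iff]
    simp only [TC, Cn, Φ, U, map_sub, Finset.notMem_empty, IsEmpty.forall_iff, implies_true,
      and_true]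
    rw [algHom_aeval _ _ (fun o : Option ζ => o.elim (ev (fun j => ser x (.inl j)) R)
      fun j => PowerSeries.X * ser x (.inr j)) (fun o => ?_) G]
    · simp [alg_ps]
    · rcases o with _ | j <;> simp [ev_rename]

variable (k)

/-- Package `LawTw`. -/
def TwStmt : Prop := ∀ (V ζ : Type) [Fintype V] [DecidableEq V] [Fintype ζ] [DecidableEq ζ]
  (g : MvPolynomial V k) (e p : ℕ) (Φ : AP k (Option ζ)) (M : ℕ), Hom g e → Adm Φ M →
  (∀ (d : Fin 0 → ℕ) a, ls Φ (tw g d p) a = ls Φ g a) ∧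
  ∀ (m : ℕ) (d : Fin (m + 1) → ℕ) a, ls Φ (tw g d p) a = (1 - Linv k ^ d 0) *
    ls Φ (tw g (fun i : Fin m => d i.succ) p) a + Linv k ^ d 0 * ls Φ (tw g d p) (a + p * e)

/-- Package `LawPf`. -/
def LawPfStmt : Prop := ∀ (n : ℕ)
  (P : MvPolynomial {p : Fin (2 * (n + 1)) × Fin (2 * (n + 1)) // p.1 < p.2} k),
  P ^ 2 = (skew k (2 * (n + 1))).det → ∀ d : Fin n → ℕ, (∀ i, d i + 2 * i = 2 * n + 1) →
  Law P (tw (X () : MvPolynomial Unit k) d 1)

/-- Package `LawE6`. -/
def LawE6Stmt : Prop := Law (e6 k) (tw (X () : MvPolynomial Unit k) ![5, 9] 1)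

/-- Package `LawQuad`. -/
def QuadStmt : Prop := ∀ (ζ : Type) [Fintype ζ] [DecidableEq ζ] (Φ : AP k (Option ζ)) (M : ℕ),
  Adm Φ M → ∀ m a, ls Φ (Qd k (m + 1)) a = (1 - Linv k) * (ls Φ (X () : MvPolynomial Unit k) a +
    Linv k ^ (2 * m + 2) * ls Φ (X () : MvPolynomial Unit k) (a + 1)) +
    Linv k * (ls Φ (Qd k m) a - Linv k ^ (2 * m + 1) * ls Φ (Qd k m) (a + 2)) +
    Linv k ^ (2 * m + 3) * ls Φ (Qd k (m + 1)) (a + 2)

/-- Package `SymRec`. -/
def SymRecStmt : Prop := ∀ (ζ : Type) [Fintype ζ] [DecidableEq ζ] (Φ : AP k (Option ζ)) (M : ℕ),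
  Adm Φ M → ∀ n a, let A := ls Φ (pr2 (X () : MvPolynomial Unit k) (symD k (n + 2)))
  ls Φ (symD k (n + 3)) a = (A a - Linv k * A (a + 1)) +
    Linv k ^ (n + 3) * (A (a + 1) - Linv k * A (a + 2)) +
    Linv k * (1 - Linv k ^ (n + 2)) * ls Φ (-symD k (n + 1)) a +
    Linv k ^ (n + 4) * ls Φ (symD k (n + 3)) (a + 2)

/-- Package `LawSym`. -/
def LawSymStmt : Prop := ∀ (m : ℕ) (d : Fin m → ℕ), (∀ i, d i + 2 * i = 2 * m + 1) →
  Law (symD k (2 * m + 1)) (tw (X () : MvPolynomial Unit k) d 2) ∧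
  Law (symD k (2 * m + 2)) (tw (C ((-1) ^ (m + 1)) * Qd k (m + 1)) d 1)

end

end Pool.Agent.P.MP_b91a16_ag.JB
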