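import Pool.Agent.P.MP_b91a16_ag.JB.Base

/-! The Cayley identity for the cubic form in 27 variables. -/

open MvPolynomial

namespace Pool.Agent.P.MP_b91a16_ag.JB

open St Dt

namespace CayE6

/-- The index set of the variables. -/
abbrev I : Type := Fin 3 × Fin 3 × Fin 3

/-- The signed sum over the 45 monomials of the cubic. -/
def S {M : Type} [AddCommGroup M] (F : I → I → I → M) : M :=
  F (0, 0, 0) (0, 1, 1) (0, 2, 2) - F (0, 0, 0) (0, 1, 2) (0, 2, 1)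
  - F (0, 0, 1) (0, 1, 0) (0, 2, 2) + F (0, 0, 1) (0, 1, 2) (0, 2, 0)
  + F (0, 0, 2) (0, 1, 0) (0, 2, 1) - F (0, 0, 2) (0, 1, 1) (0, 2, 0)
  + F (1, 0, 0) (1, 1, 1) (1, 2, 2) - F (1, 0, 0) (1, 1, 2) (1, 2, 1)
  - F (1, 0, 1) (1, 1, 0) (1, 2, 2) + F (1, 0, 1) (1, 1, 2) (1, 2, 0)
  + F (1, 0, 2) (1, 1, 0) (1, 2, 1) - F (1, 0, 2) (1, 1, 1) (1, 2, 0)
  + F (2, 0, 0) (2, 1, 1) (2, 2, 2) - F (2, 0, 0) (2, 1, 2) (2, 2, 1)
  - F (2, 0, 1) (2, 1, 0) (2, 2, 2) + F (2, 0, 1) (2, 1, 2) (2, 2, 0)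
  + F (2, 0, 2) (2, 1, 0) (2, 2, 1) - F (2, 0, 2) (2, 1, 1) (2, 2, 0)
  - F (0, 0, 0) (1, 0, 0) (2, 0, 0) - F (0, 0, 0) (1, 0, 1) (2, 1, 0)
  - F (0, 0, 0) (1, 0, 2) (2, 2, 0) - F (0, 0, 1) (1, 1, 0) (2, 0, 0)
  - F (0, 0, 1) (1, 1, 1) (2, 1, 0) - F (0, 0, 1) (1, 1, 2) (2, 2, 0)
  - F (0, 0, 2) (1, 2, 0) (2, 0, 0) - F (0, 0, 2) (1, 2, 1) (2, 1, 0)
  - F (0, 0, 2) (1, 2, 2) (2, 2, 0) - F (0, 1, 0) (1, 0, 0) (2, 0, 1)
  - F (0, 1, 0) (1, 0, 1) (2, 1, 1) - F (0, 1, 0) (1, 0, 2) (2, 2, 1)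
  - F (0, 1, 1) (1, 1, 0) (2, 0, 1) - F (0, 1, 1) (1, 1, 1) (2, 1, 1)
  - F (0, 1, 1) (1, 1, 2) (2, 2, 1) - F (0, 1, 2) (1, 2, 0) (2, 0, 1)
  - F (0, 1, 2) (1, 2, 1) (2, 1, 1) - F (0, 1, 2) (1, 2, 2) (2, 2, 1)
  - F (0, 2, 0) (1, 0, 0) (2, 0, 2) - F (0, 2, 0) (1, 0, 1) (2, 1, 2)
  - F (0, 2, 0) (1, 0, 2) (2, 2, 2) - F (0, 2, 1) (1, 1, 0) (2, 0, 2)
  - F (0, 2, 1) (1, 1, 1) (2, 1, 2) - F (0, 2, 1) (1, 1, 2) (2, 2, 2)
  - F (0, 2, 2) (1, 2, 0) (2, 0, 2) - F (0, 2, 2) (1, 2, 1) (2, 1, 2)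
  - F (0, 2, 2) (1, 2, 2) (2, 2, 2)

/-- The gradient of the cubic. -/
def G {R : Type} [CommRing R] (x : I → R) : I → R
  | (0, 0, 0) =>
    x (0, 1, 1) * x (0, 2, 2) - x (0, 1, 2) * x (0, 2, 1) - x (1, 0, 0) * x (2, 0, 0)
    - x (1, 0, 1) * x (2, 1, 0) - x (1, 0, 2) * x (2, 2, 0)
  | (0, 0, 1) =>
    x (0, 1, 2) * x (0, 2, 0) - x (0, 1, 0) * x (0, 2, 2) - x (1, 1, 0) * x (2, 0, 0)
    - x (1, 1, 1) * x (2, 1, 0) - x (1, 1, 2) * x (2, 2, 0)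
  | (0, 0, 2) =>
    x (0, 1, 0) * x (0, 2, 1) - x (0, 1, 1) * x (0, 2, 0) - x (1, 2, 0) * x (2, 0, 0)
    - x (1, 2, 1) * x (2, 1, 0) - x (1, 2, 2) * x (2, 2, 0)
  | (0, 1, 0) =>
    x (0, 0, 2) * x (0, 2, 1) - x (0, 0, 1) * x (0, 2, 2) - x (1, 0, 0) * x (2, 0, 1)
    - x (1, 0, 1) * x (2, 1, 1) - x (1, 0, 2) * x (2, 2, 1)
  | (0, 1, 1) =>
    x (0, 0, 0) * x (0, 2, 2) - x (0, 0, 2) * x (0, 2, 0) - x (1, 1, 0) * x (2, 0, 1)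
    - x (1, 1, 1) * x (2, 1, 1) - x (1, 1, 2) * x (2, 2, 1)
  | (0, 1, 2) =>
    x (0, 0, 1) * x (0, 2, 0) - x (0, 0, 0) * x (0, 2, 1) - x (1, 2, 0) * x (2, 0, 1)
    - x (1, 2, 1) * x (2, 1, 1) - x (1, 2, 2) * x (2, 2, 1)
  | (0, 2, 0) =>
    x (0, 0, 1) * x (0, 1, 2) - x (0, 0, 2) * x (0, 1, 1) - x (1, 0, 0) * x (2, 0, 2)
    - x (1, 0, 1) * x (2, 1, 2) - x (1, 0, 2) * x (2, 2, 2)
  | (0, 2, 1) =>
    x (0, 0, 2) * x (0, 1, 0) - x (0, 0, 0) * x (0, 1, 2) - x (1, 1, 0) * x (2, 0, 2)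
    - x (1, 1, 1) * x (2, 1, 2) - x (1, 1, 2) * x (2, 2, 2)
  | (0, 2, 2) =>
    x (0, 0, 0) * x (0, 1, 1) - x (0, 0, 1) * x (0, 1, 0) - x (1, 2, 0) * x (2, 0, 2)
    - x (1, 2, 1) * x (2, 1, 2) - x (1, 2, 2) * x (2, 2, 2)
  | (1, 0, 0) =>
    x (1, 1, 1) * x (1, 2, 2) - x (1, 1, 2) * x (1, 2, 1) - x (0, 0, 0) * x (2, 0, 0)
    - x (0, 1, 0) * x (2, 0, 1) - x (0, 2, 0) * x (2, 0, 2)
  | (1, 0, 1) =>
    x (1, 1, 2) * x (1, 2, 0) - x (1, 1, 0) * x (1, 2, 2) - x (0, 0, 0) * x (2, 1, 0)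
    - x (0, 1, 0) * x (2, 1, 1) - x (0, 2, 0) * x (2, 1, 2)
  | (1, 0, 2) =>
    x (1, 1, 0) * x (1, 2, 1) - x (1, 1, 1) * x (1, 2, 0) - x (0, 0, 0) * x (2, 2, 0)
    - x (0, 1, 0) * x (2, 2, 1) - x (0, 2, 0) * x (2, 2, 2)
  | (1, 1, 0) =>
    x (1, 0, 2) * x (1, 2, 1) - x (1, 0, 1) * x (1, 2, 2) - x (0, 0, 1) * x (2, 0, 0)
    - x (0, 1, 1) * x (2, 0, 1) - x (0, 2, 1) * x (2, 0, 2)
  | (1, 1, 1) =>
    x (1, 0, 0) * x (1, 2, 2) - x (1, 0, 2) * x (1, 2, 0) - x (0, 0, 1) * x (2, 1, 0)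
    - x (0, 1, 1) * x (2, 1, 1) - x (0, 2, 1) * x (2, 1, 2)
  | (1, 1, 2) =>
    x (1, 0, 1) * x (1, 2, 0) - x (1, 0, 0) * x (1, 2, 1) - x (0, 0, 1) * x (2, 2, 0)
    - x (0, 1, 1) * x (2, 2, 1) - x (0, 2, 1) * x (2, 2, 2)
  | (1, 2, 0) =>
    x (1, 0, 1) * x (1, 1, 2) - x (1, 0, 2) * x (1, 1, 1) - x (0, 0, 2) * x (2, 0, 0)
    - x (0, 1, 2) * x (2, 0, 1) - x (0, 2, 2) * x (2, 0, 2)
  | (1, 2, 1) =>
    x (1, 0, 2) * x (1, 1, 0) - x (1, 0, 0) * x (1, 1, 2) - x (0, 0, 2) * x (2, 1, 0)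
    - x (0, 1, 2) * x (2, 1, 1) - x (0, 2, 2) * x (2, 1, 2)
  | (1, 2, 2) =>
    x (1, 0, 0) * x (1, 1, 1) - x (1, 0, 1) * x (1, 1, 0) - x (0, 0, 2) * x (2, 2, 0)
    - x (0, 1, 2) * x (2, 2, 1) - x (0, 2, 2) * x (2, 2, 2)
  | (2, 0, 0) =>
    x (2, 1, 1) * x (2, 2, 2) - x (2, 1, 2) * x (2, 2, 1) - x (0, 0, 0) * x (1, 0, 0)
    - x (0, 0, 1) * x (1, 1, 0) - x (0, 0, 2) * x (1, 2, 0)
  | (2, 0, 1) =>
    x (2, 1, 2) * x (2, 2, 0) - x (2, 1, 0) * x (2, 2, 2) - x (0, 1, 0) * x (1, 0, 0)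
    - x (0, 1, 1) * x (1, 1, 0) - x (0, 1, 2) * x (1, 2, 0)
  | (2, 0, 2) =>
    x (2, 1, 0) * x (2, 2, 1) - x (2, 1, 1) * x (2, 2, 0) - x (0, 2, 0) * x (1, 0, 0)
    - x (0, 2, 1) * x (1, 1, 0) - x (0, 2, 2) * x (1, 2, 0)
  | (2, 1, 0) =>
    x (2, 0, 2) * x (2, 2, 1) - x (2, 0, 1) * x (2, 2, 2) - x (0, 0, 0) * x (1, 0, 1)
    - x (0, 0, 1) * x (1, 1, 1) - x (0, 0, 2) * x (1, 2, 1)
  | (2, 1, 1) =>
    x (2, 0, 0) * x (2, 2, 2) - x (2, 0, 2) * x (2, 2, 0) - x (0, 1, 0) * x (1, 0, 1)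
    - x (0, 1, 1) * x (1, 1, 1) - x (0, 1, 2) * x (1, 2, 1)
  | (2, 1, 2) =>
    x (2, 0, 1) * x (2, 2, 0) - x (2, 0, 0) * x (2, 2, 1) - x (0, 2, 0) * x (1, 0, 1)
    - x (0, 2, 1) * x (1, 1, 1) - x (0, 2, 2) * x (1, 2, 1)
  | (2, 2, 0) =>
    x (2, 0, 1) * x (2, 1, 2) - x (2, 0, 2) * x (2, 1, 1) - x (0, 0, 0) * x (1, 0, 2)
    - x (0, 0, 1) * x (1, 1, 2) - x (0, 0, 2) * x (1, 2, 2)
  | (2, 2, 1) =>
    x (2, 0, 2) * x (2, 1, 0) - x (2, 0, 0) * x (2, 1, 2) - x (0, 1, 0) * x (1, 0, 2)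
    - x (0, 1, 1) * x (1, 1, 2) - x (0, 1, 2) * x (1, 2, 2)
  | (2, 2, 2) =>
    x (2, 0, 0) * x (2, 1, 1) - x (2, 0, 1) * x (2, 1, 0) - x (0, 2, 0) * x (1, 0, 2)
    - x (0, 2, 1) * x (1, 1, 2) - x (0, 2, 2) * x (1, 2, 2)

theorem map_S {M M' : Type} [AddCommGroup M] [AddCommGroup M'] (f : M →+ M') (F : I → I → I → M) :
    f (S F) = S fun a b c => f (F a b c) := by
  simp only [S, map_add, map_sub]

theorem S_comb {R : Type} [CommRing R] (r s t : R) (F F' F'' : I → I → I → R) :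
    S (fun a b c => r * F a b c + s * F' a b c + t * F'' a b c) =
      r * S F + s * S F' + t * S F'' := by
  simp only [S]
  ring

theorem adjoint {R : Type} [CommRing R] (x : I → R) :
    S (fun a b c => G x a * G x b * G x c) = S (fun a b c => x a * x b * x c) ^ 2 := by
  simp only [S, G]
  ring

variable {k : Type} [Field k]

theorem e6_eq : e6 k = S fun a b c => X a * X b * X c := by
  simp only [S, e6, mat3, Matrix.det_fin_three, Matrix.trace_fin_three, Matrix.mul_apply,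
    Fin.sum_univ_three, Matrix.of_apply]
  ring

theorem chain (d : Derivation k (MvPolynomial I k) (MvPolynomial I k)) :
    d (e6 k) = ∑ b, G X b * d (X b) := by
  simp only [e6_eq, S, map_add, map_sub, Derivation.leibniz, smul_eq_mul, Fintype.sum_prod_type,
    Fin.sum_univ_three, G]
  ring

theorem pd (a b : I) : pderiv a (X b : MvPolynomial I k) = if b = a then 1 else 0 := by
  rw [pderiv_X, Pi.single_apply]

theorem grad (a : I) : pderiv a (e6 k) = G X a := by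
  simp [chain, Pi.single_apply]

theorem second : S (fun a b c => pderiv a (G X b) * G X c + G X b * pderiv a (G X c) +
    G X a * pderiv b (G X c)) = 15 * e6 k := by
  simp only [e6_eq, S, G, map_sub, Derivation.leibniz, smul_eq_mul, pd,
    Prod.mk.injEq, Fin.reduceEq, and_true, and_false, if_true, if_false,
    and_self, mul_zero, mul_one, add_zero, zero_add, sub_zero, zero_sub]
  ring

theorem third : S (fun a b c => pderiv a (pderiv b (G X c : MvPolynomial I k))) = 45 := by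
  simp only [S, G, map_sub, map_neg, Derivation.leibniz, smul_eq_mul, pd,
    Prod.mk.injEq, Fin.reduceEq, and_true, and_false, if_true, if_false,
    and_self, mul_zero, mul_one, add_zero, sub_zero, zero_sub]
  ring

theorem three {A : Type} [CommRing A] [Algebra k A] (d e f : Derivation k A A) (p : A) (n : ℕ) :
    d (e (f (p ^ n))) =
      (n * (n - 1 : ℕ) * (n - 1 - 1 : ℕ) * p ^ (n - 1 - 1 - 1)) * (d p * e p * f p) +
      (n * (n - 1 : ℕ) * p ^ (n - 1 - 1)) * (d (e p) * f p + e p * d (f p) + d p * e (f p)) +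
      (n * p ^ (n - 1)) * d (e (f p)) := by
  simp only [Derivation.leibniz_pow, map_nsmul, map_add, Derivation.leibniz, smul_eq_mul]
  simp only [nsmul_eq_mul]
  ring

theorem op (j : ℕ) : S (fun a b c => pderiv a (pderiv b (pderiv c (e6 k ^ (j + 1))))) =
    (j + 1) * (j + 5) * (j + 9) * e6 k ^ j := by
  simp only [three, grad]
  rw [S_comb, adjoint, ← e6_eq, second, third]
  rcases j with _ | _ | j
  · simp
    ring
  · simp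
    ring
  · simp only [Nat.add_sub_cancel]
    push_cast
    ring

end CayE6

open CayE6 in
theorem cayE6 {k : Type} [Field k] [CharZero k] : CayE6Stmt k := by
  intro j v
  rw [fw_eq_fis, fw_eq_fis]
  have h1 := map_S ((fis (e6 k ^ (j + 1))).toAddMonoidHom.comp (AddMonoidHom.mulRight v))
    fun a b c : I => X a * X b * X c
  have h2 := (congrArg (fis.flip v).toAddMonoidHom (op j)).symm.trans (map_S _ _)
  rw [← e6_eq] at h1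
  have h3 : ((j + 1) * (j + 5) * (j + 9) * e6 k ^ j : MvPolynomial I k) =
      ((j + 1) * (j + 5) * (j + 9) : k) • e6 k ^ j := by
    rw [smul_eq_C_mul]
    simp only [map_mul, map_add, map_natCast, map_one, map_ofNat]
  rw [h3] at h2
  simp only [AddMonoidHom.comp_apply, AddMonoidHom.coe_mulRight, LinearMap.toAddMonoidHom_coe,
    LinearMap.flip_apply, map_smul, smul_eq_mul] at h1 h2
  rw [h1, h2]
  refine congrArg S (funext fun a => funext fun b => funext fun c => ?_)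
  rw [show X a * X b * X c * v = X c * (X b * (X a * v)) by ring, fis_mul_X, fis_mul_X, fis_mul_X]

end Pool.Agent.P.MP_b91a16_ag.JB
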