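import Pool.Agent.P.MP_b91a16_ag.JB.Base

/-! The Cayley identity for the Pfaffian. -/

set_option linter.unusedSectionVars false

open MvPolynomial

namespace Pool.Agent.P.MP_b91a16_ag.JB

noncomputable section

open St Dt

namespace CayPf

theorem der_det_trace {B S ν : Type} [CommRing B] [CommRing S] [Algebra B S] [Fintype ν]
    [DecidableEq ν] (d : Derivation B S S) (A U V : Matrix ν ν S)
    (h : ∀ p q, d (A p q) = (U * A + A * V) p q) : d A.det = (U.trace + V.trace) * A.det := by
  have h1 : d A.det = (A.adjugate * (U * A + A * V)).trace := by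
    rw [der_det, Matrix.trace_mul_comm]
    refine Finset.sum_congr rfl fun i _ => ?_
    rw [← Matrix.cramer_transpose_apply, Matrix.cramer_eq_adjugate_mulVec,
      ← Matrix.adjugate_transpose]
    simp only [Matrix.mulVec, dotProduct, Matrix.transpose_apply, Matrix.diag_apply, h]
    rw [Matrix.mul_apply]
    exact Finset.sum_congr rfl fun j _ => mul_comm _ _
  rw [h1, Matrix.mul_add, Matrix.trace_add, ← Matrix.mul_assoc, Matrix.trace_mul_comm,
    ← Matrix.mul_assoc, Matrix.mul_adjugate, ← Matrix.mul_assoc, Matrix.adjugate_mul]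
  simp [mul_add, mul_comm]

theorem det_block {S : Type} [CommRing S] {m : ℕ} (A : Matrix (Fin (m + 2)) (Fin (m + 2)) S)
    (h0 : A 0 0 = 0) (h1 : ∀ c : Fin m, A 0 c.succ.succ = 0)
    (h2 : ∀ c : Fin m, A 1 c.succ.succ = 0) :
    A.det = -(A 0 1 * A 1 0) *
      (A.submatrix (fun i : Fin m => i.succ.succ) fun i : Fin m => i.succ.succ).det := by
  rw [Matrix.det_succ_row_zero, Fin.sum_univ_succ, Fin.sum_univ_succ, h0,
    Finset.sum_eq_zero fun c _ => by rw [h1, mul_zero, zero_mul],
    Matrix.det_succ_row_zero (A.submatrix Fin.succ (Fin.succ 0).succAbove), Fin.sum_univ_succ,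
    Finset.sum_eq_zero fun c _ => by
      rw [Matrix.submatrix_apply, Fin.succ_succAbove_succ, Fin.succAbove_zero, Fin.succ_zero_eq_one,
        h2, mul_zero, zero_mul]]
  have e : (A.submatrix Fin.succ (Fin.succ 0).succAbove).submatrix Fin.succ (0 : Fin (m + 1)).succAbove
      = A.submatrix (fun i : Fin m => i.succ.succ) fun i : Fin m => i.succ.succ := by
    ext i j
    simp only [Matrix.submatrix_apply, Fin.succAbove_zero, Fin.succ_succAbove_succ]
  rw [e]
  simp [mul_assoc]

variable {k : Type} [Field k] [CharZero k]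

/-- The index set of the variables. -/
abbrev Iv (N : ℕ) : Type := {p : Fin N × Fin N // p.1 < p.2}

variable (k) in
/-- The adjoint of the multiplication by an entry of the skew matrix. -/
def dd {N : ℕ} (i j : Fin N) : Derivation k (MvPolynomial (Iv N) k) (MvPolynomial (Iv N) k) :=
  if h : i < j then pderiv ⟨(i, j), h⟩ else if h : j < i then -pderiv ⟨(j, i), h⟩ else 0

theorem skew_lt {N : ℕ} {i j : Fin N} (h : i < j) : skew k N i j = X ⟨(i, j), h⟩ := by
  simp [skew, h]

theorem skew_gt {N : ℕ} {i j : Fin N} (h : j < i) : skew k N i j = -X ⟨(j, i), h⟩ := by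
  simp [skew, h, h.not_gt]

theorem skew_self {N : ℕ} (i : Fin N) : skew k N i i = 0 := by
  simp [skew]

theorem skew_swap {N : ℕ} (i j : Fin N) : skew k N i j = -skew k N j i := by
  rcases lt_trichotomy i j with h | rfl | h
  · rw [skew_lt h, skew_gt h, neg_neg]
  · simp [skew_self]
  · rw [skew_lt h, skew_gt h]

theorem dd_lt {N : ℕ} {i j : Fin N} (h : i < j) : dd k i j = pderiv ⟨(i, j), h⟩ := by
  simp [dd, h]

theorem dd_gt {N : ℕ} {i j : Fin N} (h : j < i) : dd k i j = -pderiv ⟨(j, i), h⟩ := by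
  simp [dd, h, h.not_gt]

theorem dd_self {N : ℕ} (i : Fin N) : dd k i i = 0 := by
  simp [dd]

theorem dd_swap {N : ℕ} (i j : Fin N) : dd k i j = -dd k j i := by
  rcases lt_trichotomy i j with h | rfl | h
  · rw [dd_lt h, dd_gt h, neg_neg]
  · simp [dd_self]
  · rw [dd_lt h, dd_gt h]

theorem dd_skew_lt {N : ℕ} {i j p q : Fin N} (h : i < j) (h' : p < q) :
    dd k i j (skew k N p q) = if p = i ∧ q = j then 1 else 0 := by
  rw [dd_lt h, skew_lt h', pderiv_X, Pi.single_apply]
  simp

theorem dd_skew_aux {N : ℕ} {i j : Fin N} (h : i < j) (p q : Fin N) :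
    dd k i j (skew k N p q) =
      (if p = i ∧ q = j then 1 else 0) - if p = j ∧ q = i then 1 else 0 := by
  rcases lt_trichotomy p q with h' | rfl | h'
  · rw [dd_skew_lt h h', if_neg (c := p = j ∧ q = i), sub_zero]
    rintro ⟨rfl, rfl⟩
    exact h.not_gt h'
  · rw [skew_self, map_zero, if_neg, if_neg, sub_zero]
    · rintro ⟨rfl, rfl⟩
      exact h.false
    · rintro ⟨rfl, rfl⟩
      exact h.false
  · rw [skew_swap, map_neg, dd_skew_lt h h', if_neg (c := p = i ∧ q = j), zero_sub]
    · simp only [and_comm]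
    · rintro ⟨rfl, rfl⟩
      exact h.not_gt h'

theorem dd_skew {N : ℕ} (i j p q : Fin N) :
    dd k i j (skew k N p q) =
      (if p = i ∧ q = j then 1 else 0) - if p = j ∧ q = i then 1 else 0 := by
  rcases lt_trichotomy i j with h | rfl | h
  · exact dd_skew_aux h p q
  · simp [dd_self]
  · rw [dd_swap, Derivation.neg_apply, dd_skew_aux h, neg_sub]

theorem fis_skew {N : ℕ} (i j : Fin N) (u v : MvPolynomial (Iv N) k) :
    fis u (skew k N i j * v) = fis (dd k i j u) v := by
  rcases lt_trichotomy i j with h | rfl | h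
  · rw [skew_lt h, dd_lt h, fis_mul_X]
  · simp [skew_self, dd_self]
  · rw [skew_gt h, dd_gt h, neg_mul, map_neg, fis_mul_X, Derivation.neg_apply, map_neg,
      LinearMap.neg_apply]

variable (k) in
/-- The infinitesimal action of the matrix unit. -/
def LL {N : ℕ} (a b : Fin N) : Derivation k (MvPolynomial (Iv N) k) (MvPolynomial (Iv N) k) :=
  ∑ j, skew k N b j • dd k a j

theorem LL_apply {N : ℕ} (a b : Fin N) (v : MvPolynomial (Iv N) k) :
    LL k a b v = ∑ j, skew k N b j * dd k a j v := by
  rw [LL, ← Derivation.coeFnAddMonoidHom_apply, map_sum, Finset.sum_apply]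
  rfl

theorem fis_LL {N : ℕ} (a b : Fin N) (u v : MvPolynomial (Iv N) k) :
    fis u (LL k a b v) = fis (LL k b a u) v := by
  rw [LL_apply, LL_apply, map_sum, map_sum, LinearMap.sum_apply]
  refine Finset.sum_congr rfl fun j _ => ?_
  rw [fis_skew, fis_comm _ v, fis_skew, fis_comm]

theorem LL_det {N : ℕ} (a b : Fin N) :
    LL k a b (skew k N).det = (if a = b then 2 else 0) * (skew k N).det := by
  rw [der_det_trace _ _ (Matrix.single a b 1) (Matrix.single b a 1) fun p q => ?_]
  · congr 1
    split_ifs with h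
    · subst h
      simp [one_add_one_eq_two]
    · simp [Matrix.trace_single_eq_of_ne _ _ _ h, Matrix.trace_single_eq_of_ne _ _ _ (Ne.symm h)]
  · rw [LL_apply]
    simp only [dd_skew, mul_sub, Finset.sum_sub_distrib, Matrix.add_apply]
    rw [sub_eq_add_neg]
    congr 1
    · by_cases h : p = a
      · subst h
        simp
      · simp [h, Matrix.single_mul_apply_of_ne _ _ _ _ _ h]
    · by_cases h : q = a
      · subst h
        simp [← skew_swap]
      · simp [h, Matrix.mul_single_apply_of_ne _ _ _ _ _ h]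

theorem LL_root {N : ℕ} {P : MvPolynomial (Iv N) k} (h : P ^ 2 = (skew k N).det) (h0 : P ≠ 0)
    (a b : Fin N) : LL k a b P = if a = b then P else 0 := by
  have h1 := LL_det (k := k) a b
  rw [← h, Derivation.leibniz_pow] at h1
  have h2 : (2 : MvPolynomial (Iv N) k) * P ≠ 0 := mul_ne_zero two_ne_zero h0
  refine mul_left_cancel₀ h2 ?_
  simp only [Nat.add_one_sub_one, pow_one, smul_eq_mul, nsmul_eq_mul, Nat.cast_ofNat] at h1
  rw [mul_assoc, h1]
  split_ifs <;> ring

theorem fis_pow_LL {N : ℕ} {P : MvPolynomial (Iv N) k} (h : P ^ 2 = (skew k N).det) (h0 : P ≠ 0)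
    {a b : Fin N} (hab : a ≠ b) (j : ℕ) (v : MvPolynomial (Iv N) k) :
    fis (P ^ j) (LL k a b v) = 0 := by
  rw [fis_LL, Derivation.leibniz_pow, LL_root h h0, if_neg hab.symm]
  simp

variable {m : ℕ}

theorem lt0 (c : Fin m) : (0 : Fin (m + 2)) < c.succ.succ := Fin.succ_pos _

theorem lt1 (c : Fin m) : (1 : Fin (m + 2)) < c.succ.succ := Fin.one_lt_succ_succ c

variable (m) in
/-- The corner variable. -/
def va : Iv (m + 2) := ⟨(0, 1), Fin.zero_lt_one⟩

variable (m) in
/-- The other variables of the first two rows. -/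
def vr : Fin m ⊕ Fin m ↪ Iv (m + 2) :=
  ⟨Sum.elim (fun c => ⟨(0, c.succ.succ), lt0 c⟩) fun c => ⟨(1, c.succ.succ), lt1 c⟩, by
    rintro (c | c) (c' | c') h <;> simp_all⟩

variable (m) in
/-- The variables of the lower block. -/
def ve : Iv m ↪ Iv (m + 2) :=
  ⟨fun p => ⟨(p.1.1.succ.succ, p.1.2.succ.succ), by simpa using p.2⟩, by
    rintro ⟨⟨p, q⟩, h⟩ ⟨⟨p', q'⟩, h'⟩ e
    simpa using e⟩

theorem vr_inl (c : Fin m) : vr m (.inl c) = ⟨(0, c.succ.succ), lt0 c⟩ := rfl

theorem vr_inr (c : Fin m) : vr m (.inr c) = ⟨(1, c.succ.succ), lt1 c⟩ := rfl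

theorem va_not_mem : va m ∉ Finset.univ.map (vr m) := by
  simp only [Finset.mem_map, Finset.mem_univ, true_and, not_exists]
  rintro (c | c) h
  · exact (lt1 c).ne' (congrArg (·.1.2) h)
  · exact zero_ne_one (congrArg (·.1.1) h).symm

theorem ve_ne (i : Iv m) : ve m i ≠ va m ∧ ve m i ∉ Finset.univ.map (vr m) := by
  refine ⟨fun h => (lt0 _).ne' (congrArg (·.1.1) h), ?_⟩
  simp only [Finset.mem_map, Finset.mem_univ, true_and, not_exists]
  rintro (c | c) h
  · exact (lt0 _).ne (congrArg (·.1.1) h)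
  · exact (lt1 _).ne (congrArg (·.1.1) h)

theorem cover (j : Iv (m + 2)) : j = va m ∨ j ∈ Finset.univ.map (vr m) ∨ ∃ i, ve m i = j := by
  obtain ⟨⟨p, q⟩, h⟩ := j
  induction q using Fin.cases with
  | zero => exact absurd h (Fin.not_lt_zero _)
  | succ q =>
    induction p using Fin.cases with
    | zero =>
      induction q using Fin.cases with
      | zero => exact .inl rfl
      | succ q => exact .inr (.inl (Finset.mem_map.2 ⟨.inl q, Finset.mem_univ _, rfl⟩))
    | succ p =>
      have h' : p < q := by simpa using h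
      induction q using Fin.cases with
      | zero => exact absurd h' (Fin.not_lt_zero _)
      | succ q =>
        induction p using Fin.cases with
        | zero => exact .inr (.inl (Finset.mem_map.2 ⟨.inr q, Finset.mem_univ _, rfl⟩))
        | succ p => exact .inr (.inr ⟨⟨(p, q), by simpa using h'⟩, rfl⟩)

theorem skew_ve (i j : Fin m) :
    skew k (m + 2) i.succ.succ j.succ.succ = rename (ve m) (skew k m i j) := by
  rcases lt_trichotomy i j with h | rfl | h
  · rw [skew_lt h, skew_lt (by simpa using h), rename_X]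
    rfl
  · simp [skew_self]
  · rw [skew_gt h, skew_gt (by simpa using h), map_neg, rename_X]
    rfl

theorem LL_zero (b : Fin (m + 2)) (v : MvPolynomial (Iv (m + 2)) k) :
    LL k 0 b v = skew k _ b 1 * pderiv (va m) v +
      ∑ c : Fin m, skew k _ b c.succ.succ * pderiv (vr m (.inl c)) v := by
  rw [LL_apply, Fin.sum_univ_succ, Fin.sum_univ_succ, dd_self, Fin.succ_zero_eq_one,
    dd_lt Fin.zero_lt_one]
  simp only [Derivation.zero_apply, mul_zero, zero_add, dd_lt (lt0 _)]
  rfl

theorem LL_one (b : Fin (m + 2)) (v : MvPolynomial (Iv (m + 2)) k) :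
    LL k 1 b v = -skew k _ b 0 * pderiv (va m) v +
      ∑ c : Fin m, skew k _ b c.succ.succ * pderiv (vr m (.inr c)) v := by
  rw [LL_apply, Fin.sum_univ_succ, Fin.sum_univ_succ, Fin.succ_zero_eq_one, dd_self,
    dd_gt Fin.zero_lt_one]
  simp only [Derivation.zero_apply, mul_zero, zero_add, dd_lt (lt1 _), Derivation.neg_apply,
    mul_neg, neg_mul]
  rfl

variable (k m) in
/-- The restriction to the block diagonal matrices. -/
def res : MvPolynomial (Iv (m + 2)) k →ₐ[k] MvPolynomial (Iv (m + 2)) k :=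
  aeval fun j => if j ∈ Finset.univ.map (vr m) then 0 else X j

theorem res_det : res k m (skew k (m + 2)).det = X (va m) ^ 2 * rename (ve m) (skew k m).det := by
  have h1 : res k m (X (va m)) = X (va m) := by rw [res, aeval_X, if_neg va_not_mem]
  have h2 : ∀ c, res k m (X (vr m c)) = 0 := fun c => by
    rw [res, aeval_X, if_pos (Finset.mem_map_of_mem _ (Finset.mem_univ _))]
  have h3 : ∀ u, res k m (rename (ve m) u) = rename (ve m) u := fun u => by
    rw [res, aeval_rename, rename_eq_aeval]
    exact congrArg (aeval · u) (funext fun i => if_neg (ve_ne i).2)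
  rw [AlgHom.map_det, AlgHom.map_det, det_block]
  · simp only [AlgHom.mapMatrix_apply, Matrix.map_apply]
    rw [skew_lt Fin.zero_lt_one, skew_gt Fin.zero_lt_one, map_neg]
    congr 1
    · change -(res k m (X (va m)) * -res k m (X (va m))) = _
      rw [h1]
      ring
    · congr 1
      ext1 i j
      simp only [Matrix.submatrix_apply, Matrix.map_apply, skew_ve, h3]
  · simp [skew_self]
  · intro c
    simp only [AlgHom.mapMatrix_apply, Matrix.map_apply, skew_lt (lt0 c)]
    exact h2 (.inl c)
  · intro c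
    simp only [AlgHom.mapMatrix_apply, Matrix.map_apply, skew_lt (lt1 c)]
    exact h2 (.inr c)

theorem det_ne (n : ℕ) : (skew k (2 * n)).det ≠ 0 := by
  induction n with
  | zero => simp
  | succ n ih =>
    intro h
    have h1 := res_det (k := k) (m := 2 * n)
    rw [show (skew k (2 * n + 2)).det = 0 from h, map_zero] at h1
    exact mul_ne_zero (pow_ne_zero _ (X_ne_zero _))
      (fun e => ih (rename_injective _ (ve _).injective (e.trans (map_zero _).symm))) h1.symm

theorem exists_res {P : MvPolynomial (Iv (m + 2)) k} (h : P ^ 2 = (skew k (m + 2)).det) :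
    ∃ P' : MvPolynomial (Iv m) k, P' ^ 2 = (skew k m).det ∧
      res k m P = X (va m) * rename (ve m) P' := by
  let ψ : MvPolynomial (Iv (m + 2)) k →ₐ[k] MvPolynomial (Iv m) k :=
    aeval (Function.extend (ve m) X 1)
  have h1 : ψ (X (va m)) = 1 := by
    rw [aeval_X, Function.extend_apply' _ _ _ fun ⟨i, e⟩ => (ve_ne i).1 e]
    rfl
  have h2 : ∀ u, ψ (rename (ve m) u) = u := fun u => by
    rw [aeval_rename, Function.extend_comp (ve m).injective, aeval_X_left_apply]
  have h3 : res k m P ^ 2 = X (va m) ^ 2 * rename (ve m) (skew k m).det := by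
    rw [← map_pow, h, res_det]
  have h4 : ψ (res k m P) ^ 2 = (skew k m).det := by
    rw [← map_pow, h3, map_mul, map_pow, h1, h2, one_pow, one_mul]
  rw [← h4, map_pow, ← mul_pow] at h3
  rcases sq_eq_sq_iff_eq_or_eq_neg.1 h3 with e | e
  · exact ⟨_, h4, e⟩
  · exact ⟨-ψ (res k m P), by rw [neg_sq, h4], by rw [map_neg, mul_neg]; exact e⟩

theorem step (h : PeirceStmt k) {P : MvPolynomial (Iv (m + 2)) k}
    (hP : P ^ 2 = (skew k (m + 2)).det) (h0 : P ≠ 0) {b : ℕ → k}
    (ih : ∀ P' : MvPolynomial (Iv m) k, P' ^ 2 = (skew k m).det → CayR (fun _ => 1) P' b) :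
    CayR (fun _ => 1) P fun j => (j + m + 1) * b j := by
  obtain ⟨P', h1, h2⟩ := exists_res hP
  have hs : ∀ F : Iv (m + 2) → MvPolynomial (Iv (m + 2)) k, ∑ σ ∈ Finset.univ.map (vr m), F σ =
      ∑ c, F (vr m (.inl c)) + ∑ c, F (vr m (.inr c)) := fun F => by
    rw [Finset.sum_map, Fintype.sum_sum_type]
  have h3 := h _ _ (fun _ => 1) (va m) (Finset.univ.map (vr m)) (ve m) P P' b va_not_mem ve_ne
    cover ?_ h2 ?_ (ih P' h1)
  · intro j v
    rw [h3 j v]
    congr 2
    simp only [Finset.card_map, Finset.card_univ, Fintype.card_sum, Fintype.card_fin]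
    push_cast
    ring
  · have e0 := LL_root hP h0 0 0
    have e1 := LL_root hP h0 1 1
    rw [if_pos rfl, LL_zero, skew_lt Fin.zero_lt_one] at e0
    rw [if_pos rfl, LL_one, skew_gt Fin.zero_lt_one, neg_neg] at e1
    simp only [skew_lt (lt0 _)] at e0
    simp only [skew_lt (lt1 _)] at e1
    rw [hs, two_mul, two_mul, add_add_add_comm]
    exact congrArg₂ (· + ·) e0 e1
  · intro ρ hρ
    obtain ⟨c | c, -, rfl⟩ := Finset.mem_map.1 hρ
    · have e : ∀ v, C (1 : k) * X (vr m (.inl c)) * pderiv (va m) v +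
          ∑ σ ∈ Finset.univ.map (vr m), rename (ve m) (Function.extend (vr m)
            (Sum.elim 0 (skew k m c)) 0 σ) * pderiv σ v = LL k 1 c.succ.succ v := fun v => by
        rw [hs, LL_one, skew_gt (lt0 c), neg_neg]
        simp only [(vr m).injective.extend_apply, Sum.elim_inl, Sum.elim_inr, Pi.zero_apply,
          map_zero, zero_mul, Finset.sum_const_zero, zero_add, map_one, one_mul, skew_ve]
        rfl
      refine ⟨1, Function.extend (vr m) (Sum.elim 0 (skew k m c)) 0, one_ne_zero, ?_,
        fun j v => ?_⟩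
      · rw [e, LL_root hP h0, if_neg (lt1 c).ne]
      · rw [e, fw_eq_fis, fis_pow_LL hP h0 (lt1 c).ne]
    · have e : ∀ v, C (-1 : k) * X (vr m (.inr c)) * pderiv (va m) v +
          ∑ σ ∈ Finset.univ.map (vr m), rename (ve m) (Function.extend (vr m)
            (Sum.elim (skew k m c) 0) 0 σ) * pderiv σ v = LL k 0 c.succ.succ v := fun v => by
        rw [hs, LL_zero, skew_gt (lt1 c)]
        simp only [(vr m).injective.extend_apply, Sum.elim_inl, Sum.elim_inr, Pi.zero_apply,
          map_zero, zero_mul, Finset.sum_const_zero, add_zero, map_one, map_neg, neg_mul, one_mul,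
          skew_ve]
        rfl
      refine ⟨-1, Function.extend (vr m) (Sum.elim (skew k m c) 0) 0, neg_ne_zero.2 one_ne_zero,
        ?_, fun j v => ?_⟩
      · rw [e, LL_root hP h0, if_neg (lt0 c).ne]
      · rw [e, fw_eq_fis, fis_pow_LL hP h0 (lt0 c).ne]

end CayPf

theorem cayPf {k : Type} [Field k] [CharZero k] (h : PeirceStmt k) : CayPfStmt k := by
  intro n
  induction n with
  | zero =>
    intro P hP j v
    replace hP : P ^ 2 = 1 := hP.trans Matrix.det_fin_zero
    rcases sq_eq_one_iff.1 hP with rfl | rfl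
    · simp
    · simp [pow_succ]
  | succ n ih =>
    intro P hP j v
    have h0 : P ≠ 0 := fun e => CayPf.det_ne (k := k) (n + 1) (by rw [← hP, e]; simp)
    refine (CayPf.step (m := 2 * n) h hP h0 ih j v).trans ?_
    congr 1
    beta_reduce
    rw [Finset.prod_range_succ]
    push_cast
    ring

end

end Pool.Agent.P.MP_b91a16_ag.JB
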