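import Pool.Agent.P.MP_b91a16_ag.JB.Base

/-! The Cayley identity for the symmetric determinant. -/

open MvPolynomial

namespace Pool.Agent.P.MP_b91a16_ag.JB

noncomputable section

open St Dt

variable {k : Type} [Field k]

namespace CaySym

/-- The weights. -/
def ww (k : Type) [Field k] (n : ℕ) : Sym2 (Fin n) → k := fun s => if s.IsDiag then 2 else 1

/-- The polarisation operators. -/
def LL (k : Type) [Field k] {n : ℕ} (a b : Fin n) :
    Derivation k (MvPolynomial (Sym2 (Fin n)) k) (MvPolynomial (Sym2 (Fin n)) k) :=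
  ∑ j, (C (ww k n s(a, j)) * X s(b, j) : MvPolynomial (Sym2 (Fin n)) k) • pderiv s(a, j)

theorem LL_apply {n : ℕ} (a b : Fin n) (v : MvPolynomial (Sym2 (Fin n)) k) :
    LL k a b v = ∑ j, C (ww k n s(a, j)) * X s(b, j) * pderiv s(a, j) v := by
  have := congrFun (map_sum Derivation.coeFnAddMonoidHom (fun j => (C (ww k n s(a, j)) *
    X s(b, j) : MvPolynomial (Sym2 (Fin n)) k) • pderiv (R := k) s(a, j)) Finset.univ) v
  rw [Finset.sum_apply] at this
  exact this

theorem LL_X {n : ℕ} (a b p q : Fin n) : LL k a b (X s(p, q)) =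
    (if p = a then X s(b, q) else 0) + if q = a then X s(p, b) else 0 := by
  rw [LL_apply]
  by_cases hp : p = a
  · subst hp
    rw [Finset.sum_eq_single q (fun j _ hj => by
      rw [pderiv_X_of_ne (by
        rw [Ne, Sym2.congr_right]
        exact hj.symm), mul_zero]) (by simp)]
    by_cases hq : q = p
    · subst hq
      simp [ww, Sym2.eq_swap (a := b), ← one_add_one_eq_two, add_mul]
    · simp [ww, hq, Ne.symm hq]
  · by_cases hq : q = a
    · subst hq
      rw [Finset.sum_eq_single p (fun j _ hj => by simp [Ne.symm hj, hp])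
        (by simp)]
      simp [ww, hp, Sym2.eq_swap (a := q), Sym2.eq_swap (a := b)]
    · simp [hp, hq]

theorem det_row {S ν : Type} [CommRing S] [Fintype ν] [DecidableEq ν] (A : Matrix ν ν S) (i : ν)
    (v : ν → S) : (A.updateRow i v).det = ∑ j, v j * A.adjugate j i := by
  rw [← Matrix.cramer_transpose_apply, Matrix.cramer_eq_adjugate_mulVec,
    ← Matrix.adjugate_transpose]
  simp [Matrix.mulVec, dotProduct, mul_comm]

theorem LL_det {n : ℕ} (a b : Fin n) :
    LL k a b (symD k n) = if a = b then 2 * symD k n else 0 := by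
  set A : Matrix (Fin n) (Fin n) (MvPolynomial (Sym2 (Fin n)) k) :=
    Matrix.of fun p q => X s(p, q) with hA
  have h1 := congrFun (congrFun (Matrix.mul_adjugate A) b) a
  have h2 := congrFun (congrFun (Matrix.adjugate_mul A) a) b
  simp only [Matrix.mul_apply, Matrix.smul_apply, Matrix.one_apply, smul_eq_mul] at h1 h2
  rw [symD, ← hA, der_det]
  simp only [det_row]
  have e : ∀ i j, LL k a b (A i j) = (if i = a then A b j else 0) + if j = a then A i b else 0 :=
    fun i j => LL_X a b i j
  simp only [e, add_mul, Finset.sum_add_distrib, ite_mul, zero_mul, Finset.sum_ite_eq',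
    Finset.mem_univ, if_true]
  rw [Finset.sum_comm]
  simp only [Finset.sum_ite_eq', Finset.mem_univ, if_true]
  rw [h1, Finset.sum_congr rfl fun i _ => mul_comm (A i b) (A.adjugate a i), h2]
  by_cases h : a = b
  · simp [h, two_mul]
  · simp [h, Ne.symm h]

theorem LL_adj {n : ℕ} (a b : Fin n) (u v : MvPolynomial (Sym2 (Fin n)) k) :
    fw (ww k n) u (LL k a b v) = fw (ww k n) (LL k b a u) v := by
  rw [LL_apply, LL_apply, map_sum, map_sum, LinearMap.sum_apply]
  refine Finset.sum_congr rfl fun j _ => ?_
  rw [mul_assoc, mul_assoc, C_mul', C_mul', map_smul, map_smul, LinearMap.smul_apply, fw_mul_X,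
    fw_X_mul, smul_eq_mul, smul_eq_mul]
  ring

/-- The variables of the first row. -/
def row (n : ℕ) : Fin n ↪ Sym2 (Fin (n + 1)) :=
  ⟨fun c => s(0, c.succ), fun c c' h => by simpa [Fin.succ_ne_zero] using h⟩

/-- The variables of the lower block. -/
def low (n : ℕ) : Sym2 (Fin n) ↪ Sym2 (Fin (n + 1)) :=
  ⟨Sym2.map Fin.succ, Sym2.map.injective (Fin.succ_injective n)⟩

theorem row_apply {n : ℕ} (c : Fin n) : row n c = s(0, c.succ) := rfl

theorem low_apply {n : ℕ} (p q : Fin n) : low n s(p, q) = s(p.succ, q.succ) := rfl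

theorem mem_row {n : ℕ} (c : Fin n) : s(0, c.succ) ∈ Finset.univ.map (row n) :=
  Finset.mem_map_of_mem _ (Finset.mem_univ c)

theorem zero_row {n : ℕ} : s(0, 0) ∉ Finset.univ.map (row n) := by
  simp [row_apply, Fin.succ_ne_zero]

theorem low_row {n : ℕ} (p q : Fin n) : s(p.succ, q.succ) ∉ Finset.univ.map (row n) := by
  simp [row_apply, (Fin.succ_ne_zero _).symm]

theorem LL_zero {n : ℕ} (b : Fin (n + 1)) (v : MvPolynomial (Sym2 (Fin (n + 1))) k) :
    LL k 0 b v = C 2 * X s(b, 0) * pderiv s(0, 0) v +
      ∑ j : Fin n, X s(b, j.succ) * pderiv s(0, j.succ) v := by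
  rw [LL_apply, Fin.sum_univ_succ]
  simp [ww, (Fin.succ_ne_zero _).symm]

theorem kill {n : ℕ} : aeval (fun j => if j ∈ Finset.univ.map (row n) then 0 else X j)
    (symD k (n + 1)) = (X s(0, 0) * rename (low n) (symD k n) : MvPolynomial _ k) := by
  rw [symD, symD, AlgHom.map_det, AlgHom.map_det, Matrix.det_succ_row_zero, Fin.sum_univ_succ,
    Finset.sum_eq_zero fun c _ => by
      rw [AlgHom.mapMatrix_apply, Matrix.map_apply, Matrix.of_apply, aeval_X, if_pos (mem_row c),
        mul_zero, zero_mul]]
  rw [AlgHom.mapMatrix_apply, Matrix.map_apply, Matrix.of_apply, aeval_X, if_neg zero_row,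
    add_zero, Fin.val_zero, pow_zero, one_mul]
  congr 2
  ext p q : 1
  rw [Matrix.submatrix_apply, Fin.succAbove_zero, Matrix.map_apply, Matrix.of_apply, aeval_X,
    if_neg (low_row p q), AlgHom.mapMatrix_apply, Matrix.map_apply, Matrix.of_apply, rename_X,
    low_apply]

end CaySym

open CaySym

theorem caySym [CharZero k] (h : PeirceStmt k) : CaySymStmt k := by
  intro n
  change CayR (ww k n) _ _
  induction n with
  | zero =>
    intro j v
    simp [symD]
  | succ n ih =>
    have hw : ww k (n + 1) ∘ low n = ww k n := by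
      funext s
      induction s using Sym2.ind with
      | h p q => simp [ww, low_apply]
    have key := h _ _ (ww k (n + 1)) s(0, 0) (Finset.univ.map (row n)) (low n) (symD k (n + 1))
      (symD k n) _ zero_row (fun i => ?_) (fun j => ?_) ?_ kill (fun ρ hρ => ?_) (hw ▸ ih)
    · convert key using 2 with j
      rw [Finset.prod_range_succ, Finset.card_map, Finset.card_fin]
      simp only [ww, Sym2.mk_isDiag_iff, if_true]
      field_simp
      ring
    · induction i using Sym2.ind with
      | h p q => exact ⟨by simp [low_apply, Fin.succ_ne_zero], low_row p q⟩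
    · induction j using Sym2.ind with
      | h p q =>
        refine p.cases (q.cases (Or.inl rfl) fun q => Or.inr (Or.inl (mem_row q))) fun p =>
          q.cases (Or.inr (Or.inl ?_)) fun q => Or.inr (Or.inr ⟨s(p, q), rfl⟩)
        rw [Sym2.eq_swap]
        exact mem_row p
    · have := LL_det (k := k) (0 : Fin (n + 1)) 0
      rw [LL_zero, if_pos rfl] at this
      rw [Finset.sum_map, ← this, mul_assoc, map_ofNat]
      rfl
    · obtain ⟨c, -, rfl⟩ := Finset.mem_map.1 hρ
      have e : ∀ v : MvPolynomial (Sym2 (Fin (n + 1))) k,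
          C 2 * X (row n c) * pderiv s(0, 0) v + ∑ σ ∈ Finset.univ.map (row n),
            rename (low n) (∑ j, if σ = row n j then X s(c, j) else 0) * pderiv σ v =
          LL k 0 c.succ v := fun v => by
        rw [LL_zero, Finset.sum_map, row_apply, Sym2.eq_swap (a := c.succ)]
        congr 1
        refine Finset.sum_congr rfl fun j _ => ?_
        simp only [EmbeddingLike.apply_eq_iff_eq, Finset.sum_ite_eq, Finset.mem_univ, if_true,
          rename_X, low_apply]
        rfl
      refine ⟨2, fun σ => ∑ j, if σ = row n j then X s(c, j) else 0, two_ne_zero, ?_,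
        fun j v => ?_⟩
      · rw [e, LL_det, if_neg (Fin.succ_ne_zero c).symm]
      · rw [e, LL_adj, Derivation.leibniz_pow, LL_det, if_neg (Fin.succ_ne_zero c)]
        simp

end

end Pool.Agent.P.MP_b91a16_ag.JB
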