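import Pool.Agent.P.MP_b91a16_ag.JB.Calc

/-! The law of the Pfaffian. -/

set_option linter.unusedSectionVars false

open MvPolynomial

namespace Pool.Agent.P.MP_b91a16_ag.JB

noncomputable section

open St Dt

namespace LawPf

/-- The variables of a skew-symmetric matrix. -/
abbrev Sk (n : ℕ) : Type := {p : Fin n × Fin n // p.1 < p.2}

variable {k S S' : Type} [Field k] [CommRing S] [CommRing S'] {n m : ℕ}

/-- The skew-symmetric matrix with given entries. -/
def sk (γ : Sk n → S) : Matrix (Fin n) (Fin n) S :=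
  Matrix.of fun p q => if h : p < q then γ ⟨(p, q), h⟩ else if h : q < p then -γ ⟨(q, p), h⟩ else 0

/-- Skew-symmetric matrices. -/
def IsSk (A : Matrix (Fin n) (Fin n) S) : Prop := (∀ i j, A j i = -A i j) ∧ ∀ i, A i i = 0

theorem sk_isSk (γ : Sk n → S) : IsSk (sk γ) := by
  refine ⟨fun i j => ?_, fun i => by simp [sk]⟩
  rcases lt_trichotomy i j with h | rfl | h
  · simp [sk, h, h.not_gt]
  · simp [sk]
  · simp [sk, h, h.not_gt]

theorem sk_apply (γ : Sk n → S) (j : Sk n) : sk γ j.1.1 j.1.2 = γ j := by simp [sk, j.2]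

theorem sk_of {A : Matrix (Fin n) (Fin n) S} (hA : IsSk A) : (sk fun j => A j.1.1 j.1.2) = A := by
  ext i j
  rcases lt_trichotomy i j with h | rfl | h
  · simp [sk, h]
  · simp [sk, hA.2]
  · simp [sk, h, h.not_gt, hA.1 j i]

theorem map_sk {F : Type} [FunLike F S S'] [RingHomClass F S S'] (f : F) (γ : Sk n → S)
    (i j : Fin n) : f (sk γ i j) = sk (fun p => f (γ p)) i j := by
  simp only [sk, Matrix.of_apply]
  split_ifs <;> simp

theorem sq_eq [Algebra k S] {P : MvPolynomial (Sk n) k} (hP : P ^ 2 = (skew k n).det)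
    (γ : Sk n → S) : aeval γ P ^ 2 = (sk γ).det := by
  rw [← map_pow, hP, AlgHom.map_det]
  congr 1
  ext i j
  exact (map_sk (aeval (R := k) γ) X i j).trans (by simp)

theorem det_sc (s : S) (γ : Sk (m + 1) → S) :
    (sk fun j => if j.1.1 = 0 then s * γ j else γ j).det = s ^ 2 * (sk γ).det := by
  have h1 := Matrix.det_mul_row (fun i : Fin (m + 1) => if i = 0 then s else 1) (sk γ)
  have h2 := Matrix.det_mul_column (fun i : Fin (m + 1) => if i = 0 then s else 1)
    (Matrix.of fun i j => (if j = 0 then s else 1) * sk γ i j)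
  rw [h1, Finset.prod_ite_eq', if_pos (Finset.mem_univ _), ← mul_assoc, ← sq] at h2
  rw [← h2]
  congr 1
  ext i j
  rcases lt_trichotomy i j with h | rfl | h
  · simp [sk, h, (Fin.pos_iff_ne_zero.1 ((Fin.zero_le i).trans_lt h))]
  · simp [sk]
  · simp [sk, h, h.not_gt, (Fin.pos_iff_ne_zero.1 ((Fin.zero_le j).trans_lt h))]

/-- A square root of the determinant is linear in the first row. -/
theorem sc_row [CharZero k] [Algebra k S] {P : MvPolynomial (Sk (m + 1)) k}
    (hP : P ^ 2 = (skew k (m + 1)).det) (s : S) (γ : Sk (m + 1) → S) :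
    aeval (fun j : Sk (m + 1) => if j.1.1 = 0 then s * γ j else γ j) P = s * aeval γ P := by
  have h : aeval (fun j : Sk (m + 1) => if j.1.1 = 0 then X none * X (some j) else X (some j)) P ^ 2
      = (X none * aeval (fun j => (X (some j) : MvPolynomial (Option (Sk (m + 1))) k)) P) ^ 2 := by
    rw [sq_eq hP, det_sc, mul_pow, sq_eq hP]
  have key : ∀ (S : Type) [CommRing S] [Algebra k S] (s : S) (γ : Sk (m + 1) → S),
      aeval (fun o : Option (Sk (m + 1)) => o.elim s γ) (aeval (fun j : Sk (m + 1) =>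
        if j.1.1 = 0 then X none * X (some j) else
          (X (some j) : MvPolynomial (Option (Sk (m + 1))) k)) P) =
        aeval (fun j : Sk (m + 1) => if j.1.1 = 0 then s * γ j else γ j) P ∧
      aeval (fun o : Option (Sk (m + 1)) => o.elim s γ) (X none * aeval (fun j =>
        (X (some j) : MvPolynomial (Option (Sk (m + 1))) k)) P) = s * aeval γ P :=
    fun S _ _ s γ => ⟨algHom_aeval _ _ _ (fun j => by split_ifs <;> simp) P, by
      rw [map_mul, algHom_aeval _ _ γ (fun j => by simp) P]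
      simp⟩
  rcases sq_eq_sq_iff_eq_or_eq_neg.1 h with h | h
  · rw [← (key S s γ).1, h, (key S s γ).2]
  · have h1 := (key (MvPolynomial (Sk (m + 1)) k) 1 X).1
    rw [h, map_neg, (key (MvPolynomial (Sk (m + 1)) k) 1 X).2] at h1
    simp only [one_mul, ite_self, aeval_X_left, AlgHom.coe_id, id_eq] at h1
    obtain rfl : P = 0 := neg_eq_self.1 h1
    simp

theorem det_piv (A : Matrix (Fin (m + 2)) (Fin (m + 2)) S) (c : Fin (m + 1))
    (h1 : ∀ j ≠ 0, A c.succ j = 0) (h2 : ∀ i ≠ 0, A i c.succ = 0) :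
    A.det = -(A 0 c.succ * A c.succ 0) *
      (A.submatrix (fun i => (c.succAbove i).succ) fun i => (c.succAbove i).succ).det := by
  rw [Matrix.det_succ_column A c.succ, Fin.sum_univ_succ, Matrix.det_succ_row _ c,
    Fin.sum_univ_succ]
  simp only [h2 _ (Fin.succ_ne_zero _), h1 _ (Fin.succ_ne_zero _), mul_zero, zero_mul,
    Finset.sum_const_zero, add_zero, Matrix.submatrix_apply, Fin.succAbove_zero,
    Fin.succ_succAbove_zero, Fin.succ_succAbove_succ, Matrix.submatrix_submatrix, Fin.val_zero,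
    zero_add, Fin.val_succ, Function.comp_def]
  have h3 : (-1 : S) ^ (c : ℕ) * (-1) ^ (c : ℕ) = 1 := by rw [← mul_pow]; simp
  linear_combination (-(A 0 c.succ * A c.succ 0) * (A.submatrix
    (fun i => (c.succAbove i).succ) fun i => (c.succAbove i).succ).det) * h3

/-- The first row. -/
def row (m : ℕ) : Fin (m + 1) ↪ Sk (m + 2) :=
  ⟨fun c => ⟨(0, c.succ), c.succ_pos⟩, fun _ _ h => by simpa using h⟩

/-- The variables outside the rows `0` and `c + 1`. -/
def emb (c : Fin (m + 1)) : Sk m ↪ Sk (m + 2) :=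
  ⟨fun j => ⟨((c.succAbove j.1.1).succ, (c.succAbove j.1.2).succ), by simpa using j.2⟩,
    fun _ _ h => by simpa [Subtype.ext_iff, Prod.ext_iff] using h⟩

theorem emb_ne (c c' : Fin (m + 1)) (j : Sk m) : emb c j ≠ row m c' := by
  simp [emb, row, Subtype.ext_iff]

theorem sk_emb (c : Fin (m + 1)) (γ : Sk (m + 2) → S) : (sk fun j => γ (emb c j)) =
    (sk γ).submatrix (fun i => (c.succAbove i).succ) fun i => (c.succAbove i).succ := by
  ext i j
  simp [sk, emb]

/-- The matrix with the row and the column `c` cleared. -/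
def clr (c : Fin (m + 1)) (A : Matrix (Fin (m + 1)) (Fin (m + 1)) S) :
    Matrix (Fin (m + 1)) (Fin (m + 1)) S :=
  Matrix.of fun i j => if i ≠ 0 ∧ j ≠ 0 ∧ (i = c ∨ j = c) then 0 else A i j

/-- The pivot substitution. -/
def piv (c : Fin (m + 1)) (A : Matrix (Fin (m + 1)) (Fin (m + 1)) S) :
    Matrix (Fin (m + 1)) (Fin (m + 1)) S :=
  Matrix.of fun i j => clr c A i j + (if j = 0 then 0 else A j c) * A i 0 +
    (if i = 0 then 0 else A i c) * A 0 j

variable {c : Fin (m + 1)} {A B : Matrix (Fin (m + 1)) (Fin (m + 1)) S}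

theorem piv_isSk (hA : IsSk A) : IsSk (piv c A) := by
  refine ⟨fun i j => ?_, fun i => ?_⟩
  · have h1 : (j ≠ 0 ∧ i ≠ 0 ∧ (j = c ∨ i = c)) ↔ (i ≠ 0 ∧ j ≠ 0 ∧ (i = c ∨ j = c)) := by tauto
    simp only [piv, clr, Matrix.of_apply, hA.1 0 i, hA.1 0 j, hA.1 i j, h1]
    split_ifs <;> ring
  · simp only [piv, clr, Matrix.of_apply, hA.1 0 i, hA.2]
    split_ifs <;> ring

theorem det_piv_eq (hA : IsSk A) : (piv c A).det = (clr c A).det := by
  rw [Matrix.det_eq_of_forall_row_eq_smul_add_const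
    (B := Matrix.of fun i j => clr c A i j + (if j = 0 then 0 else A j c) * A i 0)
    (fun i => if i = 0 then 0 else A i c) 0 (by simp) (fun i j => by simp [piv, clr, hA.2]),
    ← Matrix.det_transpose, ← Matrix.det_transpose (clr c A)]
  exact Matrix.det_eq_of_forall_row_eq_smul_add_const (fun i => if i = 0 then 0 else A i c) 0
    (by simp) fun i j => by simp [clr]

theorem piv_zero (hA : IsSk A) (j : Fin (m + 1)) : piv c A 0 j = A 0 j := by
  simp [piv, clr, hA.2]

theorem piv_inj (hA : IsSk A) (hB : IsSk B) (hc : c ≠ 0) (hu : IsUnit (A 0 c))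
    (e : piv c B = piv c A) : B = A := by
  have h0 : ∀ j, B 0 j = A 0 j := fun j => by rw [← piv_zero (c := c) hB, e, piv_zero hA]
  have h0' : ∀ j, B j 0 = A j 0 := fun j => by rw [hA.1, hB.1, h0]
  have h1 : ∀ i, B i c = A i c := fun i => by
    by_cases hi : i = 0
    · rw [hi, h0]
    have := congrFun (congrFun e i) c
    exact hu.mul_right_cancel (by simpa [piv, clr, hi, hc, hA.2, hB.2, h0] using this)
  ext i j
  by_cases hi : i = 0
  · rw [hi, h0]
  by_cases hj : j = 0
  · rw [hj, h0']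
  by_cases hi' : i = c
  · rw [hi', hA.1, hB.1, h1]
  by_cases hj' : j = c
  · rw [hj', h1]
  have := congrFun (congrFun e i) j
  simpa [piv, clr, hi, hj, hi', hj', h0, h0', h1] using this

theorem piv_surj (hB : IsSk B) (hc : c ≠ 0) (hu : IsUnit (B 0 c)) :
    ∃ A, IsSk A ∧ piv c A = B := by
  obtain ⟨v, hv⟩ := hu.exists_left_inv
  refine ⟨Matrix.of fun i j => if i = 0 ∨ j = 0 then B i j else if i = c ∨ j = c then B i j * v
    else B i j - B j c * v * B i 0 - B i c * v * B 0 j, ⟨fun i j => ?_, fun i => ?_⟩, ?_⟩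
  · simp only [Matrix.of_apply, hB.1 0 i, hB.1 0 j, hB.1 i j, or_comm (a := j = 0),
      or_comm (a := j = c)]
    split_ifs <;> ring
  · simp [hB.2, hB.1 0 i]
  · ext i j
    by_cases hi : i = 0
    · simp [piv, clr, hi, hB.2]
    by_cases hj : j = 0
    · simp [piv, clr, hj, hB.2]
    by_cases hj' : j = c
    · simp [piv, clr, hi, hj', hc, hB.2, mul_assoc, hv]
    by_cases hi' : i = c
    · simp only [piv, clr, hi', hB.2, Matrix.of_apply, hB.1 0 c, hB.1 j c]
      simp [mul_assoc, hv, hj, hj', hc]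
    simp only [piv, clr, hi, hj, hi', hj', hc, Matrix.of_apply, or_self, or_true, true_or, and_false,
      if_true, if_false]
    ring

theorem map_piv {F : Type} [FunLike F S S'] [RingHomClass F S S'] (f : F) (γ : Sk (m + 1) → S)
    (i j : Fin (m + 1)) : f (piv c (sk γ) i j) = piv c (sk fun p => f (γ p)) i j := by
  simp only [piv, clr, Matrix.of_apply, map_add, map_mul, ← map_sk]
  split_ifs <;> simp

theorem tri_piv (c : Fin (m + 1)) : TriT (k := k)
    (fun j : Sk (m + 2) => piv c.succ (sk fun p => X (some p)) j.1.1 j.1.2) {row m c} := by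
  intro S _ _ t
  simp only [map_piv, aeval_X, Option.elim_some, Finset.mem_singleton, forall_eq]
  refine ⟨fun γ γ' h e => ?_, fun γ' h => ?_⟩
  · have h1 : sk γ' = sk γ := piv_inj (sk_isSk γ) (sk_isSk γ') c.succ_ne_zero
      ((sk_apply γ (row m c)).symm ▸ h :) (by
        rw [← sk_of (piv_isSk (sk_isSk γ')), ← sk_of (piv_isSk (sk_isSk γ))]
        exact congrArg sk (funext e))
    funext j
    rw [← sk_apply γ', h1, sk_apply]
  · obtain ⟨A, h1, h2⟩ := piv_surj (sk_isSk γ') c.succ_ne_zero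
      ((sk_apply γ' (row m c)).symm ▸ h :)
    exact ⟨fun j => A j.1.1 j.1.2, fun j => by rw [sk_of h1, h2, sk_apply]⟩

theorem piv_sq [Algebra k S] {P : MvPolynomial (Sk (m + 2)) k} (hP : P ^ 2 = (skew k (m + 2)).det)
    (c : Fin (m + 1)) (γ : Sk (m + 2) → S) :
    aeval (fun j : Sk (m + 2) => piv c.succ (sk γ) j.1.1 j.1.2) P ^ 2 =
      γ (row m c) ^ 2 * (sk fun j => γ (emb c j)).det := by
  rw [sq_eq hP, sk_of (piv_isSk (sk_isSk γ)), det_piv_eq (sk_isSk γ),
    det_piv _ c (fun j hj => by simp [clr, hj]) (fun j hj => by simp [clr, hj]), sk_emb,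
    ← sk_apply γ (row m c)]
  congr 1
  · simp only [clr, Matrix.of_apply, ne_eq, not_true, false_and, and_false, if_false,
      (sk_isSk γ).1 0 c.succ]
    rw [mul_neg, neg_neg, sq]
    rfl
  · congr 1
    ext i j
    simp [clr]

theorem exists_root {P : MvPolynomial (Sk (m + 2)) k} (hP : P ^ 2 = (skew k (m + 2)).det) :
    ∃ P' : MvPolynomial (Sk m) k, P' ^ 2 = (skew k m).det := by
  refine ⟨_, (piv_sq hP 0 (Function.extend (emb 0) X fun _ => 1)).trans ?_⟩
  rw [Function.extend_apply' _ _ _ fun ⟨j, h⟩ => emb_ne _ _ j h]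
  simp only [(emb (0 : Fin (m + 1))).injective.extend_apply, one_pow, one_mul]
  rfl

theorem tri_sc {β : Type} [Fintype β] [DecidableEq β] (p : β → Prop) [DecidablePred p] (u : β)
    (hu : ¬ p u) (σ : k) (hσ : σ ≠ 0) : TriT (k := k)
      (fun j => if p j then C σ * X (some u) * X (some j) else X (some j)) {u} := by
  intro S _ _ t
  have h0 : IsUnit (algebraMap k S σ) := (IsUnit.mk0 σ hσ).map _
  simp only [Finset.mem_singleton, forall_eq]
  refine ⟨fun γ γ' h e => funext fun j => ?_, fun γ' h => ?_⟩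
  · have h1 : γ' u = γ u := by simpa [hu] using e u
    by_cases hj : p j
    · exact (h0.mul h).mul_left_cancel (by simpa [hj, h1] using e j)
    · simpa [hj] using e j
  · obtain ⟨v, hv⟩ := (h0.mul h).exists_right_inv
    refine ⟨fun j => if p j then v * γ' j else γ' j, fun j => ?_⟩
    by_cases hj : p j
    · simp [hj, hu, ← mul_assoc, hv]
    · simp [hj]

variable {ζ : Type} [Fintype ζ] [DecidableEq ζ] {Φ : AP k (Option ζ)} {M : ℕ}

theorem step [CharZero k] (h : Adm Φ M) {P : MvPolynomial (Sk (m + 1 + 2)) k}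
    (hP : P ^ 2 = (skew k (m + 1 + 2)).det) {P' : MvPolynomial (Sk (m + 1)) k}
    (hP' : P' ^ 2 = (skew k (m + 1)).det) (a : ℕ) :
    ls Φ P a = (1 - Linv k ^ (m + 2)) * ls Φ P' a + Linv k ^ (m + 2) * ls Φ P (a + 1) := by
  have h1 : sbt (fun j => if j ∈ Finset.univ.map (row (m + 1)) then X none * X (some j) else
      X (some j)) (tp a P) = tp (a + 1) P := by
    have h2 : ∀ j : Sk (m + 1 + 2), j ∈ Finset.univ.map (row (m + 1)) ↔ j.1.1 = 0 := by
      rintro ⟨⟨i, j⟩, hij⟩
      simp only [Finset.mem_map, Finset.mem_univ, true_and, row, Function.Embedding.coeFn_mk,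
        Subtype.mk.injEq, Prod.mk.injEq]
      refine ⟨fun ⟨_, h, _⟩ => h.symm, fun h => ?_⟩
      obtain ⟨c, rfl⟩ := Fin.exists_succ_eq.2 (Fin.pos_iff_ne_zero.1 ((Fin.zero_le i).trans_lt hij))
      exact ⟨c, h.symm, rfl⟩
    simp only [h2, tp, map_mul, map_pow, sbt_none, sbt_rename_some]
    rw [sc_row (m := m + 2) hP, pow_succ, mul_assoc, rename_eq_aeval]
    rfl
  rw [ls, ls, ls, ← h1]
  refine h.step (row (m + 1)) fun c => ?_
  have h3 := piv_sq hP c fun p => (X (some p) : MvPolynomial (Option (Sk (m + 1 + 2))) k)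
  rw [← sq_eq hP', ← mul_pow] at h3
  obtain ⟨σ, hσ, h4⟩ : ∃ σ : k, σ ≠ 0 ∧ aeval (fun j : Sk (m + 1 + 2) => piv c.succ
      (sk fun p => (X (some p) : MvPolynomial (Option (Sk (m + 1 + 2))) k)) j.1.1 j.1.2) P =
      C σ * X (some (row (m + 1) c)) * aeval (fun j => X (some (emb c j))) P' := by
    rcases sq_eq_sq_iff_eq_or_eq_neg.1 h3 with h4 | h4
    · exact ⟨1, one_ne_zero, by rw [h4, C_1, one_mul]⟩
    · exact ⟨-1, by simp, by rw [h4, C_neg, C_1, neg_one_mul, neg_mul]⟩
  refine ⟨emb c, _, _, fun j c' => emb_ne _ _ j, tri_piv c,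
    tri_sc (fun j : Sk (m + 1 + 2) => j.1.1 = (c.succAbove 0).succ) (row (m + 1) c)
      (Fin.succ_ne_zero _).symm σ hσ, fun c' => ?_, fun c' => if_neg (Fin.succ_ne_zero _).symm, ?_⟩
  · exact (piv_zero (sk_isSk _) _).trans (sk_apply _ (row (m + 1) c'))
  · rw [← tp_rename]
    simp only [tp, map_mul, map_pow, sbt_none, sbt_rename_some, aeval_rename]
    rw [h4, ← sc_row hP']
    congr 3
    funext j
    simp [emb]

theorem base (h : Adm Φ M) {P : MvPolynomial (Sk 2) k} (hP : P ^ 2 = (skew k 2).det) (a : ℕ) :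
    ls Φ P a = ls Φ (X () : MvPolynomial Unit k) a := by
  have h1 : ls Φ (X (row 0 0) : MvPolynomial (Sk 2) k) a = ls Φ (X () : MvPolynomial Unit k) a := by
    simpa using h.ls_rename (X ()) (⟨fun _ => row 0 0, fun _ _ _ => rfl⟩ : Unit ↪ Sk 2) a
  have h2 : P ^ 2 = X (row 0 0) ^ 2 := by
    rw [hP, Matrix.det_fin_two]
    simp [skew, row, sq]
  rw [← h1]
  rcases sq_eq_sq_iff_eq_or_eq_neg.1 h2 with rfl | rfl
  · rfl
  · rw [ls, ls, h.tri' (ψ := fun j => -X (some j)) (tp a (X (row 0 0))) (fun S _ _ t =>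
      ⟨fun γ γ' _ e => funext fun j => by simpa using e j, fun γ' _ => ⟨-γ', by simp⟩⟩) (by simp)]
    simp [tp]

end LawPf

theorem lawPf {k : Type} [Field k] [CharZero k] (h : TwStmt k) : LawPfStmt k := by
  intro n P hP d hd ζ _ _ Φ M hΦ
  have hT := h Unit ζ (X ()) 1 1 Φ M (fun S _ _ s x => by simp) hΦ
  induction n with
  | zero => exact fun a => (LawPf.base hΦ hP a).trans (hT.1 d a).symm
  | succ n ih =>
    intro a
    obtain ⟨P', hP'⟩ := LawPf.exists_root (m := 2 * n + 1 + 1) hP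
    have h1 := ih P' hP' (fun i => d i.succ) fun i => by
      have := hd i.succ
      simp only [Fin.val_succ] at this
      omega
    have h2 : d 0 = 2 * n + 1 + 2 := hd 0
    refine sub_eq_zero.1 (cancel (s := fun a => ls Φ P a - ls Φ (tw (X ()) d 1) a)
      (c := Linv k ^ d 0) (e := 1) (N := M + 1) one_pos (fun a => ?_) (fun a ha => ?_) a)
    · have h3 := LawPf.step (m := 2 * n + 1) hΦ hP hP' a
      have h4 := hT.2 n d a
      rw [← h2, h1] at h3
      simp only [mul_one] at h4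
      exact (congrArg₂ (· - ·) h3 h4).trans (by ring)
    · rw [hΦ.ls_large P ha, hΦ.ls_large _ ha, sub_self]

end

end Pool.Agent.P.MP_b91a16_ag.JB
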