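import Pool.Agent.P.MP_b91a16_ag.JB.Calc

/-! The recursion for the law of the split quadratic form. -/

set_option linter.unusedSectionVars false

open MvPolynomial

namespace Pool.Agent.P.MP_b91a16_ag.JB

noncomputable section

open St Dt

namespace LawQuad

variable {k β ζ : Type} [Field k] [Fintype β] [DecidableEq β] [Fintype ζ] [DecidableEq ζ]

/-- A substitution that changes one variable. -/
def up (B : β) (W : MvPolynomial (Option β) k) : β → MvPolynomial (Option β) k :=
  fun j => if j = B then W else X (some j)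

theorem up_self (B : β) (W : MvPolynomial (Option β) k) : up B W B = W := if_pos rfl

theorem up_ne {B j : β} (W : MvPolynomial (Option β) k) (h : j ≠ B) : up B W j = X (some j) :=
  if_neg h

theorem triT_up (B : β) (c W : MvPolynomial (Option β) k) (U : Finset β)
    (hc : ∀ (S : Type) [CommRing S] [Algebra k S] (t : S) (γ : β → S), (∀ p ∈ U, IsUnit (γ p)) →
      IsUnit (aeval (fun o : Option β => o.elim t γ) c))
    (hi : ∀ (S : Type) [CommRing S] [Algebra k S] (t : S) (γ γ' : β → S),
      (∀ j, j ≠ B → γ' j = γ j) →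
      aeval (fun o : Option β => o.elim t γ') c = aeval (fun o : Option β => o.elim t γ) c ∧
      aeval (fun o : Option β => o.elim t γ') W = aeval (fun o : Option β => o.elim t γ) W) :
    TriT (up B (c * X (some B) + W)) U := by
  intro S _ _ t
  constructor
  · intro γ γ' hγ e
    have h1 : ∀ j, j ≠ B → γ' j = γ j := fun j hj => by simpa [up_ne _ hj] using e j
    funext j
    by_cases hj : j = B
    · subst hj
      have h2 := e j
      obtain ⟨h3, h4⟩ := hi S t γ γ' h1
      simp only [up_self, map_add, map_mul, aeval_X, Option.elim_some, h3, h4, add_left_inj] at h2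
      exact (hc S t γ hγ).mul_left_cancel h2
    · exact h1 j hj
  · intro γ' hγ
    obtain ⟨v, hv⟩ := (hc S t γ' hγ).exists_right_inv
    refine ⟨Function.update γ' B (v * (γ' B - aeval (fun o : Option β => o.elim t γ') W)),
      fun j => ?_⟩
    by_cases hj : j = B
    · subst hj
      obtain ⟨h3, h4⟩ := hi S t γ' (Function.update γ' j
        (v * (γ' j - aeval (fun o : Option β => o.elim t γ') W))) fun i hi =>
          Function.update_of_ne hi _ _
      simp only [up_self, map_add, map_mul, aeval_X, Option.elim_some, h3, h4, Function.update_self]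
      rw [← mul_assoc, hv]
      ring
    · simp [up_ne _ hj, Function.update_of_ne hj]

/-- The variables of the form. -/
abbrev Vq (m : ℕ) : Type := Option (Fin m ⊕ Fin m)

/-- The smaller form sits in the larger one. -/
def em (m : ℕ) : Vq m ↪ Vq (m + 1) := ((Fin.succEmb m).sumMap (Fin.succEmb m)).optionMap

/-- The two new variables. -/
def vA (m : ℕ) : Vq (m + 1) := some (.inl 0)
def vB (m : ℕ) : Vq (m + 1) := some (.inr 0)

variable {m : ℕ}

theorem em_none : em m none = none := rfl
theorem em_inl (i : Fin m) : em m (some (.inl i)) = some (.inl i.succ) := rfl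
theorem em_inr (i : Fin m) : em m (some (.inr i)) = some (.inr i.succ) := rfl

theorem em_ne_A (j : Vq m) : em m j ≠ vA m := by
  rcases j with _ | i | i <;> simp [em_none, em_inl, em_inr, vA]

theorem em_ne_B (j : Vq m) : em m j ≠ vB m := by
  rcases j with _ | i | i <;> simp [em_none, em_inl, em_inr, vB]

theorem A_ne_B : vA m ≠ vB m := by simp [vA, vB]

theorem aeval_Qd {S : Type} [CommRing S] [Algebra k S] (f : Vq m → S) :
    aeval f (Qd k m) = f none ^ 2 + ∑ i, f (some (.inl i)) * f (some (.inr i)) := by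
  simp [Qd]

theorem aeval_succ {S : Type} [CommRing S] [Algebra k S] (f : Vq (m + 1) → S) :
    aeval f (Qd k (m + 1)) = f (vA m) * f (vB m) + aeval (fun j => f (em m j)) (Qd k m) := by
  rw [aeval_Qd, aeval_Qd, Fin.sum_univ_succ]
  simp only [em_none, em_inl, em_inr, vA, vB]
  ring

theorem aeval_scale {S : Type} [CommRing S] [Algebra k S] (t : S) (f : Vq m → S) :
    aeval (fun j => t * f j) (Qd k m) = t ^ 2 * aeval f (Qd k m) := by
  rw [aeval_Qd, aeval_Qd, mul_add, Finset.mul_sum]
  congr 1
  · ring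
  · exact Finset.sum_congr rfl fun i _ => by ring

theorem aeval_partner {S : Type} [CommRing S] [Algebra k S] (f g : Vq m → S) (s : Fin m ⊕ Fin m)
    (w : S) (hg : ∀ j, g j = f j + if j = some s.swap then w else 0) :
    aeval g (Qd k m) = aeval f (Qd k m) + f (some s) * w := by
  rw [aeval_Qd, aeval_Qd]
  rcases s with i | i
  · simp [hg, mul_add, Finset.sum_add_distrib, add_assoc]
  · simp [hg, add_mul, Finset.sum_add_distrib, add_assoc, mul_comm]

variable (k m) in
/-- The smaller form in the larger set of variables. -/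
def Q0 : MvPolynomial (Option (Vq (m + 1))) k := aeval (fun j => X (some (em m j))) (Qd k m)

theorem tp_succ (a : ℕ) : tp a (Qd k (m + 1)) =
    X none ^ a * (X (some (vA m)) * X (some (vB m)) + Q0 k m) := by
  rw [tp, ← aeval_X_left_apply (Qd k (m + 1)), ← AlgHom.comp_apply, comp_aeval, aeval_succ]
  simp [Q0]

theorem tp_em (a : ℕ) : rename (Option.map (em m)) (tp a (Qd k m)) = X none ^ a * Q0 k m := by
  rw [tp, map_mul, map_pow, rename_X, rename_rename, rename_eq_aeval]
  rfl

theorem sbt_Q0 {τ : Type} [Fintype τ] [DecidableEq τ] (ψ : Vq (m + 1) → MvPolynomial (Option τ) k) :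
    sbt ψ (Q0 k m) = aeval (fun j => ψ (em m j)) (Qd k m) := by
  rw [Q0, ← AlgHom.comp_apply, comp_aeval]
  simp

theorem aeval_Q0 {S : Type} [CommRing S] [Algebra k S] (t : S) (γ : Vq (m + 1) → S) :
    aeval (fun o : Option (Vq (m + 1)) => o.elim t γ) (Q0 k m) =
      aeval (fun j => γ (em m j)) (Qd k m) := by
  rw [Q0, ← AlgHom.comp_apply, comp_aeval]
  simp

variable {Φ : AP k (Option ζ)} {M : ℕ}

/-- The first new variable is a unit. -/
theorem unitA (h : Adm Φ M) (b e : ℕ) :
    lc Φ (X none ^ b * (X (some (vA m)) * X (some (vB m)) + X none ^ e * Q0 k m)) ∅ {vA m} =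
      (1 - Linv k) * ls Φ (X () : MvPolynomial Unit k) b := by
  let ε : Unit ↪ Vq (m + 1) := ⟨fun _ => vB m, fun _ _ _ => rfl⟩
  have hε : ∀ j, ε j = vB m := fun _ => rfl
  have h1 := h.rename' (Z := ∅) (U := {vA m}) (tp b (X () : MvPolynomial Unit k)) ε (by simp)
    fun j => by simpa [hε] using A_ne_B.symm
  have h2 := h.tri' (Z := ∅) (rename (Option.map ε) (tp b (X () : MvPolynomial Unit k)))
    (triT_up (vB m) (X (some (vA m))) (X none ^ e * Q0 k m) {vA m}
      (fun S _ _ t γ hγ => by simpa using hγ) fun S _ _ t γ γ' hγ => by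
        simp only [aeval_X, Option.elim_some, map_mul, map_pow, aeval_Q0, hγ _ A_ne_B,
          hγ _ (em_ne_B _), Option.elim_none, and_self])
    fun j hj => up_ne _ (by
      obtain rfl : j = vA m := by simpa using hj
      exact A_ne_B)
  rw [h1] at h2
  simp only [tp, map_mul, map_pow, rename_X, Option.map_none, Option.map_some, sbt_none, sbt_some,
    hε, up_self] at h2
  rw [← h2]
  simp [ls, tp]

/-- A hyperbolic coordinate of the smaller form is a unit. -/
theorem unitH (h : Adm Φ M) (a : ℕ) (s : Fin m ⊕ Fin m) {Z : Finset (Vq (m + 1))}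
    (hA : vA m ∈ Z) (hB : vB m ∉ Z) :
    lc Φ (tp a (Qd k (m + 1))) Z {em m (some s)} =
      lc Φ (X none ^ a * Q0 k m) Z {em m (some s)} := by
  have hs : some s ≠ some s.swap := by rcases s with i | i <;> simp
  have hp : em m (some s) ≠ em m (some s.swap) := fun e => hs ((em m).injective e)
  rw [h.tri' (tp a (Qd k (m + 1)))
    (triT_up (vB m) (X (some (em m (some s)))) 0 {em m (some s)}
      (fun S _ _ t γ hγ => by simpa using hγ) fun S _ _ t γ γ' hγ => by
        simp only [aeval_X, Option.elim_some, hγ _ (em_ne_B _), map_zero, and_self])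
    fun j hj => up_ne _ (by
      rintro rfl
      simp only [Finset.mem_union, Finset.mem_singleton] at hj
      exact hj.elim hB (em_ne_B _).symm),
    h.tri (X none ^ a * Q0 k m)
    (triT_up (em m (some s.swap)) 1 (X (some (vA m)) * X (some (vB m))) {em m (some s)}
      (fun S _ _ t γ hγ => by simp) fun S _ _ t γ γ' hγ => by
        simp only [aeval_X, Option.elim_some, map_mul, map_one, hγ _ (em_ne_A _).symm,
          hγ _ (em_ne_B _).symm, and_self]) fun K _ _ γ => ?_]
  · refine congrArg (fun R => lc Φ R Z {em m (some s)}) ?_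
    have h1 := aeval_partner (k := k) (S := MvPolynomial (Option (Vq (m + 1))) k)
      (fun j => X (some (em m j))) (fun j => up (em m (some s.swap))
      (1 * X (some (em m (some s.swap))) + X (some (vA m)) * X (some (vB m))) (em m j)) s
      (X (some (vA m)) * X (some (vB m))) fun j => by
        by_cases hj : j = some s.swap
        · subst hj
          rw [up_self, if_pos rfl, one_mul]
        · rw [up_ne _ fun e => hj ((em m).injective e), if_neg hj, add_zero]
    simp only [tp_succ, map_mul, map_pow, map_add, sbt_none, sbt_some, sbt_Q0, up_self,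
      up_ne _ A_ne_B, up_ne _ (em_ne_B _), h1]
    ring
  · have key : PowerSeries.constantCoeff (γ (vA m)) = 0 → ∀ j, PowerSeries.constantCoeff
        (ev γ (up (em m (some s.swap)) (1 * X (some (em m (some s.swap))) +
          X (some (vA m)) * X (some (vB m)) : MvPolynomial _ k) j)) =
          PowerSeries.constantCoeff (γ j) := fun h0 j => by
      by_cases hj : j = em m (some s.swap)
      · subst hj
        simp [up_self, h0]
      · simp [up_ne _ hj]
    constructor
    · rintro ⟨h1, h2⟩
      exact ⟨fun j hj => (key (h1 _ hA) j).trans (h1 j hj), fun j hj => key (h1 _ hA) j ▸ h2 j hj⟩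
    · rintro ⟨h1, h2⟩
      have h0 : PowerSeries.constantCoeff (γ (vA m)) = 0 := by
        simpa [up_ne _ (em_ne_A _).symm] using h1 _ hA
      exact ⟨fun j hj => (key h0 j).symm.trans (h1 j hj), fun j hj => (key h0 j).symm ▸ h2 j hj⟩

variable (k m) in
/-- The substitution that completes the square. -/
def sq : Vq (m + 1) → MvPolynomial (Option (Vq (m + 1))) k := fun j =>
  if j = none then X (some none) + X (some (vA m)) * X (some (vB m)) else
    if j = vB m then -(2 * X (some none) * X (some (vB m)) + X (some (vA m)) * X (some (vB m)) ^ 2)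
    else X (some j)

theorem sq_none : sq k m none = X (some none) + X (some (vA m)) * X (some (vB m)) := if_pos rfl

theorem sq_B : sq k m (vB m) =
    -(2 * X (some none) * X (some (vB m)) + X (some (vA m)) * X (some (vB m)) ^ 2) := by
  simp [sq, vB]

theorem sq_ne {j : Vq (m + 1)} (h1 : j ≠ none) (h2 : j ≠ vB m) : sq k m j = X (some j) := by
  simp [sq, h1, h2]

theorem A_ne_none : vA m ≠ none := by simp [vA]

theorem B_ne_none : vB m ≠ none := by simp [vB]

theorem two_ne [CharZero k] (K : Type) [Field K] [Algebra k K] : (2 : K) ≠ 0 := by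
  have := (algebraMap k K).injective.ne (two_ne_zero (α := k))
  rwa [map_ofNat, map_zero] at this

theorem inj_sq {K : Type} [Field K] (h2 : (2 : K) ≠ 0) {a a' u u' μ μ' : PowerSeries K} {N : ℕ}
    (ha : PowerSeries.constantCoeff a = 0) (ha' : PowerSeries.constantCoeff a' = 0)
    (hu : PowerSeries.constantCoeff u ≠ 0) (e1 : PowerSeries.X ^ N ∣ a' - a)
    (e2 : PowerSeries.X ^ N ∣ u' + a' * μ' - (u + a * μ))
    (e3 : PowerSeries.X ^ N ∣ -(2 * u' * μ' + a' * μ' ^ 2) - -(2 * u * μ + a * μ ^ 2)) :
    PowerSeries.X ^ N ∣ u' - u ∧ PowerSeries.X ^ N ∣ μ' - μ := by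
  rcases N with _ | N
  · simp
  have c2 : PowerSeries.constantCoeff (2 : PowerSeries K) = 2 := map_ofNat _ 2
  have h0 : PowerSeries.constantCoeff u' = PowerSeries.constantCoeff u := by
    simpa [ha, ha', sub_eq_zero] using
      PowerSeries.X_dvd_iff.1 ((dvd_pow_self _ N.succ_ne_zero).trans e2)
  obtain ⟨p, hp⟩ := e1
  obtain ⟨q, hq⟩ := e2
  obtain ⟨s, hs⟩ := e3
  have U1 : IsUnit (u' + u) := isUnit_of_cc (by
    rw [map_add, h0, ← two_mul]; exact mul_ne_zero h2 hu)
  have U2 : IsUnit (2 * u + a * (μ + μ')) := isUnit_of_cc (by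
    simpa [ha, c2] using And.intro h2 hu)
  have d1 : PowerSeries.X ^ (N + 1) ∣ u' - u := U1.dvd_mul_right.1
    ⟨q * (u' + a' * μ' + (u + a * μ)) + p * -(2 * u' * μ' + a' * μ' ^ 2) + a * s, by
      linear_combination (u' + a' * μ' + (u + a * μ)) * hq + -(2 * u' * μ' + a' * μ' ^ 2) * hp +
        a * hs⟩
  refine ⟨d1, U2.dvd_mul_right.1 ?_⟩
  obtain ⟨w, hw⟩ := d1
  exact ⟨-s - 2 * w * μ' - p * μ' ^ 2, by linear_combination -hs - 2 * μ' * hw - μ' ^ 2 * hp⟩

/-- The anisotropic coordinate is a unit. -/
theorem unit0 [CharZero k] (h : Adm Φ M) (a : ℕ) {Z : Finset (Vq (m + 1))}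
    (hA : vA m ∈ Z) (hB : vB m ∉ Z) :
    lc Φ (tp a (Qd k (m + 1))) Z {em m none} = lc Φ (X none ^ a * Q0 k m) Z {em m none} := by
  have key : ∀ (K : Type) [Field K] [Algebra k K] (γ : Vq (m + 1) → PowerSeries K),
      PowerSeries.constantCoeff (γ (vA m)) = 0 → ∀ j, j ≠ vB m →
      PowerSeries.constantCoeff (ev γ (sq k m j)) = PowerSeries.constantCoeff (γ j) :=
    fun K _ _ γ h0 j hj => by
      by_cases h1 : j = none
      · subst h1
        simp [sq_none, h0]
      · simp [sq_ne h1 hj]
  rw [em_none, h.cv (Z := Z) (U := {none}) (tp a (Qd k (m + 1))) (sq k m) (fun K _ _ γ hγ => ?_)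
    (fun K _ _ γ γ' N hγ hγ' e j => ?_) fun K _ _ γ' hγ => ?_]
  · refine congrArg (fun R => lc Φ R Z {none}) ?_
    simp only [tp_succ, map_mul, map_pow, map_add, sbt_none, sbt_some, sq_B,
      sq_ne A_ne_none A_ne_B, Q0, aeval_Qd, em_none, sq_none]
    have : ∀ s : Fin m ⊕ Fin m, sq k m (em m (some s)) = X (some (em m (some s))) := fun s =>
      sq_ne (fun e => by simpa using (em m).injective (e.trans em_none.symm)) (em_ne_B _)
    simp only [map_sum, map_mul, sbt_some, this]
    ring
  · refine ⟨fun j hj => (key K γ (hγ.1 _ hA) j fun e => hB (e ▸ hj)).trans (hγ.1 j hj),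
      fun j hj => ?_⟩
    obtain rfl : j = none := by simpa using hj
    rw [key K γ (hγ.1 _ hA) _ B_ne_none.symm]
    exact hγ.2 _ hj
  · have e1 := e (vA m)
    have e2 := e none
    have e3 := e (vB m)
    simp only [sq_ne A_ne_none A_ne_B, sq_none, sq_B, map_add, map_mul, map_neg, map_pow, ev_some,
      map_ofNat] at e1 e2 e3
    obtain ⟨d1, d2⟩ := inj_sq (two_ne (k := k) K) (hγ.1 _ hA) (hγ'.1 _ hA) (hγ.2 none (by simp))
      e1 e2 e3
    by_cases h1 : j = none
    · exact h1 ▸ d1
    by_cases h2 : j = vB m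
    · exact h2 ▸ d2
    simpa [sq_ne h1 h2] using e j
  · have hr := hγ.2 none (by simp)
    obtain ⟨u, h1, h2⟩ := exists_sqrt (two_ne (k := k) K) hr (s := γ' (vA m) * γ' (vB m))
      ((PowerSeries.X_dvd_iff.2 (hγ.1 _ hA)).mul_right _)
    have h0 : PowerSeries.constantCoeff u = PowerSeries.constantCoeff (γ' none) := by
      simpa [sub_eq_zero] using PowerSeries.X_dvd_iff.1 h2
    obtain ⟨v, hv⟩ := (isUnit_of_cc (z := u + γ' none) (by
      rw [map_add, h0, ← two_mul]; exact mul_ne_zero (two_ne (k := k) K) hr)).exists_right_inv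
    let γ : Vq (m + 1) → PowerSeries K := fun j =>
      if j = none then u else if j = vB m then -(γ' (vB m) * v) else γ' j
    have g0 : γ none = u := if_pos rfl
    have gB : γ (vB m) = -(γ' (vB m) * v) := by simp [γ, B_ne_none]
    have gn : ∀ j, j ≠ none → j ≠ vB m → γ j = γ' j := fun j a b => by simp [γ, a, b]
    have gA := gn _ A_ne_none A_ne_B
    have hur : u - γ' (vA m) * (γ' (vB m) * v) = γ' none := by
      linear_combination v * h1 - (u - γ' none) * hv
    refine ⟨γ, ⟨fun j hj => ?_, fun j hj => ?_⟩, fun j => ?_⟩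
    · by_cases h3 : j = none
      · subst h3
        rw [g0, h0]
        exact hγ.1 _ hj
      · rw [gn j h3 fun e => hB (e ▸ hj)]
        exact hγ.1 _ hj
    · obtain rfl : j = none := by simpa using hj
      rwa [g0, h0]
    · by_cases h3 : j = none
      · subst h3
        simp only [sq_none, map_add, map_mul, ev_some, g0, gA, gB]
        linear_combination hur
      by_cases h4 : j = vB m
      · subst h4
        simp only [sq_B, map_add, map_mul, map_neg, map_pow, ev_some, map_ofNat, g0, gA, gB]
        linear_combination (γ' (vB m) * v) * hur + γ' (vB m) * hv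
      · simp [sq_ne h3 h4, gn j h3 h4]

theorem card_Vq : Fintype.card (Vq m) = 2 * m + 1 := by
  simp [two_mul]

/-- The smaller form when all its variables are divisible by `t`. -/
theorem small (h : Adm Φ M) (a : ℕ) :
    lc Φ (X none ^ a * Q0 k m) ({vA m} ∪ Finset.univ.map (em m)) ∅ =
      Linv k * (Linv k ^ (2 * m + 1) * ls Φ (Qd k m) (a + 2)) := by
  have h1 := h.rename (tp a (Qd k m)) Finset.univ ∅ (em m) (Z' := {vA m}) (U' := ∅) (by simp)
    fun j => by simpa using em_ne_A j
  have h2 := h.shift (Z := ∅) (Z' := Finset.univ) (U := ∅) (tp a (Qd k m)) (by simp) (by simp)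
  rw [Finset.empty_union, Finset.card_univ, card_Vq] at h2
  rw [tp_em, Finset.union_comm, h2] at h1
  simp only [Finset.map_empty, Finset.union_empty, Finset.card_empty, pow_zero, one_mul,
    Finset.card_singleton, pow_one, Finset.mem_univ, if_true] at h1
  rw [h1]
  refine congrArg (fun R => Linv k * (Linv k ^ (2 * m + 1) * lc Φ R ∅ ∅)) ?_
  rw [tp, tp, map_mul, map_pow, sbt_none, sbt_rename_some, aeval_scale, pow_add, mul_assoc,
    rename_eq_aeval]
  rfl

/-- The larger form when all variables but one are divisible by `t`. -/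
theorem large (h : Adm Φ M) (a : ℕ) :
    lc Φ (tp a (Qd k (m + 1))) ({vA m} ∪ Finset.univ.map (em m)) ∅ =
      Linv k ^ (2 * m + 2) * ((1 - Linv k) * ls Φ (X () : MvPolynomial Unit k) (a + 1) +
        Linv k * ls Φ (Qd k (m + 1)) (a + 2)) := by
  have h1 := h.shift (Z := ∅) (Z' := {vA m} ∪ Finset.univ.map (em m)) (U := ∅)
    (tp a (Qd k (m + 1))) (by simp) (by simp)
  have hc : ({vA m} ∪ Finset.univ.map (em m)).card = 2 * m + 2 := by
    rw [Finset.card_union_of_disjoint (by simpa using em_ne_A), Finset.card_map, Finset.card_univ,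
      card_Vq, Finset.card_singleton]
    ring
  have hB : vB m ∉ {vA m} ∪ Finset.univ.map (em m) := by
    simpa using And.intro A_ne_B.symm em_ne_B
  have h2 : sbt (fun j => if j ∈ {vA m} ∪ Finset.univ.map (em m) then X none * X (some j)
      else X (some j)) (tp a (Qd k (m + 1))) =
      X none ^ (a + 1) * (X (some (vA m)) * X (some (vB m)) + X none ^ 1 * Q0 k m) := by
    have hA : vA m ∈ {vA m} ∪ Finset.univ.map (em m) := by simp
    have hE : ∀ j, em m j ∈ {vA m} ∪ Finset.univ.map (em m) := fun j => by simp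
    simp only [tp_succ, map_mul, map_pow, map_add, sbt_none, sbt_some, sbt_Q0, if_neg hB,
      if_pos hA, if_pos (hE _), aeval_scale]
    rw [Q0]
    ring
  have h3 := h.shift (Z := ∅) (Z' := {vA m}) (U := ∅)
    (X none ^ (a + 1) * (X (some (vA m)) * X (some (vB m)) + X none ^ 1 * Q0 k m))
    (by simp) (by simp)
  rw [Finset.empty_union, hc, h2, h.split _ ∅ ∅ (vA m), insert_empty_eq, unitA h] at h1
  rw [Finset.empty_union, Finset.card_singleton, pow_one (Linv k)] at h3
  rw [h1, h3, add_comm (Linv k * _)]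
  refine congrArg (fun R => Linv k ^ (2 * m + 2) * ((1 - Linv k) *
    ls Φ (X () : MvPolynomial Unit k) (a + 1) + Linv k * lc Φ R ∅ ∅)) ?_
  simp only [tp_succ, map_mul, map_pow, map_add, sbt_none, sbt_some, sbt_Q0, Finset.mem_singleton,
    if_true, if_neg (A_ne_B (m := m)).symm, if_neg (em_ne_A _)]
  rw [Q0]
  ring

end LawQuad

open LawQuad in
theorem quad {k : Type} [Field k] [CharZero k] : QuadStmt k := by
  intro ζ _ _ Φ M h m a
  let ρ : Fin (2 * m + 1) ↪ Vq (m + 1) :=
    (Fintype.equivFinOfCardEq (card_Vq (m := m))).symm.toEmbedding.trans (em m)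
  have hρ : Finset.univ.map ρ = Finset.univ.map (em m) := by
    rw [← Finset.map_map, Finset.map_univ_equiv]
  have h1 := h.split_row (tp a (Qd k (m + 1))) {vA m} ∅ ρ
  have h2 := h.split_row (X none ^ a * Q0 k m) {vA m} ∅ ρ
  have h3 := h.rename' (Z := {vA m}) (U := ∅) (tp a (Qd k m)) (em m) (by simp)
    fun j => by simpa using em_ne_A j
  have h4 := unitA (m := m) h a 0
  have h5 : ∀ c, lc Φ (tp a (Qd k (m + 1))) ({vA m} ∪ (Finset.Iio c).map ρ) (insert (ρ c) ∅) =
      lc Φ (X none ^ a * Q0 k m) ({vA m} ∪ (Finset.Iio c).map ρ) (insert (ρ c) ∅) := fun c => by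
    have hA : vA m ∈ {vA m} ∪ (Finset.Iio c).map ρ := by simp
    have hB : vB m ∉ {vA m} ∪ (Finset.Iio c).map ρ := by
      simp only [Finset.mem_union, Finset.mem_singleton, Finset.mem_map, not_or, not_exists,
        not_and]
      exact ⟨A_ne_B.symm, fun c _ => em_ne_B _⟩
    obtain ⟨j, hj⟩ : ∃ j, ρ c = em m j := ⟨_, rfl⟩
    rw [insert_empty_eq, hj]
    rcases j with _ | s
    · exact unit0 h a hA hB
    · exact unitH h a s hA hB
  rw [hρ, large h, Finset.sum_congr rfl fun c _ => h5 c] at h1
  rw [hρ, small h] at h2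
  rw [tp_em] at h3
  rw [pow_zero, one_mul, ← tp_succ] at h4
  simp only [Finset.card_empty, pow_zero, one_mul, Finset.card_singleton, pow_one] at h3
  rw [ls, h.split _ ∅ ∅ (vA m), insert_empty_eq, h4, h1]
  rw [h3] at h2
  have h6 : lc Φ (tp a (Qd k m)) ∅ ∅ = ls Φ (Qd k m) a := rfl
  rw [h6] at h2
  linear_combination -h2

end

end Pool.Agent.P.MP_b91a16_ag.JB
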