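import Pool.Agent.P.MP_b91a16_ag.JB.Calc

/-! The law of a twist. -/

set_option linter.unusedSectionVars false

open MvPolynomial

namespace Pool.Agent.P.MP_b91a16_ag.JB

noncomputable section

open St Dt

namespace LawTw

variable {k V : Type} [Field k] [Fintype V] [DecidableEq V]

theorem aeval_tw {α S : Type} [Fintype α] [DecidableEq α] [CommRing S] [Algebra k S] {d : α → ℕ}
    {p : ℕ} (g : MvPolynomial V k) (γ : Tv V d p → S) : aeval γ (tw g d p) =
      aeval (fun v => ∑ I : Fin p → Ix d, γ (.inl (v, I)) * ∏ t, ∏ i, γ (.inr ⟨i, I t i⟩)) g :=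
  algHom_aeval _ _ _ (fun v => by simp) g

theorem tw_zero (g : MvPolynomial V k) (d : Fin 0 → ℕ) (p : ℕ) :
    tw g d p = rename (fun v => (.inl (v, default) : Tv V d p)) g := by
  rw [tw, rename_eq_aeval]
  exact congrArg (aeval · g) (funext fun v => by simp)

variable {m p : ℕ} {d : Fin (m + 1) → ℕ}

variable (V p d) in
/-- The first row of the variables `y`. -/
def row : Fin (d 0) ↪ Tv V d p := ⟨fun c => .inr ⟨0, c⟩, fun _ _ h => by simpa using h⟩

theorem row_apply (c : Fin (d 0)) : row V p d c = .inr ⟨0, c⟩ := rfl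

/-- Replacement of the first indices. -/
def upd (I : Fin p → Ix d) (c' : Fin p → Fin (d 0)) : Fin p → Ix d :=
  fun t => Function.update (I t) 0 (c' t)

theorem upd_zero (I : Fin p → Ix d) (c' : Fin p → Fin (d 0)) (t : Fin p) : upd I c' t 0 = c' t := by
  simp [upd]

theorem upd_upd (I : Fin p → Ix d) (c' c'' : Fin p → Fin (d 0)) :
    upd (upd I c') c'' = upd I c'' := by
  funext t
  simp [upd]

theorem upd_self {I : Fin p → Ix d} {c : Fin (d 0)} (h : ∀ t, I t 0 = c) :
    upd I (fun _ => c) = I := by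
  funext t
  rw [upd, ← h t, Function.update_eq_self]

theorem upd_ne {I : Fin p → Ix d} {c : Fin (d 0)} {c' : Fin p → Fin (d 0)}
    (h : c' ∈ Finset.univ.erase fun _ => c) : ¬∀ t, upd I c' t 0 = c := fun e =>
  Finset.ne_of_mem_erase h (funext fun t => (upd_zero I c' t).symm.trans (e t))

variable (k V p) in
/-- The change of variables at the pivot `c`. -/
def piv (c : Fin (d 0)) : Tv V d p → MvPolynomial (Option (Tv V d p)) k :=
  Sum.elim (fun q => if ∀ t, q.2 t 0 = c then ∑ c' : Fin p → Fin (d 0),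
    X (some (.inl (q.1, upd q.2 c'))) * ∏ t, X (some (.inr ⟨0, c' t⟩)) else X (some (.inl q)))
    fun q => X (some (.inr q))

theorem piv_tri (c : Fin (d 0)) : TriT (piv k V p c) {row V p d c} := by
  intro S _ _ s
  refine ⟨fun γ γ' h e => ?_, fun γ' h => ?_⟩
  · have hu : IsUnit (∏ _t : Fin p, γ (.inr ⟨0, c⟩)) := by
      simpa [row_apply] using (h _ (Finset.mem_singleton_self _)).pow p
    have h0 : ∀ q, γ' (.inr q) = γ (.inr q) := fun q => by simpa [piv] using e (.inr q)
    have h1 : ∀ v (I : Fin p → Ix d), (¬∀ t, I t 0 = c) → γ' (.inl (v, I)) = γ (.inl (v, I)) :=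
      fun v I hI => by simpa only [piv, Sum.elim_inl, if_neg hI, aeval_X, Option.elim_some] using e (.inl (v, I))
    funext j
    rcases j with ⟨v, I⟩ | q
    swap
    · exact h0 q
    by_cases hI : ∀ t, I t 0 = c
    swap
    · exact h1 v I hI
    have h2 := e (.inl (v, I))
    simp only [piv, Sum.elim_inl, if_pos hI, map_add, map_sum, map_mul, map_prod, aeval_X,
      Option.elim_some, h0, ← Finset.add_sum_erase _ _ (Finset.mem_univ fun _ : Fin p => c)] at h2
    rw [Finset.sum_congr rfl fun c' hc => by rw [h1 _ _ (upd_ne hc)], add_left_inj,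
      upd_self hI] at h2
    exact hu.mul_right_cancel h2
  · have hu : IsUnit (∏ _t : Fin p, γ' (.inr ⟨0, c⟩)) := by
      simpa [row_apply] using (h _ (Finset.mem_singleton_self _)).pow p
    obtain ⟨u, hu⟩ := hu.exists_left_inv
    refine ⟨Sum.elim (fun q => if ∀ t, q.2 t 0 = c then (γ' (.inl q) -
      ∑ c' ∈ Finset.univ.erase fun _ : Fin p => c,
        γ' (.inl (q.1, upd q.2 c')) * ∏ t, γ' (.inr ⟨0, c' t⟩)) * u else γ' (.inl q))
      fun q => γ' (.inr q), ?_⟩
    rintro (⟨v, I⟩ | q)
    swap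
    · simp [piv]
    by_cases hI : ∀ t, I t 0 = c
    swap
    · simp only [piv, Sum.elim_inl, if_neg hI, aeval_X, Option.elim_some]
    simp only [piv, Sum.elim_inl, Sum.elim_inr, if_pos hI, map_add, map_sum, map_mul, map_prod,
      aeval_X, Option.elim_some, ← Finset.add_sum_erase _ _ (Finset.mem_univ fun _ : Fin p => c),
      upd_self hI]
    rw [mul_assoc, hu, mul_one, sub_add,
      sub_eq_zero.2 (Finset.sum_congr rfl fun c' hc => by rw [if_neg (upd_ne hc)]), sub_zero]

variable (V p) in
/-- The variables of the smaller twist. -/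
def emb (c : Fin (d 0)) : Tv V (fun i : Fin m => d i.succ) p ↪ Tv V d p :=
  Function.Embedding.sumMap ⟨fun q => (q.1, fun t => Fin.cons c (q.2 t)), fun ⟨v, I⟩ ⟨w, J⟩ h => by
    simp only [Prod.mk.injEq] at h
    exact Prod.ext h.1 (funext fun t =>
      Fin.cons_right_injective (α := fun i => Fin (d i)) c (congrFun h.2 t))⟩
    ⟨fun q => ⟨q.1.succ, q.2⟩, fun ⟨i, a⟩ ⟨j, b⟩ h => by
      obtain rfl : i = j := Fin.succ_injective _ (congrArg Sigma.fst h)
      simpa using h⟩

theorem emb_inl (c : Fin (d 0)) (q : V × (Fin p → Ix fun i : Fin m => d i.succ)) :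
    emb V p c (.inl q) = .inl (q.1, fun t => Fin.cons c (q.2 t)) := rfl

theorem emb_inr (c : Fin (d 0)) (q : Σ i : Fin m, Fin (d i.succ)) :
    emb V p c (.inr q) = .inr ⟨q.1.succ, q.2⟩ := rfl

variable (p d) in
/-- Splitting off the first indices. -/
def spl : (Fin p → Fin (d 0)) × (Fin p → Ix fun i : Fin m => d i.succ) ≃ (Fin p → Ix d) where
  toFun q := fun t => Fin.cons (q.1 t) (q.2 t)
  invFun I := (fun t => I t 0, fun t i => I t i.succ)
  left_inv q := by simp
  right_inv I := funext fun t => Fin.cons_self_tail (I t)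

theorem piv_eq (g : MvPolynomial V k) (c : Fin (d 0)) :
    aeval (fun j => X (some j)) (tw g d p) =
      aeval (piv k V p c) (rename (emb V p c) (tw g (fun i : Fin m => d i.succ) p)) := by
  rw [aeval_rename, aeval_tw, aeval_tw]
  refine congrArg (aeval · g) (funext fun v => ?_)
  rw [← (spl p d).sum_comp, Fintype.sum_prod_type_right]
  refine Finset.sum_congr rfl fun I _ => ?_
  have e : ∀ c' : Fin p → Fin (d 0), upd (fun t => Fin.cons c (I t)) c' = spl p d (c', I) :=
    fun c' => funext fun t => Fin.update_cons_zero (α := fun i => Fin (d i)) c (I t) (c' t)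
  simp [piv, emb_inl, emb_inr, e, spl, Fin.prod_univ_succ, Finset.sum_mul, mul_assoc, Finset.prod_mul_distrib]

theorem scale {g : MvPolynomial V k} {e : ℕ} (hg : Hom g e) (a : ℕ) :
    sbt (fun j => if j ∈ Finset.univ.map (row V p d) then X none * X (some j) else X (some j))
      (tp a (tw g d p)) = tp (a + p * e) (tw g d p) := by
  rw [tp, tp, map_mul, map_pow, sbt_none, sbt_rename_some, rename_eq_aeval, aeval_tw, aeval_tw,
    pow_add, pow_mul, mul_assoc, ← hg]
  refine congrArg (_ * aeval · g) (funext fun v => ?_)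
  rw [Finset.mul_sum]
  refine Finset.sum_congr rfl fun I _ => ?_
  simp [row_apply, Fin.prod_univ_succ, (Fin.succ_ne_zero _).symm, Finset.prod_mul_distrib]
  ring

end LawTw

open LawTw

theorem lawTw {k : Type} [Field k] [CharZero k] : TwStmt k := by
  intro V ζ _ _ _ _ g e p Φ M hg h
  refine ⟨fun d a => ?_, fun m d a => ?_⟩
  · rw [tw_zero]
    exact h.ls_rename g ⟨fun v => (.inl (v, default) : Tv V d p), fun _ _ e => by simpa using e⟩ a
  · rw [ls, ls, ls, ← scale hg]
    refine h.step (row V p d) fun c => ⟨emb V p c, fun j => X (some j), piv k V p c, ?_,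
      fun S _ _ s => ⟨fun γ γ' _ e => by simpa [funext_iff] using e, fun γ' _ => ⟨γ', by simp⟩⟩,
      piv_tri c, fun _ => rfl, fun _ => rfl, ?_⟩
    · rintro (q | q) c <;> simp [row_apply, emb_inl, emb_inr]
    · rw [← tp_rename, tp, tp, map_mul, map_mul, map_pow, map_pow, sbt_none, sbt_none,
        sbt_rename_some, sbt_rename_some, piv_eq]

end

end Pool.Agent.P.MP_b91a16_ag.JB
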