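import Pool.Agent.P.MP_b91a16_ag.JB.Base

/-! Lowering operators for twisted linear forms and twisted quadrics. -/

set_option linter.unusedSectionVars false

open MvPolynomial

namespace Pool.Agent.P.MP_b91a16_ag.JB

noncomputable section

open St Dt

namespace LowTw

variable {k σ V α : Type} [Field k] [Fintype σ] [DecidableEq σ] [Fintype V] [DecidableEq V]
  [Fintype α] [DecidableEq α]

theorem X_mem (a : σ) : LinearMap.mulLeft k (X a : MvPolynomial σ k) ∈ Wl k σ :=
  Algebra.subset_adjoin (Or.inl ⟨a, rfl⟩)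

theorem pd_mem (a : σ) :
    (pderiv a : Derivation k (MvPolynomial σ k) (MvPolynomial σ k)).toLinearMap ∈ Wl k σ :=
  Algebra.subset_adjoin (Or.inr ⟨a, rfl⟩)

/-- Families obtained from the powers of `g` by one operator that kills `1`. -/
def Md (g : MvPolynomial σ k) : Submodule k (ℕ → MvPolynomial σ k) where
  carrier := {F | ∃ D ∈ Wl k σ, D 1 = 0 ∧ ∀ j, D (g ^ (j + 1)) = F j}
  add_mem' := by
    rintro F F' ⟨D, h1, h2, h3⟩ ⟨D', h1', h2', h3'⟩
    exact ⟨D + D', add_mem h1 h1', by simp [h2, h2'], fun j => by simp [h3, h3']⟩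
  zero_mem' := ⟨0, zero_mem _, rfl, fun _ => rfl⟩
  smul_mem' := by
    rintro c F ⟨D, h1, h2, h3⟩
    exact ⟨c • D, Subalgebra.smul_mem _ h1 c, by simp [h2], fun j => by simp [h3]⟩

variable {g : MvPolynomial σ k} {F F' : ℕ → MvPolynomial σ k}

theorem Md_congr (h : F ∈ Md g) (e : ∀ j, F j = F' j) : F' ∈ Md g := funext e ▸ h

theorem Md_pd (h : F ∈ Md g) (a : σ) : (fun j => pderiv a (F j)) ∈ Md g := by
  obtain ⟨D, h1, h2, h3⟩ := h
  exact ⟨_ * D, mul_mem (pd_mem a) h1, by simp [h2], fun j => by simp [h3]⟩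

theorem Md_start (a : σ) : (fun j => pderiv a (g ^ (j + 1))) ∈ Md g :=
  ⟨_, pd_mem a, by simp, fun _ => rfl⟩

theorem Md_sum {ι : Type} [Fintype ι] {G : ι → ℕ → MvPolynomial σ k} (h : ∀ i, G i ∈ Md g) :
    (fun j => ∑ i, G i j) ∈ Md g :=
  Md_congr (sum_mem fun i (_ : i ∈ Finset.univ) => h i) fun _ => Finset.sum_apply _ _ _

/-- The partial Euler operator of a family of variables. -/
def eu {ι : Type} [Fintype ι] (y : ι → σ) :
    Derivation k (MvPolynomial σ k) (MvPolynomial σ k) :=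
  ∑ c : ι, (X (y c) : MvPolynomial σ k) • pderiv (y c)

theorem eu_apply {ι : Type} [Fintype ι] (y : ι → σ) (p : MvPolynomial σ k) :
    eu y p = ∑ c, X (y c) * pderiv (y c) p := by
  rw [eu, ← Derivation.coeFnAddMonoidHom_apply, map_sum, Finset.sum_apply]
  rfl

theorem der_mul {D : Derivation k (MvPolynomial σ k) (MvPolynomial σ k)}
    {p q : MvPolynomial σ k} {a b : k} (hp : D p = a • p) (hq : D q = b • q) :
    D (p * q) = (a + b) • (p * q) := by
  rw [Derivation.leibniz, hp, hq]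
  simp only [smul_eq_mul, mul_smul_comm, add_smul]
  rw [add_comm, mul_comm q p]

theorem der_pow {D : Derivation k (MvPolynomial σ k) (MvPolynomial σ k)}
    {p : MvPolynomial σ k} {a : k} (hp : D p = a • p) (j : ℕ) :
    D (p ^ j) = (a * j) • p ^ j := by
  induction j with
  | zero => simp
  | succ j ih => rw [pow_succ, der_mul ih hp, Nat.cast_succ, mul_add, mul_one]

theorem der_prod {D : Derivation k (MvPolynomial σ k) (MvPolynomial σ k)} {ι : Type}
    (s : Finset ι) {p : ι → MvPolynomial σ k} {a : ι → k} (hp : ∀ i ∈ s, D (p i) = a i • p i) :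
    D (∏ i ∈ s, p i) = (∑ i ∈ s, a i) • ∏ i ∈ s, p i := by
  classical
  induction s using Finset.induction_on with
  | empty => simp
  | insert t s ht ih =>
    rw [Finset.prod_insert ht, Finset.sum_insert ht]
    exact der_mul (hp t (Finset.mem_insert_self _ _))
      (ih fun i hi => hp i (Finset.mem_insert_of_mem hi))

theorem der_aeval {D : Derivation k (MvPolynomial σ k) (MvPolynomial σ k)}
    {u : V → MvPolynomial σ k} {a e : k} (hu : ∀ v, D (u v) = a • u v) {φ : MvPolynomial V k}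
    (hφ : ∑ v, X v * pderiv v φ = e • φ) : D (aeval u φ) = (a * e) • aeval u φ := by
  have h := congrArg (aeval u) hφ
  simp only [map_sum, map_mul, aeval_X, map_smul] at h
  rw [chain, mul_smul, ← h, Finset.smul_sum]
  exact Finset.sum_congr rfl fun v _ => by rw [hu, mul_smul_comm, mul_comm]

variable {d : α → ℕ} {y : (Σ i, Fin (d i)) → σ}

theorem eu_y (hy : Function.Injective y) (t i : α) (c : Fin (d i)) :
    eu (k := k) (fun c => y ⟨t, c⟩) (X (y ⟨i, c⟩)) =
      (if i = t then 1 else 0 : k) • X (y ⟨i, c⟩) := by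
  rw [eu_apply]
  split_ifs with h
  · subst h
    simp [pderiv_X, Pi.single_apply, hy.eq_iff]
  · simp [pderiv_X, hy.eq_iff, h]

theorem eu_ys (hy : Function.Injective y) (t : α) (s : Finset α) (I : Ix d) :
    eu (k := k) (fun c => y ⟨t, c⟩) (∏ i ∈ s, X (y ⟨i, I i⟩)) =
      (if t ∈ s then 1 else 0 : k) • ∏ i ∈ s, X (y ⟨i, I i⟩) := by
  rw [der_prod s fun i _ => eu_y hy t i (I i), Finset.sum_ite_eq']

theorem layer (hy : Function.Injective y) (hd : ∀ i, 0 < d i) {H : ℕ → MvPolynomial σ k}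
    {n : ℕ → k} (hH : ∀ j t, eu (fun c => y ⟨t, c⟩) (H j) = n j • H j)
    (h : ∀ I : Ix d, (fun j => (∏ i, X (y ⟨i, I i⟩)) * H j) ∈ Md g) :
    (fun j => (∏ i, (d i + n j : k)) • H j) ∈ Md g := by
  have key : ∀ (s : Finset α) (I : Ix d), (fun j => (∏ i ∈ s, (d i + n j : k)) •
      ((∏ i ∈ sᶜ, X (y ⟨i, I i⟩)) * H j)) ∈ Md g := by
    intro s
    induction s using Finset.induction_on with
    | empty => exact fun I => by simpa using h I
    | insert t s ht ih =>
      intro I
      refine Md_congr (Md_sum fun c : Fin (d t) =>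
        Md_pd (ih (Function.update I t c)) (y ⟨t, c⟩)) fun j => ?_
      have h1 : ∀ c, (∏ i ∈ sᶜ, X (y ⟨i, Function.update I t c i⟩) : MvPolynomial σ k) =
          X (y ⟨t, c⟩) * ∏ i ∈ (insert t s)ᶜ, X (y ⟨i, I i⟩) := fun c => by
        rw [← Finset.mul_prod_erase _ _ (Finset.mem_compl.2 ht), Function.update_self,
          Finset.compl_insert]
        congr 1
        exact Finset.prod_congr rfl fun i hi => by
          rw [Function.update_of_ne (Finset.ne_of_mem_erase hi)]
      have h2 := der_mul (eu_ys (k := k) hy t (insert t s)ᶜ I) (hH j t)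
      rw [if_neg (by simp), zero_add, eu_apply] at h2
      simp only [h1, mul_assoc]
      generalize (∏ i ∈ (insert t s)ᶜ, X (y ⟨i, I i⟩) : MvPolynomial σ k) * H j = K at h2 ⊢
      simp only [Derivation.map_smul, ← Finset.smul_sum, Derivation.leibniz, pderiv_X_self,
        smul_eq_mul, mul_one, Finset.sum_add_distrib, h2, Finset.sum_const, Finset.card_univ,
        Fintype.card_fin]
      rw [Finset.prod_insert ht, mul_comm, mul_smul, add_smul, add_comm, Nat.cast_smul_eq_nsmul]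
  simpa using key Finset.univ fun i => ⟨0, hd i⟩

theorem layers (hy : Function.Injective y) (hd : ∀ i, 0 < d i) {n : ℕ → k} (q : ℕ) :
    ∀ {H : ℕ → MvPolynomial σ k}, (∀ j t, eu (fun c => y ⟨t, c⟩) (H j) = n j • H j) →
    (∀ I : Fin q → Ix d, (fun j => (∏ r, ∏ i, X (y ⟨i, I r i⟩)) * H j) ∈ Md g) →
    (fun j => (∏ i, ∏ r ∈ Finset.range q, (d i + n j + r : k)) • H j) ∈ Md g := by
  induction q with
  | zero => exact fun _ h => by simpa using h Fin.elim0
  | succ q ih =>
    intro H hH h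
    refine Md_congr (ih (H := fun j => (∏ i, (d i + (q + n j) : k)) • H j) (fun j t => ?_)
      fun I => ?_) fun j => ?_
    · rw [Derivation.map_smul, hH, smul_comm]
    · refine Md_congr (layer hy hd (H := fun j => (∏ r, ∏ i, X (y ⟨i, I r i⟩)) * H j)
        (n := fun j => q + n j) (fun j t => der_mul ?_ (hH j t)) fun I₀ =>
          Md_congr (h (Fin.cons I₀ I)) fun j => ?_) fun j => ?_
      · rw [der_prod _ fun r _ => eu_ys hy t Finset.univ (I r)]
        simp
      · rw [Fin.prod_univ_succ, mul_assoc]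
        rfl
      · rw [mul_smul_comm]
    · rw [smul_smul, ← Finset.prod_mul_distrib]
      congr 1
      exact Finset.prod_congr rfl fun i _ => by rw [Finset.prod_range_succ]; ring

variable (k V d) in
/-- The substituted forms. -/
def uu (p : ℕ) (v : V) : MvPolynomial (Tv V d p) k :=
  ∑ I : Fin p → Ix d, X (.inl (v, I)) * ∏ t, ∏ i, X (.inr ⟨i, I t i⟩)

theorem tw_eq (φ : MvPolynomial V k) (p : ℕ) : tw φ d p = aeval (uu k V d p) φ := rfl

theorem pd_y {p : ℕ} (a : V × (Fin p → Ix d)) (I : Fin p → Ix d) :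
    pderiv (.inl a) (∏ t, ∏ i, X (.inr ⟨i, I t i⟩) : MvPolynomial (Tv V d p) k) = 0 := by
  rw [der_prod (a := fun _ => 0) _ fun t _ => by rw [pderiv_prod_X (by simp), zero_smul]]
  simp

theorem pd_uu {p : ℕ} (v v' : V) (I : Fin p → Ix d) : pderiv (.inl (v, I)) (uu k V d p v') =
    if v' = v then ∏ t, ∏ i, X (.inr ⟨i, I t i⟩) else 0 := by
  split_ifs with h <;> simp [uu, pd_y, pderiv_X, Pi.single_apply, h]

theorem pd_tw {p : ℕ} (v : V) (I : Fin p → Ix d) (φ : MvPolynomial V k) :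
    pderiv (.inl (v, I)) (tw φ d p) = (∏ t, ∏ i, X (.inr ⟨i, I t i⟩)) * tw (pderiv v φ) d p := by
  rw [tw_eq, chain]
  simp [pd_uu, tw_eq, mul_comm]

theorem eu_uu_y {p : ℕ} (t : α) (v : V) :
    eu (fun c => (.inr ⟨t, c⟩ : Tv V d p)) (uu k V d p v) = (p : k) • uu k V d p v := by
  rw [uu, map_sum, Finset.smul_sum]
  refine Finset.sum_congr rfl fun I _ => ?_
  rw [der_mul (a := 0) (b := (p : k)) (by simp [eu_apply, pderiv_X]), zero_add]
  rw [der_prod _ fun r _ => eu_ys Sum.inr_injective t Finset.univ (I r)]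
  simp

theorem eu_uu_x {p : ℕ} (v : V) :
    eu (Sum.inl : _ → Tv V d p) (uu k V d p v) = (1 : k) • uu k V d p v := by
  rw [eu_apply, Fintype.sum_prod_type, Finset.sum_eq_single v]
  · simp only [pd_uu, if_true, one_smul]
    rfl
  · exact fun v' _ h => by simp [pd_uu, h.symm]
  · simp

theorem euler {p : ℕ} {φ : MvPolynomial V k} {e : k} (he : e ≠ 0)
    (hφ : ∑ v, X v * pderiv v φ = e • φ) :
    ∃ E ∈ Wl k (Tv V d p), ∀ j : ℕ, E (tw φ d p ^ j) = (j : k) • tw φ d p ^ j := by
  refine ⟨e⁻¹ • ∑ a : V × (Fin p → Ix d), LinearMap.mulLeft k (X (.inl a)) *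
    (pderiv (.inl a : Tv V d p)).toLinearMap, Subalgebra.smul_mem _
      (sum_mem fun a _ => mul_mem (X_mem _) (pd_mem _)) _, fun j => ?_⟩
  have h := der_pow (der_aeval (eu_uu_x (k := k) (d := d) (p := p)) hφ) j
  rw [eu_apply, ← tw_eq] at h
  simp only [LinearMap.smul_apply, LinearMap.sum_apply, Module.End.mul_apply,
    LinearMap.mulLeft_apply, Derivation.coeFn_coe, h, smul_smul]
  congr 1
  field_simp

theorem cc_tw {p : ℕ} {φ : MvPolynomial V k} (h : constantCoeff φ = 0) :
    constantCoeff (tw φ d p) = 0 := by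
  have h1 : ∀ ψ : MvPolynomial V k, constantCoeff (tw ψ d p) = constantCoeff ψ := fun ψ => by
    rw [tw_eq]
    induction ψ using MvPolynomial.induction_on <;> simp_all [uu]
  rw [h1, h]

theorem tw_pow {p : ℕ} (φ : MvPolynomial V k) (j : ℕ) : tw φ d p ^ j = tw (φ ^ j) d p :=
  (map_pow (aeval _) _ _).symm

theorem low_of (hd : ∀ i, 0 < d i) {p : ℕ} {φ : MvPolynomial V k} {e : k} (he : e ≠ 0)
    (h0 : constantCoeff φ = 0) (hφ : ∑ v, X v * pderiv v φ = e • φ) (q : ℕ) (b : ℕ → k)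
    (h : ∀ I : Fin q → Ix d, (fun j => (∏ r, ∏ i, X (.inr ⟨i, I r i⟩)) * b j • tw φ d p ^ j) ∈
      Md (tw φ d p)) :
    Low (tw φ d p) fun j => (∏ i, ∏ r ∈ Finset.range q, (d i + p * e * j + r : k)) * b j := by
  refine ⟨cc_tw h0, euler he hφ, ?_⟩
  refine Md_congr (layers Sum.inr_injective hd (n := fun j => p * e * j) q (fun j t => ?_) h)
    fun j => smul_smul _ _ _
  rw [Derivation.map_smul, smul_comm, tw_eq, der_pow (der_aeval (eu_uu_y t) hφ) j]

theorem Qd_euler (n : ℕ) : ∑ v, X v * pderiv v (Qd k n) = (2 : k) • Qd k n := by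
  simp [Qd, Fintype.sum_option, Fintype.sum_sum_type, pderiv_X, Pi.single_apply, two_smul,
    mul_comm]
  ring

theorem Qd_lap (n j : ℕ) : pderiv none (pderiv none (Qd k n ^ (j + 1))) +
    ∑ i, (4 : k) • pderiv (some (.inl i)) (pderiv (some (.inr i)) (Qd k n ^ (j + 1))) =
      (2 * (j + 1) * (2 * j + 2 * n + 1) : k) • Qd k n ^ j := by
  have h0 : pderiv none (Qd k n) = X none + X none := by simp [Qd, pderiv_X, two_mul]
  have h1 : ∀ i, pderiv (some (.inl i)) (Qd k n) = X (some (.inr i)) := fun i => by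
    simp [Qd, pderiv_X, Pi.single_apply]
  have h2 : ∀ i, pderiv (some (.inr i)) (Qd k n) = X (some (.inl i)) := fun i => by
    simp [Qd, pderiv_X, Pi.single_apply]
  have h3 : Qd k n = X none ^ 2 + ∑ i, X (some (.inl i)) * X (some (.inr i)) := rfl
  have h4 : (j : MvPolynomial (Option (Fin n ⊕ Fin n)) k) * Qd k n ^ (j - 1) * Qd k n =
      j * Qd k n ^ j := by
    rcases j with _ | j <;> simp [pow_succ, mul_assoc]
  have h5 : ∀ i, pderiv (some (.inl i)) (pderiv (some (.inr i)) (Qd k n ^ (j + 1))) =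
      (j + 1 : MvPolynomial (Option (Fin n ⊕ Fin n)) k) *
        (Qd k n ^ j + (j : MvPolynomial _ k) * Qd k n ^ (j - 1) *
          (X (some (.inl i)) * X (some (.inr i)))) :=
    fun i => by
      simp [Derivation.leibniz_pow, h1, h2, -mul_eq_mul_left_iff]
      ring
  have h6 : pderiv none (pderiv none (Qd k n ^ (j + 1))) =
      (j + 1 : MvPolynomial (Option (Fin n ⊕ Fin n)) k) *
        (2 * Qd k n ^ j + 4 * ((j : MvPolynomial _ k) * Qd k n ^ (j - 1) * X none ^ 2)) := by
    simp [Derivation.leibniz_pow, h0, -mul_eq_mul_left_iff]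
    ring
  simp only [h5, h6, smul_eq_C_mul, ← Finset.mul_sum, Finset.sum_add_distrib, Finset.sum_const,
    Finset.card_univ, Fintype.card_fin, nsmul_eq_mul, map_mul, map_add, map_natCast, map_one,
    map_ofNat]
  rw [show ∑ i, (X (some (.inl i)) * X (some (.inr i)) :
    MvPolynomial (Option (Fin n ⊕ Fin n)) k) = Qd k n - X none ^ 2 by rw [h3]; ring]
  linear_combination (4 * (j + 1) : MvPolynomial (Option (Fin n ⊕ Fin n)) k) * h4

theorem fam1 (p : ℕ) (I : Fin p → Ix d) : (fun j : ℕ => (∏ r, ∏ i, X (.inr ⟨i, I r i⟩)) *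
    (j + 1 : k) • tw (X () : MvPolynomial Unit k) d p ^ j) ∈
      Md (tw (X () : MvPolynomial Unit k) d p) := by
  refine Md_congr (Md_start (Sum.inl ((), I))) fun j => ?_
  rw [tw_pow, pd_tw, tw_pow]
  simp [tw_eq, Derivation.leibniz_pow, smul_eq_C_mul]

theorem pd_pd {p : ℕ} (v v' : V) (I I' : Fin p → Ix d) (φ : MvPolynomial V k) :
    pderiv (.inl (v, I)) (pderiv (.inl (v', I')) (tw φ d p)) = (∏ t, ∏ i, X (.inr ⟨i, I t i⟩)) *
      (∏ t, ∏ i, X (.inr ⟨i, I' t i⟩)) * tw (pderiv v (pderiv v' φ)) d p := by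
  rw [pd_tw, pderiv_mul, pd_y, zero_mul, zero_add, pd_tw, mul_left_comm, mul_assoc]

theorem fam2 (n : ℕ) (c : k) (I : Fin 2 → Ix d) :
    (fun j : ℕ => (∏ r, ∏ i, X (.inr ⟨i, I r i⟩)) *
      (c * (2 * (j + 1) * (2 * j + 2 * n + 1)) : k) • tw (C c * Qd k n) d 1 ^ j) ∈
        Md (tw (C c * Qd k n) d 1) := by
  have h1 := Md_pd (Md_start (g := tw (C c * Qd k n) d 1) (Sum.inl (none, fun _ => I 1)))
    (Sum.inl (none, fun _ => I 0))
  have h2 := Md_sum fun i : Fin n => Submodule.smul_mem _ (4 : k)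
    (Md_pd (Md_start (g := tw (C c * Qd k n) d 1) (Sum.inl (some (Sum.inr i), fun _ => I 1)))
      (Sum.inl (some (Sum.inl i), fun _ => I 0)))
  refine Md_congr (add_mem h1 h2) fun j => ?_
  have h : pderiv none (pderiv none ((C c * Qd k n) ^ (j + 1))) + ∑ i, (4 : k) •
      pderiv (some (.inl i)) (pderiv (some (.inr i)) ((C c * Qd k n) ^ (j + 1))) =
      (c * (2 * (j + 1) * (2 * j + 2 * n + 1)) : k) • (C c * Qd k n) ^ j := by
    simp only [C_mul', smul_pow, Derivation.map_smul, smul_comm (4 : k) (c ^ _),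
      ← Finset.smul_sum (r := c ^ _), ← smul_add]
    rw [Qd_lap, smul_smul, smul_smul]
    congr 1
    ring
  have h' := congrArg (aeval (uu k _ d 1)) h
  simp only [map_add, map_sum, map_smul, ← tw_eq] at h'
  simp only [Pi.add_apply, Pi.smul_apply, tw_pow, pd_pd, ← mul_smul_comm, ← Finset.mul_sum,
    ← mul_add, h', Fin.prod_univ_two, Fin.prod_univ_one]

end LowTw

open LowTw

theorem low {k : Type} [Field k] [CharZero k] : LowStmt k := by
  refine fun m d hd => ⟨fun p => ?_, fun n c hc => ?_⟩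
  · have h := low_of (k := k) (φ := X ()) (e := 1) (p := p) hd one_ne_zero (by simp) (by simp) p
      (fun j => j + 1) (fam1 p)
    exact h.smul 1 fun j => by simp [mul_comm]
  · have h := low_of (k := k) (φ := C c * Qd k n) (e := 2) (p := 1) hd two_ne_zero (by simp [Qd])
      (by simp only [pderiv_C_mul, mul_left_comm (X _), ← Finset.mul_sum, Qd_euler, mul_smul_comm])
      2 (fun j => c * (2 * (j + 1) * (2 * j + 2 * n + 1))) (fam2 n c)
    refine h.smul (2 * c)⁻¹ fun j => ?_
    simp only [Finset.prod_range_succ, Finset.prod_range_zero, one_mul, Nat.cast_one,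
      Nat.cast_zero, add_zero]
    field_simp

end

end Pool.Agent.P.MP_b91a16_ag.JB
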