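import Pool.Agent.P.MP_b91a16_ag.JB.Base

/-! Twisted compositions are stably nondegenerate. -/

set_option linter.unusedSectionVars false

open MvPolynomial Finsupp

namespace Pool.Agent.P.MP_b91a16_ag.JB

noncomputable section

open St Dt

namespace Nd

variable {k σ τ ρ ζ Λ : Type} [Field k] [Fintype σ] [DecidableEq σ] [Fintype τ] [DecidableEq τ]
  [Fintype ρ] [DecidableEq ρ] [Fintype ζ] [DecidableEq ζ] [Fintype Λ] [DecidableEq Λ]

variable {F : MvPolynomial (ρ ⊕ ζ) k} {g : ρ → MvPolynomial σ k} {zz : ζ → σ}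

theorem mono_ne {x : σ → AlgebraicClosure k} (hx : ∀ j, x j ≠ 0) (v : σ →₀ ℕ) {c : k}
    (hc : c ≠ 0) : aeval x (monomial v c) ≠ 0 := by
  rw [aeval_monomial]
  exact mul_ne_zero ((map_ne_zero _).2 hc)
    (Finset.prod_ne_zero_iff.2 fun j _ => pow_ne_zero _ (hx j))

theorem nd_cy' (hF : ND F) (bl : Λ → ρ) (zv : Λ → σ) (ev : Λ → σ →₀ ℕ) (c c' : Λ → k)
    (hc' : ∀ l, c' l ≠ 0) (hg : ∀ i, g i = ∑ l with bl l = i, X (zv l) * monomial (ev l) (c l))
    (hd : ∀ l i, pderiv (zv l) (g i) = if bl l = i then monomial (ev l) (c' l) else 0)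
    (hz : ∀ l j, zz j ≠ zv l) (hzz : Function.Injective zz) : ND (cy F g zz) := by
  classical
  intro w hw h1 h2 x hx
  let η : Λ → MvPolynomial (σ ⊕ ρ ⊕ ρ) k := fun l => monomial (mapDomain Sum.inl (ev l)) (c' l)
  let ω : Λ → ℝ := fun l => weight w (mapDomain Sum.inl (ev l)) + w (.inl (zv l))
  have h3 : ∀ t p, (∀ j, pderiv j (hc w t (cy F g zz)) = p → p ≠ 0 → 1 ≤ t) := fun t p j e hp =>
    not_lt.1 fun ht => hp (by rw [← e, h1 t ht, map_zero])
  have d0 : ∀ l i, pderiv (.inl (zv l)) (rename Sum.inl (g i) : MvPolynomial (σ ⊕ ρ ⊕ ρ) k) =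
      if bl l = i then η l else 0 := fun l i => by
    rw [pderiv_rename Sum.inl_injective, hd, apply_ite (rename _), rename_monomial, map_zero]
  have dZ : ∀ l, pderiv (.inl (zv l)) (cy F g zz) = (if St.lin F (.inl (bl l)) = 0 then
      -X (.inr (.inr (bl l))) else aeval (fun a => rename (Sum.map id Sum.inl) (vv F g zz a))
        (pderiv (.inl (bl l)) F)) * η l := fun l => by
    rw [cy, map_add, chain, Fintype.sum_sum_type, Finset.sum_eq_single (bl l), map_sum,
      Finset.sum_eq_single (bl l)]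
    · by_cases h : St.lin F (.inl (bl l)) = 0 <;> simp [vv, ee, h, d0, hz, Function.comp_def]
    · intro i _ hi
      by_cases h : St.lin F (.inl i) = 0 <;> simp [ee, h, d0, hi.symm]
    · simp
    · intro i _ hi
      by_cases h : St.lin F (.inl i) = 0 <;> simp [vv, h, d0, hi.symm, Function.comp_def]
    · simp
  have dY : ∀ i, pderiv (.inr (.inr i)) (cy F g zz) =
      X (.inr (.inl i)) - rename Sum.inl (ee F g i) := fun i => by
    rw [cy, map_add, chain, Finset.sum_eq_zero fun a _ => ?_]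
    · simp [pderiv_rename_inr, pderiv_X, Pi.single_apply]
    · refine mul_eq_zero_of_right _ (pderiv_eq_zero_of_notMem_vars fun h => ?_)
      obtain ⟨_ | _, -, h⟩ := mem_vars_rename _ _ h <;> simp at h
  have hη : ∀ l, aeval x (η l) ≠ 0 := fun l => mono_ne hx _ (hc' l)
  have A0 : ∀ l, St.lin F (.inl (bl l)) = 0 → pderiv (.inl (zv l)) (hc w
      (w (.inr (.inr (bl l))) + ω l) (cy F g zz)) = -X (.inr (.inr (bl l))) * η l := fun l h => by
    rw [pderiv_hc, dZ, if_pos h, hc_mul, map_neg, hc_X, if_pos (by simp only [ω]; ring)]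
  have A1 : ∀ l, St.lin F (.inl (bl l)) ≠ 0 → pderiv (.inl (zv l)) (hc w (ω l) (cy F g zz)) =
      C (St.lin F (.inl (bl l))) * η l := fun l h => by
    rw [pderiv_hc, dZ, if_neg h, hc_mul, show ω l - _ - _ = 0 by simp [ω], hc_zero hw]
    congr 2
    simpa [St.lin] using algHom_aeval (aeval (0 : σ ⊕ ρ ⊕ ρ → k)) (fun a => rename
      (Sum.map id Sum.inl) (vv F g zz a)) 0 (by rintro (i | j) <;> simp [vv, hg, apply_ite])
      (pderiv (.inl (bl l)) F)
  by_cases c0 : ∃ l, St.lin F (.inl (bl l)) = 0 ∧ w (.inr (.inr (bl l))) + ω l = 1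
  · obtain ⟨l, h, e⟩ := c0
    exact ⟨_, by rw [← e, A0 l h]; simpa using ⟨hx _, hη l⟩⟩
  by_cases c1 : ∃ l, St.lin F (.inl (bl l)) ≠ 0 ∧ ω l = 1
  · obtain ⟨l, h, e⟩ := c1
    exact ⟨_, by rw [← e, A1 l h]; simpa using ⟨h, hη l⟩⟩
  have b0 : ∀ l, St.lin F (.inl (bl l)) = 0 → 1 < w (.inr (.inr (bl l))) + ω l := fun l h =>
    (h3 _ _ _ (A0 l h) fun e => by simpa [hx, hη] using congrArg (aeval x) e).lt_of_ne'
      fun e => c0 ⟨l, h, e⟩
  have b1 : ∀ l, St.lin F (.inl (bl l)) ≠ 0 → 1 < ω l := fun l h =>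
    (h3 _ _ _ (A1 l h) fun e => by simpa [h, hη] using congrArg (aeval x) e).lt_of_ne'
      fun e => c1 ⟨l, h, e⟩
  have hg' : ∀ i, rename Sum.inl (g i) = ∑ l with bl l = i, monomial (mapDomain Sum.inl (ev l) +
      single (.inl (zv l) : σ ⊕ ρ ⊕ ρ) 1) (c l) := fun i => by
    simp [hg i, rename_monomial, X, monomial_mul, add_comm, mapDomain_add]
  by_cases c2 : ∃ i, w (.inr (.inr i)) + w (.inr (.inl i)) = 1
  · obtain ⟨i, e⟩ := c2
    refine ⟨.inr (.inr i), ?_⟩
    rw [pderiv_hc, dY, map_sub, hc_X, if_pos (by linarith), ee]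
    split_ifs with h
    · rw [hg', map_sum, Finset.sum_eq_zero fun l hl => ?_]
      · simpa using hx _
      obtain rfl := (Finset.mem_filter.1 hl).2
      have := b0 l h
      rw [hc_monomial, if_neg (by simp only [map_add, weight_single, one_smul, ω] at this ⊢; linarith)]
    · simpa using hx _
  have b2 : ∀ i, 1 < w (.inr (.inr i)) + w (.inr (.inl i)) := fun i =>
    (h3 _ _ (.inr (.inr i)) rfl fun e => by
      have := congrArg (pderiv (.inr (.inl i))) e
      rw [pderiv_hc, pderiv_hc, dY, add_sub_cancel_left, sub_self, hc_zero hw] at this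
      simp [pderiv_rename_inr] at this).lt_of_ne' fun e => c2 ⟨i, e⟩
  let ok : ρ ⊕ ζ → Prop := Sum.elim (fun i => St.lin F (.inl i) = 0) fun _ => True
  let ι : ρ ⊕ ζ → σ ⊕ ρ ⊕ ρ := Sum.elim (fun i => .inr (.inl i)) fun j => .inl (zz j)
  have hι : Function.Injective ι := by rintro (i | i) (j | j) <;> simp [ι, hzz.eq_iff]
  let w' : ρ ⊕ ζ → ℝ := fun a => if ok a then w (ι a) else 2
  have hw' : ∀ a, 0 < w' a := fun a => by
    simp only [w']
    split_ifs
    exacts [hw _, two_pos]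
  let F₀ : MvPolynomial {a // ok a} k := aeval (fun a => if h : ok a then X ⟨a, h⟩ else 0) F
  have e1 : ∀ t ≤ 1, hc w' t F = rename Subtype.val (hc (w ∘ ι ∘ Subtype.val) t F₀) := fun t ht => by
    rw [show w ∘ ι ∘ Subtype.val = w' ∘ Subtype.val from funext fun a => (if_pos a.2).symm,
      ← hc_rename, ← algHom_aeval (rename Subtype.val) _ _ (fun _ => rfl) F |>.symm]
    refine hc_eq_of_Big ?_ ht
    conv => enter [2, 1]; rw [← aeval_X_left_apply F]
    refine aeval_sub_mem (fun a => ?_) F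
    split_ifs with h
    · simp
    · simpa [X] using monomial_mem_Big (v := single a 1) hw' (by simp [weight_single, w', h]) (1 : k)
  have e2 : ∀ t ≤ 1, hc w t (cy F g zz) =
      rename (ι ∘ Subtype.val) (hc (w ∘ ι ∘ Subtype.val) t F₀) := fun t ht => by
    rw [← hc_rename, ← algHom_aeval (rename (ι ∘ Subtype.val)) _ _ (fun _ => rfl) F |>.symm]
    refine hc_eq_of_Big ?_ ht
    rw [cy, add_sub_right_comm]
    refine add_mem (aeval_sub_mem ?_ F) (sum_mem fun i _ => ?_)
    · rintro (i | j)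
      · by_cases h : St.lin F (.inl i) = 0
        · simp [vv, ok, ι, h]
        · rw [dif_neg (show ¬ ok (.inl i) from h), map_zero, sub_zero]
          simp only [vv, h, Sum.elim_inl, if_false, rename_rename]
          rw [show (Sum.map id Sum.inl ∘ Sum.inl : σ → σ ⊕ ρ ⊕ ρ) = Sum.inl from rfl, hg']
          refine sum_mem fun l hl => monomial_mem_Big hw ?_ _
          obtain rfl := (Finset.mem_filter.1 hl).2
          simpa [weight_single, ω] using b1 l h
      · simp [vv, ok, ι]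
    · rw [sub_mul]
      refine sub_mem ?_ ?_
      · rw [X, X, monomial_mul]
        exact monomial_mem_Big hw (by simpa [weight_single, add_comm] using b2 i) _
      · rw [ee]
        split_ifs with h
        · rw [hg', Finset.sum_mul]
          refine sum_mem fun l hl => ?_
          obtain rfl := (Finset.mem_filter.1 hl).2
          rw [X, monomial_mul]
          exact monomial_mem_Big hw (by simpa [weight_single, add_comm, ω] using b0 l h) _
        · simp
  have hι' := hι.comp (Subtype.val_injective (p := ok))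
  rw [e2 1 le_rfl, reg_rename hι', ← Function.comp_assoc x, ← reg_rename Subtype.val_injective,
    ← e1 1 le_rfl]
  refine hF w' hw' (fun t ht => ?_) (fun e => h2 ?_) _ fun a => hx _
  · have := h1 t ht
    rw [e2 t ht.le, map_eq_zero_iff _ (rename_injective _ hι')] at this
    rw [e1 t ht.le, this, map_zero]
  · rw [e1 1 le_rfl, map_eq_zero_iff _ (rename_injective _ Subtype.val_injective)] at e
    rw [e2 1 le_rfl, e, map_zero]

/-- Equality up to a polynomial change of coordinates that is invertible at the origin. -/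
def Eqv (f G : MvPolynomial σ k) : Prop := ∃ φ : σ → MvPolynomial σ k,
  (∀ a, constantCoeff (φ a) = 0) ∧ (Matrix.of fun a j => St.lin (φ a) j).det ≠ 0 ∧ aeval φ f = G

theorem cc_aeval {φ : σ → MvPolynomial τ k} (h : ∀ a, constantCoeff (φ a) = 0)
    (p : MvPolynomial σ k) : constantCoeff (aeval φ p) = constantCoeff p := by
  simpa using algHom_aeval (aeval (0 : τ → k)) φ 0 (fun a => by simpa using h a) p

theorem Eqv.trans {f G H : MvPolynomial σ k} (h : Eqv f G) (h' : Eqv G H) : Eqv f H := by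
  obtain ⟨φ, a0, a1, rfl⟩ := h
  obtain ⟨ψ, b0, b1, rfl⟩ := h'
  refine ⟨fun a => aeval ψ (φ a), fun a => by rw [cc_aeval b0, a0], ?_, (aeval_aeval _ _).symm⟩
  have : (Matrix.of fun a j => St.lin (aeval ψ (φ a)) j) =
      (Matrix.of fun a j => St.lin (φ a) j) * Matrix.of fun a j => St.lin (ψ a) j := by
    ext a j
    simp only [Matrix.of_apply, Matrix.mul_apply, St.lin]
    rw [chain, map_sum]
    exact Finset.sum_congr rfl fun b _ => by rw [map_mul, cc_aeval b0]
  rw [this, Matrix.det_mul]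
  exact mul_ne_zero a1 b1

theorem lin_ren {ε : σ → τ} (hε : Function.Injective ε) (p : MvPolynomial σ k) (j : σ) :
    St.lin (rename ε p) (ε j) = St.lin p j := by
  rw [St.lin, pderiv_rename hε, constantCoeff_rename, St.lin]

theorem Eqv.hyp {f G : MvPolynomial σ k} (h : Eqv f G) (ρ : Type) [Fintype ρ] [DecidableEq ρ] :
    Eqv (hyp ρ f) (hyp ρ G) := by
  obtain ⟨φ, a0, a1, rfl⟩ := h
  refine ⟨Sum.elim (fun a => rename Sum.inl (φ a)) fun b => X (.inr b), ?_, ?_, ?_⟩
  · rintro (a | b) <;> simp [a0]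
  · have : (Matrix.of fun a j => St.lin (Sum.elim (fun a => rename Sum.inl (φ a))
        (fun b : ρ ⊕ ρ => (X (.inr b) : MvPolynomial (σ ⊕ ρ ⊕ ρ) k)) a) j) =
        Matrix.fromBlocks (Matrix.of fun a j => St.lin (φ a) j) 0 0 1 := by
      ext (a | a) (j | j)
      · simp [lin_ren Sum.inl_injective]
      · simp [lin_rename]
      · simp [lin_X]
      · simp [lin_X, Matrix.one_apply]
    rw [this, Matrix.det_fromBlocks_zero₂₁]
    simpa using a1
  · rw [aeval_hyp, St.hyp, algHom_aeval (rename Sum.inl) φ _ (fun _ => rfl)]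
    rfl

theorem Eqv.rename {f G : MvPolynomial σ k} (h : Eqv f G) (e : σ ≃ τ) :
    Eqv (rename e f) (rename e G) := by
  obtain ⟨φ, a0, a1, rfl⟩ := h
  refine ⟨fun a => MvPolynomial.rename e (φ (e.symm a)), fun a => by simp [a0], ?_, ?_⟩
  · rw [← Matrix.det_submatrix_equiv_self e]
    convert a1 using 2
    ext a j
    simp [lin_ren e.injective]
  · rw [aeval_rename]
    exact (algHom_aeval (MvPolynomial.rename e) φ _ (fun a => by simp) f).symm

theorem stably₂ {n : ℕ} {ρ' : Type} [Fintype ρ'] [DecidableEq ρ'] {f : MvPolynomial σ k}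
    {G : MvPolynomial ((σ ⊕ ρ ⊕ ρ) ⊕ ρ' ⊕ ρ') k} (h : Eqv (hyp ρ' (hyp ρ f)) G) (hG : ND G)
    (ε : σ ≃ Fin n) : StablyNondeg (rename ε f) := by
  let e := Fintype.equivFin (ρ ⊕ ρ')
  let E : (σ ⊕ ρ ⊕ ρ) ⊕ ρ' ⊕ ρ' ≃ σ ⊕ Fin _ ⊕ Fin _ := (Equiv.sumAssoc _ _ _).trans
    ((Equiv.refl σ).sumCongr ((Equiv.sumSumSumComm ρ ρ ρ' ρ').trans (e.sumCongr e)))
  have h1 : rename E (hyp ρ' (hyp ρ f)) = hyp (Fin (Fintype.card (ρ ⊕ ρ'))) f := by
    rw [hyp, hyp, hyp, ← e.sum_comp, Fintype.sum_sum_type]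
    simp [E, add_assoc, Function.comp_def]
  obtain ⟨φ, a0, a1, a2⟩ := h.rename E
  rw [h1] at a2
  exact stably a0 a1 a2 (hG.rename E) ε

/-- The auxiliary polynomial commutes with substitutions. -/
theorem cy_subst (u : σ → MvPolynomial τ k) (zz' : ζ → τ) (hz : ∀ j, u (zz j) = X (zz' j)) :
    aeval (Sum.elim (fun a => rename Sum.inl (u a)) fun b => X (.inr b)) (cy F g zz) =
      cy F (fun i => aeval u (g i)) zz' := by
  have h1 : ∀ p : MvPolynomial σ k, aeval (Sum.elim (fun a => rename Sum.inl (u a))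
      fun b : ρ ⊕ ρ => (X (.inr b) : MvPolynomial (τ ⊕ ρ ⊕ ρ) k)) (rename Sum.inl p) =
      rename Sum.inl (aeval u p) := fun p => by
    rw [aeval_rename, algHom_aeval (rename Sum.inl) u _ (fun _ => rfl)]
    rfl
  rw [cy, cy, map_add, map_sum]
  congr 1
  · refine algHom_aeval _ _ _ ?_ F
    rintro (i | j)
    · by_cases h : St.lin F (.inl i) = 0
      · simp [vv, h]
      · simp only [vv, h, Sum.elim_inl, if_false, rename_rename]
        exact h1 _
    · simp [vv, hz]
  · refine Finset.sum_congr rfl fun i _ => ?_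
    rw [map_mul, map_sub, h1]
    by_cases h : St.lin F (.inl i) = 0 <;> simp [ee, h]

theorem nd_one {r : ℕ} {V : Fin r → Type} [∀ i, Fintype (V i)] [∀ i, DecidableEq (V i)]
    {g : ∀ i, MvPolynomial (V i) k} {F : MvPolynomial (Fin r ⊕ ζ) k} (hF : ND F)
    (hg : ∀ i, PV (g i)) :
    ND (cy F (fun i => rename (fun a => (.inl ⟨i, a⟩ : (Σ i, V i) ⊕ ζ)) (g i)) Sum.inr) := by
  classical
  choose L hL zv ev c c' h0 h1 h2 using hg
  have hi : ∀ i, Function.Injective fun a : V i => (.inl ⟨i, a⟩ : (Σ i, V i) ⊕ ζ) :=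
    fun i a b h => by simpa using h
  refine nd_cy' (Λ := Σ i, L i) hF Sigma.fst (fun l => .inl ⟨l.1, zv l.1 l.2⟩)
    (fun l => mapDomain (fun a => .inl ⟨l.1, a⟩) (ev l.1 l.2)) (fun l => c l.1 l.2)
    (fun l => c' l.1 l.2) (fun l => h0 _ _) (fun i => ?_) (fun ⟨i, l⟩ j => ?_) (by simp)
    Sum.inr_injective
  · rw [Finset.sum_filter, Fintype.sum_sigma, Finset.sum_eq_single i (by simp +contextual) (by simp)]
    conv_lhs => rw [h1 i]
    simp [rename_monomial]
  · split_ifs with h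
    · obtain rfl : i = j := h
      rw [pderiv_rename (hi i), h2, rename_monomial]
    · refine pderiv_eq_zero_of_notMem_vars fun h' => ?_
      obtain ⟨a, -, ha⟩ := mem_vars_rename _ _ h'
      exact h (congrArg Sigma.fst (Sum.inl_injective ha)).symm

theorem pv_cc {V : Type} [Fintype V] [DecidableEq V] {g : MvPolynomial V k} (h : PV g) :
    constantCoeff g = 0 := by
  obtain ⟨L, _, zv, ev, c, c', -, h1, -⟩ := h
  rw [h1]
  simp

theorem pderiv_pp {ι κ : Type} [Fintype ι] [Fintype κ] {v : ι → κ → σ} {a : σ}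
    (h : ∀ t i, v t i ≠ a) : pderiv a (∏ t, ∏ i, X (v t i) : MvPolynomial σ k) = 0 := by
  rw [← Fintype.prod_prod_type' (fun t i => (X (v t i) : MvPolynomial σ k))]
  exact pderiv_prod_X fun i _ => h _ _

end Nd

open Nd in
theorem nd {k : Type} [Field k] [CharZero k] : NdStmt k := by
  intro r N ζ _ _ V _ _ g m p d F hF hg ε
  classical
  let σ := (Σ i, Tv (V i) (d i) (p i)) ⊕ ζ
  let τ := σ ⊕ Fin r ⊕ Fin r
  let y : ∀ i, (Fin (p i) → Ix (d i)) → MvPolynomial τ k := fun i I =>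
    ∏ t, ∏ s, X (.inl (.inl ⟨i, .inr ⟨s, I t s⟩⟩))
  let u : (Σ i, V i) → MvPolynomial σ k := fun v => ∑ I : Fin (p v.1) → Ix (d v.1),
    X (.inl ⟨v.1, .inl (v.2, I)⟩) * ∏ t, ∏ s, X (.inl ⟨v.1, .inr ⟨s, I t s⟩⟩)
  let u' : (Σ i, V i) → MvPolynomial τ k := fun v => rename Sum.inl (u v)
  have hu' : ∀ v, u' v = ∑ I : Fin (p v.1) → Ix (d v.1),
      X (.inl (.inl ⟨v.1, .inl (v.2, I)⟩)) * y v.1 I := fun v => by simp [u', u, y]
  let zz : ζ ⊕ Fin r ⊕ Fin r → τ := Sum.elim (fun j => .inl (.inr j)) Sum.inr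
  let g₁ : Fin r → MvPolynomial ((Σ i, V i) ⊕ ζ) k := fun i =>
    rename (fun a => .inl ⟨i, a⟩) (g i)
  let g₂ : Fin r → MvPolynomial σ k := fun i =>
    rename (fun a => .inl ⟨i, a⟩) (tw (g i) (d i) (p i))
  let F' := rename (Equiv.sumAssoc _ _ _) (cy F g₁ Sum.inr)
  have hF' : ND F' := (nd_one hF hg).rename _
  have e1 : g₂ = fun i => aeval (Sum.elim u fun j => X (.inr j)) (g₁ i) := funext fun i => by
    simp only [g₁, g₂, tw]
    rw [aeval_rename]
    exact algHom_aeval _ _ _ (fun v => by simp [u]) _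
  have e2 : aeval (Sum.elim u' fun j => X (zz j)) F' = cy F g₂ Sum.inr := by
    rw [e1, ← cy_subst (zz := Sum.inr) (Sum.elim u fun j => X (.inr j)) Sum.inr fun _ => rfl,
      aeval_rename]
    refine congrArg (aeval · _) (funext ?_)
    rintro ((v | j) | b) <;> simp [u', zz]
  have hu : ∀ v, constantCoeff (u v) = 0 := fun v => by simp [u]
  have A : Eqv (hyp (Fin r) (sA (fun i => tw (g i) (d i) (p i)) F)) (cy F g₂ Sum.inr) :=
    exists_change (F := F) (g := g₂) (zz := Sum.inr) fun i => by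
      rw [e1]
      dsimp only
      rw [cc_aeval (by rintro (v | j) <;> simp [hu]), constantCoeff_rename, pv_cc (hg i)]
  have B : Eqv (hyp (Σ i, V i) (cy F g₂ Sum.inr)) (cy F' u' zz) := by
    rw [← e2]
    exact exists_change fun v => by simp [u', hu]
  have hy : ∀ i I, y i I = monomial (∑ t, ∑ s,
      Finsupp.single (.inl (.inl ⟨i, .inr ⟨s, I t s⟩⟩) : τ) 1) 1 := fun i I => by
    simp only [monomial_sum_one]
    rfl
  refine stably₂ ((A.hyp _).trans B) (nd_cy (Λ := Σ v : Σ i, V i, Fin (p v.1) → Ix (d v.1)) hF'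
    Sigma.fst (fun l => .inl (.inl ⟨l.1.1, .inl (l.1.2, l.2)⟩))
    (fun l => ∑ t, ∑ s, Finsupp.single (.inl (.inl ⟨l.1.1, .inr ⟨s, l.2 t s⟩⟩)) 1) (fun v => ?_)
    (fun ⟨v, I⟩ v' => ?_) ?_ ?_) ε
  · rw [Finset.sum_filter, Fintype.sum_sigma, Finset.sum_eq_single v (by simp +contextual) (by simp)]
    simp [hu', hy]
  · have hp : ∀ i J, pderiv (.inl (.inl ⟨v.1, .inl (v.2, I)⟩) : τ) (y i J) = 0 := fun i J =>
      pderiv_pp fun t s h => by
        have h1 := Sum.inl_injective (Sum.inl_injective h)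
        obtain rfl : i = v.1 := congrArg Sigma.fst h1
        simp at h1
    rw [hu', map_sum]
    simp only [Derivation.leibniz, hp, mul_zero, zero_add, smul_eq_mul]
    split_ifs with h
    · obtain rfl : v = v' := h
      rw [Finset.sum_eq_single I (fun J _ hJ => mul_eq_zero_of_right _ (pderiv_X_of_ne fun h' => hJ (by
        have h1 := Sum.inl_injective (Sum.inl_injective h')
        simpa using h1))) (by simp), ← hy]
      simp
    · refine Finset.sum_eq_zero fun J _ => mul_eq_zero_of_right _ (pderiv_X_of_ne fun h' => h ?_)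
      obtain ⟨i, a⟩ := v
      obtain ⟨i', a'⟩ := v'
      have h1 := Sum.inl_injective (Sum.inl_injective h')
      obtain rfl : i' = i := congrArg Sigma.fst h1
      simp only [Sigma.mk.injEq, heq_eq_eq, true_and, Sum.inl.injEq, Prod.mk.injEq] at h1
      rw [h1.1]
  · rintro l (j | j) <;> simp [zz]
  · rintro (j | j) (j' | j') h
    · rw [Sum.inr_injective (Sum.inl_injective h)]
    · simp [zz] at h
    · simp [zz] at h
    · rw [Sum.inr_injective h]

end

end Pool.Agent.P.MP_b91a16_ag.JB
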