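import Pool.Agent.P.MP_b91a16_ag.JB.Base

/-! The abstract recursion for Cayley identities. -/

set_option linter.unusedSectionVars false

open MvPolynomial

namespace Pool.Agent.P.MP_b91a16_ag.JB

noncomputable section

open St Dt

namespace Peirce

variable {k β β' : Type} [Field k] [CharZero k] [Fintype β] [DecidableEq β] [Fintype β']
  [DecidableEq β']

theorem pd_comm (i j : β) (p : MvPolynomial β k) :
    pderiv i (pderiv j p) = pderiv j (pderiv i p) := by
  ext e
  simp only [coeff_pderiv, add_right_comm e (Finsupp.single i 1), Finsupp.add_apply]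
  by_cases h : i = j
  · rw [h]
  · simp [Finsupp.single_eq_of_ne h, Finsupp.single_eq_of_ne (Ne.symm h)]
    ring

theorem pd_rename {ε : β' → β} {x : β} (h : ∀ i, ε i ≠ x) (u : MvPolynomial β' k) :
    pderiv x (rename ε u) = 0 := by
  induction u using MvPolynomial.induction_on with
  | C c => simp
  | add p q hp hq => simp [hp, hq]
  | mul_X p i hp => simp [hp, pderiv_X_of_ne (h i)]

theorem coeff_euler (j : β) (p : MvPolynomial β k) (e : β →₀ ℕ) :
    coeff e (X j * pderiv j p) = e j * coeff e p := by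
  induction p using MvPolynomial.induction_on' with
  | add p q hp hq => simp [mul_add, hp, hq]
  | monomial s c =>
    rw [X_mul_pderiv_monomial, coeff_smul, coeff_monomial]
    split_ifs with h
    · simp [h]
    · simp

/-- Setting the variables in `R` to zero. -/
def pr (R : Finset β) : MvPolynomial β k →ₐ[k] MvPolynomial β k :=
  aeval fun j => if j ∈ R then 0 else X j

theorem pr_X (R : Finset β) (j : β) :
    pr R (X j : MvPolynomial β k) = if j ∈ R then 0 else X j := aeval_X _ _

theorem pr_monomial {R : Finset β} {e : β →₀ ℕ} (h : ∀ ρ ∈ R, e ρ = 0) (c : k) :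
    pr R (monomial e c) = monomial e c := by
  rw [pr, aeval_monomial, monomial_eq, algebraMap_eq]
  congr 1
  refine Finsupp.prod_congr fun j hj => ?_
  rw [if_neg fun hR => (Finsupp.mem_support_iff.1 hj) (h j hR)]

theorem pr_pderiv {R : Finset β} {a : β} (ha : a ∉ R) (p : MvPolynomial β k) :
    pr R (pderiv a p) = pderiv a (pr R p) := by
  induction p using MvPolynomial.induction_on with
  | C c => simp [pr]
  | add p q hp hq => simp [hp, hq]
  | mul_X p j hp =>
    rw [map_mul (pr R), pderiv_mul, pderiv_mul, map_add, map_mul, map_mul, hp, pr_X]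
    congr 2
    split_ifs with h
    · rw [pderiv_X_of_ne (ne_of_mem_of_not_mem h ha), map_zero, map_zero]
    · by_cases e : j = a
      · rw [e, pderiv_X_self, map_one]
      · rw [pderiv_X_of_ne e, map_zero]

theorem pr_of_euler {R : Finset β} {a : β} {Q : MvPolynomial β k}
    (h : 2 * (X a * pderiv a Q) + ∑ ρ ∈ R, X ρ * pderiv ρ Q = 0) : pr R Q = Q := by
  conv_lhs => rw [Q.as_sum]
  conv_rhs => rw [Q.as_sum]
  rw [map_sum]
  refine Finset.sum_congr rfl fun e he => pr_monomial (fun ρ hρ => ?_) _
  have h1 := congrArg (coeff e) h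
  rw [coeff_add, two_mul, coeff_add, coeff_sum] at h1
  simp only [coeff_euler, coeff_zero, ← Finset.sum_mul, ← add_mul] at h1
  have h2 := (mul_eq_zero.1 h1).resolve_right (mem_support_iff.1 he)
  have h3 : e a + e a + ∑ ρ ∈ R, e ρ = 0 := by exact_mod_cast h2
  exact Finset.sum_eq_zero_iff.1 (by omega) ρ hρ

theorem fw_pr (w : β → k) (R : Finset β) (u : MvPolynomial β k) : ∀ h : MvPolynomial β k,
    (∀ ρ ∈ R, pderiv ρ h = 0) → fw w u h = fw w (pr R u) h := by
  induction u using MvPolynomial.induction_on with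
  | C c => intro h _; simp [pr]
  | add p q hp hq => intro h hh; simp [hp h hh, hq h hh]
  | mul_X p j hp =>
    intro h hh
    rw [map_mul (pr R), pr_X, mul_comm p, fw_X_mul]
    split_ifs with hj
    · simp [hh j hj]
    · rw [mul_comm (pr R p), fw_X_mul, hp _ fun ρ hρ => by rw [pd_comm, hh ρ hρ, map_zero]]

theorem fw_rename (w : β → k) (ε : β' ↪ β) (A : MvPolynomial β' k) : ∀ B : MvPolynomial β' k,
    fw w (rename ε A) (rename ε B) = fw (w ∘ ε) A B := by
  induction A using MvPolynomial.induction_on with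
  | C c =>
    intro B
    rw [rename_C, ← mul_one (C c : MvPolynomial β k), ← mul_one (C c : MvPolynomial β' k), C_mul',
      C_mul', map_smul, map_smul, LinearMap.smul_apply, LinearMap.smul_apply, fw_one, fw_one,
      constantCoeff_rename]
  | add p q hp hq => intro B; simp [hp B, hq B]
  | mul_X p j hp =>
    intro B
    rw [map_mul, rename_X, mul_comm p, mul_comm (rename ε p), fw_X_mul, fw_X_mul,
      pderiv_rename ε.injective, hp]
    rfl

theorem fw_pow (w : β → k) {ε : β' ↪ β} {a : β} (ha : ∀ i, ε i ≠ a) (A B : MvPolynomial β' k)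
    (j i : ℕ) : fw w (X a ^ j * rename ε A) (X a ^ i * rename ε B) =
      (if i = j then w a ^ j * j.factorial else 0) * fw (w ∘ ε) A B := by
  induction j generalizing i with
  | zero =>
    rcases i with _ | i
    · simp [fw_rename]
    · rw [pow_succ', mul_assoc, fw_mul_X]
      simp [pd_rename ha]
  | succ j ih =>
    rw [pow_succ', mul_assoc, fw_X_mul, pderiv_mul, pd_rename ha, mul_zero, add_zero, pderiv_pow,
      pderiv_X_self, mul_one, mul_assoc, ← nsmul_eq_mul, map_nsmul, ih]
    rcases i with _ | i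
    · simp
    · simp only [Nat.add_sub_cancel, add_left_inj, nsmul_eq_mul]
      split_ifs with h
      · rw [h, Nat.factorial_succ]
        push_cast
        ring
      · simp

/-- The derivation attached to `ρ`. -/
def Z (a : β) (R : Finset β) (ε : β' → β) (κ : k) (l : β → MvPolynomial β' k) (ρ : β)
    (v : MvPolynomial β k) : MvPolynomial β k :=
  C κ * X ρ * pderiv a v + ∑ σ ∈ R, rename ε (l σ) * pderiv σ v

theorem Z_mul (a : β) (R : Finset β) (ε : β' → β) (κ : k) (l : β → MvPolynomial β' k) (ρ : β)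
    (u v : MvPolynomial β k) :
    Z a R ε κ l ρ (u * v) = Z a R ε κ l ρ u * v + u * Z a R ε κ l ρ v := by
  simp only [Z, pderiv_mul, mul_add, add_mul, Finset.sum_add_distrib, Finset.sum_mul,
    Finset.mul_sum, mul_assoc, mul_left_comm u]
  ring

/-- A functional that kills the images of the derivations and the polynomials without the
variables in `R` vanishes. -/
theorem reduce {a : β} {R : Finset β} {ε : β' ↪ β} (ha : a ∉ R) (hε : ∀ i, ε i ≠ a ∧ ε i ∉ R)
    (hc : ∀ j, j = a ∨ j ∈ R ∨ ∃ i, ε i = j) (L : MvPolynomial β k →ₗ[k] k)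
    (h1 : ∀ ρ ∈ R, ∃ (κ : k) (l : β → MvPolynomial β' k), κ ≠ 0 ∧ ∀ v, L (Z a R ε κ l ρ v) = 0)
    (h2 : ∀ (i : ℕ) (u : MvPolynomial β' k), L (X a ^ i * rename ε u) = 0)
    (v : MvPolynomial β k) : L v = 0 := by
  have h3 : ∀ (v : MvPolynomial β k) (i : ℕ) (u : MvPolynomial β' k),
      L (pr R v * (X a ^ i * rename ε u)) = 0 := by
    intro v
    induction v using MvPolynomial.induction_on with
    | C c => intro i u; simp [pr, C_mul', h2]
    | add p q hp hq => intro i u; simp [add_mul, hp, hq]
    | mul_X p j hp =>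
      intro i u
      rw [map_mul (pr R), pr_X]
      rcases hc j with rfl | h | ⟨j, rfl⟩
      · rw [if_neg ha, mul_assoc, ← mul_assoc (X j), ← pow_succ', hp]
      · simp [h]
      · rw [if_neg (hε j).2, mul_assoc, mul_left_comm (X _), ← rename_X, ← map_mul, hp]
  have h4 : ∀ (n : ℕ) (e : β →₀ ℕ), ∑ ρ ∈ R, e ρ < n → ∀ (u : MvPolynomial β' k) (c : k),
      L (rename ε u * monomial e c) = 0 := by
    intro n
    induction n with
    | zero => intro e he; omega
    | succ n ih =>
      intro e he u c
      by_cases h : ∀ ρ ∈ R, e ρ = 0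
      · have := h3 (monomial e c) 0 u
        rwa [pr_monomial h, pow_zero, one_mul, mul_comm] at this
      · push Not at h
        obtain ⟨ρ, hρ, h⟩ := h
        obtain ⟨e', rfl⟩ : ∃ e', e = Finsupp.single ρ 1 + e' :=
          exists_add_of_le (Finsupp.single_le_iff.2 (Nat.one_le_iff_ne_zero.2 h))
        obtain ⟨κ, l, hκ, hz⟩ := h1 ρ hρ
        have he' : ∑ σ ∈ R, e' σ < n := by
          simp only [Finsupp.add_apply, Finset.sum_add_distrib, Finsupp.single_apply,
            Finset.sum_ite_eq, hρ, if_true] at he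
          omega
        have h5 := hz (rename ε u * monomial (e' + Finsupp.single a 1) c)
        rw [Z, map_add, map_sum, Finset.sum_eq_zero, add_zero, pderiv_mul,
          pd_rename fun i => (hε i).1, zero_mul, zero_add, pderiv_monomial, add_tsub_cancel_right]
          at h5
        · have h6 : C κ * X ρ * (rename ε u * monomial e' (c * (e' + Finsupp.single a 1 :) a)) =
              (κ * (e' a + 1 : ℕ)) • (rename ε u * monomial (Finsupp.single ρ 1 + e') c) := by
            rw [mul_left_comm, mul_assoc, X, monomial_mul, C_mul_monomial, ← mul_smul_comm,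
              smul_monomial]
            congr 2
            simp only [Finsupp.add_apply, Finsupp.single_eq_same, smul_eq_mul]
            ring
          rw [h6, map_smul, smul_eq_mul] at h5
          exact (mul_eq_zero.1 h5).resolve_left
            (mul_ne_zero hκ (Nat.cast_ne_zero.2 (Nat.succ_ne_zero _)))
        · intro σ hσ
          rw [pderiv_mul, pd_rename fun i => ne_of_mem_of_not_mem hσ (hε i).2 |>.symm, zero_mul,
            zero_add, pderiv_monomial, ← mul_assoc, ← map_mul]
          refine ih _ (lt_of_le_of_lt (Finset.sum_le_sum fun τ hτ => ?_) he') _ _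
          rw [Finsupp.tsub_apply, Finsupp.add_apply,
            Finsupp.single_eq_of_ne (ne_of_mem_of_not_mem hτ ha)]
          omega
  induction v using MvPolynomial.induction_on' with
  | add p q hp hq => simp [hp, hq]
  | monomial e c => simpa using h4 _ e (Nat.lt_succ_self _) 1 c

end Peirce

open Peirce in
theorem peirce {k : Type} [Field k] [CharZero k] : PeirceStmt k := by
  intro β β' _ _ _ _ w a R ε P P' b ha hε hc hE hP hZ hb j v
  replace hP : pr R P = X a * rename ε P' := hP
  have hεa : ∀ i, ε i ≠ a := fun i => (hε i).1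
  have hεR : ∀ ρ ∈ R, ∀ i, ε i ≠ ρ := fun ρ hρ i => (ne_of_mem_of_not_mem hρ (hε i).2).symm
  have haR : ∀ ρ ∈ R, a ≠ ρ := fun ρ hρ => (ne_of_mem_of_not_mem hρ ha).symm
  have h2 : ∀ x : β, pderiv x (2 : MvPolynomial β k) = 0 := fun x => by
    simpa using (pderiv x : Derivation k (MvPolynomial β k) _).map_natCast 2
  have hQ : pderiv a P = rename ε P' := by
    have h1 := congrArg (pderiv a) hE
    rw [map_add, map_sum, pderiv_mul, pderiv_mul, pderiv_mul, h2, pderiv_X_self,
      Finset.sum_congr rfl (g := fun ρ => X ρ * pderiv ρ (pderiv a P)) fun ρ hρ => by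
        rw [pderiv_mul, pderiv_X_of_ne (haR ρ hρ).symm, zero_mul, zero_add, pd_comm]] at h1
    rw [← pr_of_euler (R := R) (a := a) (Q := pderiv a P) (by linear_combination h1),
      pr_pderiv ha, hP, pderiv_mul, pderiv_X_self, pd_rename hεa, one_mul, mul_zero, add_zero]
  have hfree : ∀ (i : ℕ) (u : MvPolynomial β' k), ∀ ρ ∈ R,
      pderiv ρ (X a ^ i * rename ε u) = 0 := fun i u ρ hρ => by
    rw [pderiv_mul, pd_rename (hεR ρ hρ), pderiv_pow, pderiv_X_of_ne (haR ρ hρ)]
    simp
  have hpair : ∀ (m i : ℕ) (u : MvPolynomial β' k), fw w (P ^ m) (X a ^ i * rename ε u) =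
      (if i = m then w a ^ m * m.factorial else 0) * fw (w ∘ ε) (P' ^ m) u := fun m i u => by
    rw [fw_pr w R _ _ (hfree i u), map_pow, hP, mul_pow, ← map_pow, fw_pow w hεa]
  have hq : ∀ (i : ℕ) (u : MvPolynomial β' k), ∀ ρ ∈ R,
      (i + 1 : k) * fw w (P ^ (j + 1)) (X a ^ i * rename ε u * (X ρ * pderiv ρ P)) =
        fw w (P ^ (j + 1)) (X a ^ (i + 1) * rename ε (P' * u)) := fun i u ρ hρ => by
    obtain ⟨κ, l, hκ, z1, z2⟩ := hZ ρ hρ
    have z3 : Z a R ε κ l ρ (pderiv ρ P) = -(C κ * rename ε P') := by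
      have h1 := congrArg (pderiv ρ) z1
      rw [map_add, map_sum, map_zero, pderiv_mul, pderiv_mul, pderiv_C, pderiv_X_self, pd_comm,
        Finset.sum_congr rfl (g := fun σ => rename ε (l σ) * pderiv σ (pderiv ρ P)) fun σ hσ => by
          rw [pderiv_mul, pd_rename (hεR ρ hρ), zero_mul, zero_add, pd_comm], hQ] at h1
      rw [Z]
      linear_combination h1
    have z4 : Z a R ε κ l ρ (X a ^ (i + 1) * rename ε u) =
        C κ * X ρ * (C (i + 1 : k) * X a ^ i * rename ε u) := by
      rw [Z, Finset.sum_eq_zero fun σ hσ => by rw [hfree _ _ σ hσ, mul_zero], pderiv_mul,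
        pd_rename hεa, pderiv_pow, pderiv_X_self]
      simp
    have z5 : fw w (P ^ (j + 1)) (Z a R ε κ l ρ (X a ^ (i + 1) * rename ε u * pderiv ρ P)) = 0 :=
      z2 _ _
    have z6 : Z a R ε κ l ρ (X a ^ (i + 1) * rename ε u * pderiv ρ P) =
        κ • ((i + 1 : k) • (X a ^ i * rename ε u * (X ρ * pderiv ρ P)) -
          X a ^ (i + 1) * rename ε (P' * u)) := by
      rw [Z_mul, z3, z4, map_mul, ← C_mul', ← C_mul']
      ring
    rw [z6, map_smul, map_sub, map_smul, smul_eq_mul, smul_eq_mul] at z5
    exact sub_eq_zero.1 ((mul_eq_zero.1 z5).resolve_left hκ)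
  let L : MvPolynomial β k →ₗ[k] k := fw w (P ^ (j + 1)) ∘ₗ LinearMap.mulLeft k P -
    (w a * (j + 1 + (R.card : k) / 2) * b j) • fw w (P ^ j)
  have hL : ∀ v, L v = fw w (P ^ (j + 1)) (P * v) -
      w a * (j + 1 + (R.card : k) / 2) * b j * fw w (P ^ j) v := fun v => rfl
  rw [← sub_eq_zero, ← hL]
  refine reduce ha hε hc L (fun ρ hρ => ?_) (fun i u => ?_) v
  · obtain ⟨κ, l, hκ, z1, z2⟩ := hZ ρ hρ
    refine ⟨κ, l, hκ, fun v => ?_⟩
    have z3 : P * Z a R ε κ l ρ v = Z a R ε κ l ρ (P * v) := by
      rw [Z_mul, show Z a R ε κ l ρ P = 0 from z1, zero_mul, zero_add]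
    rw [hL, z3, show fw w (P ^ (j + 1)) (Z a R ε κ l ρ (P * v)) = 0 from z2 _ _,
      show fw w (P ^ j) (Z a R ε κ l ρ v) = 0 from z2 _ _, mul_zero, sub_zero]
  · have e1 : (2 : k) • (P * (X a ^ i * rename ε u)) =
        (2 : k) • (X a ^ (i + 1) * rename ε (P' * u)) +
          ∑ ρ ∈ R, X a ^ i * rename ε u * (X ρ * pderiv ρ P) := by
      rw [← Finset.mul_sum, two_smul, two_smul, map_mul, ← hQ]
      linear_combination (X a ^ i * rename ε u) * hE.symm
    have e2 := congrArg (fun x => (i + 1 : k) * fw w (P ^ (j + 1)) x) e1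
    simp only [map_add, map_smul, map_sum, smul_eq_mul, mul_add, Finset.mul_sum] at e2
    rw [Finset.sum_congr rfl (hq i u), Finset.sum_const, nsmul_eq_mul, hpair, hb] at e2
    have hi : (i + 1 : k) ≠ 0 := Nat.cast_add_one_ne_zero i
    rw [hL, hpair]
    refine mul_left_cancel₀ (mul_ne_zero hi two_ne_zero) ?_
    simp only [add_left_inj] at e2
    split_ifs at e2 ⊢ with h
    · subst h
      rw [Nat.factorial_succ] at e2
      push_cast at e2
      linear_combination e2
    · linear_combination e2

end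

end Pool.Agent.P.MP_b91a16_ag.JB
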