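import Pool.Agent.P.MP_b91a16_ag.JB.Calc

/-! The recursion for the law of the symmetric determinant. -/

set_option linter.unusedSectionVars false

open MvPolynomial

namespace Pool.Agent.P.MP_b91a16_ag.JB

noncomputable section

open St Dt

namespace SymRec

section mat

variable {S S' I J : Type} [CommRing S] [CommRing S'] [Fintype I] [DecidableEq I] [Fintype J]
  [DecidableEq J]

/-- The bordered matrix. -/
def bM (a : S) (r : I → S) (x : Matrix I I S) : Matrix (Option I) (Option I) S :=
  Matrix.of fun p q => p.elim (q.elim a r) fun i => q.elim (r i) (x i)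

theorem map_bM {F : Type} [FunLike F S S'] (φ : F) (a : S) (r : I → S) (x : Matrix I I S) :
    (bM a r x).map φ = bM (φ a) (fun i => φ (r i)) (x.map φ) := by
  ext p q
  cases p <;> cases q <;> rfl

theorem det_row (M : Matrix (Option I) (Option I) S) (h : ∀ j, M none (some j) = 0) :
    M.det = M none none * (M.submatrix some some).det := by
  let e := (Equiv.optionEquivSumPUnit.{0} I).symm
  rw [← Matrix.det_submatrix_equiv_self e, ← Matrix.fromBlocks_toBlocks (M.submatrix e e),
    show (M.submatrix e e).toBlocks₂₁ = 0 by ext i j; exact h j, Matrix.det_fromBlocks_zero₂₁,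
    mul_comm, Matrix.det_unique]
  rfl

theorem det_col (M : Matrix (Option I) (Option I) S) (h : ∀ j, M (some j) none = 0) :
    M.det = M none none * (M.submatrix some some).det := by
  rw [← Matrix.det_transpose, det_row _ h, ← Matrix.det_transpose (M.submatrix some some)]
  rfl

theorem det_shear (a : S) (r l : I → S) (x : Matrix I I S) :
    (bM a (fun i => r i + a * l i)
      (Matrix.of fun i j => x i j + l i * r j + l j * r i + a * (l i * l j))).det =
      (bM a r x).det := by
  let N : Matrix (Option I) (Option I) S := Matrix.of fun p q =>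
    p.elim (q.elim a fun i => r i + a * l i) fun i => q.elim (r i) fun j => x i j + l j * r i
  rw [Matrix.det_eq_of_forall_row_eq_smul_add_const (B := N) (fun o => o.elim 0 l) none rfl
    fun p q => by cases p <;> cases q <;> simp [N, bM] <;> ring, ← Matrix.det_transpose,
    ← Matrix.det_transpose (bM a r x)]
  exact Matrix.det_eq_of_forall_row_eq_smul_add_const (fun o => o.elim 0 l) none rfl
    fun p q => by cases p <;> cases q <;> simp [N, bM]; ring

theorem det_one (c : S) (l : I → S) (x : Matrix I I S) :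
    (bM c (fun i => c * l i) (Matrix.of fun i j => x i j + c * (l i * l j))).det = c * x.det := by
  have h := det_shear c 0 l x
  simp only [Pi.zero_apply, zero_add, mul_zero, add_zero] at h
  rw [h, det_row _ fun j => rfl]
  rfl

theorem det_hyp (a u : S) (r : J → S) (x : Matrix J J S) :
    (bM a (fun o => o.elim u r) (bM 0 0 x)).det = -u ^ 2 * x.det := by
  have h := Matrix.det_permute (Equiv.swap none (some none)) (bM a (fun o => o.elim u r) (bM 0 0 x))
  have h3 : ((((bM a (fun o => o.elim u r) (bM 0 0 x)).submatrix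
      (Equiv.swap none (some none)) id).submatrix some some).submatrix some some) = x := by
    ext i j
    simp [bM, Equiv.swap_apply_of_ne_of_ne]
  rw [Equiv.Perm.sign_swap (by simp), det_row _ (by rintro (_ | j) <;> simp [bM]), det_col _ (by
    intro j; simp [bM, Equiv.swap_apply_of_ne_of_ne]), h3] at h
  have h4 : u * (u * x.det) = -(bM a (fun o => o.elim u r) (bM 0 0 x)).det := by
    simpa [bM] using h
  linear_combination h4

theorem det_two (a u m : S) (r l : J → S) (x : Matrix J J S) :
    (bM a (fun o => o.elim (u + a * m) r) (bM (2 * u * m + a * m ^ 2) (fun j => u * l j + m * r j)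
      (Matrix.of fun i j => x i j + (l i * r j + l j * r i - a * (l i * l j))))).det =
      -u ^ 2 * x.det := by
  refine Eq.trans (congrArg _ ?_) ((det_shear a _ (fun o => o.elim m l) _).trans
    (det_hyp a u (fun j => r j - a * l j) x))
  ext p q
  rcases p with _ | _ | p <;> rcases q with _ | _ | q <;> simp [bM] <;> ring

theorem det_sc (d : I → S) (x : Matrix I I S) :
    (Matrix.of fun i j => d i * d j * x i j).det = (∏ i, d i) ^ 2 * x.det := by
  have h1 := Matrix.det_mul_column d (Matrix.of fun i j => d j * x i j)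
  rw [Matrix.det_mul_row] at h1
  simp only [Matrix.of_apply, ← mul_assoc] at h1
  rw [h1, sq]

theorem det_sc' (t a : S) (r : I → S) (x : Matrix I I S) :
    (bM (t * (t * a)) (fun i => t * r i) x).det = t ^ 2 * (bM a r x).det := by
  have h := det_sc (fun o : Option I => o.elim t fun _ => 1) (bM a r x)
  simp only [Fintype.prod_option, Option.elim_none, Option.elim_some, Finset.prod_const_one,
    mul_one] at h
  rw [← h]
  congr 1
  ext p q
  cases p <;> cases q <;> simp [bM, mul_assoc]

theorem det_sub (e : J ≃ I) (a : S) (r : I → S) (x : Matrix I I S) :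
    (bM a (fun j => r (e j)) (x.submatrix e e)).det = (bM a r x).det := by
  rw [← Matrix.det_submatrix_equiv_self e.optionCongr (bM a r x)]
  congr 1
  ext p q
  cases p <;> cases q <;> rfl

end mat

variable {k β ζ I J : Type} [Field k] [Fintype β] [DecidableEq β] [Fintype ζ] [DecidableEq ζ]
  [Fintype I] [DecidableEq I] [Fintype J] [DecidableEq J] {Φ : AP k (Option ζ)} {M : ℕ}

/-- Triangular substitutions. -/
theorem triT_rk (ψ : β → MvPolynomial (Option β) k) (U : Finset β) (rk : β → ℕ)
    (hU : ∀ p ∈ U, ψ p = X (some p))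
    (h : ∀ (S : Type) [CommRing S] [Algebra k S] (t : S) (γ : β → S), (∀ p ∈ U, IsUnit (γ p)) →
      ∀ j, ∃ c : S, IsUnit c ∧ ∀ γ' : β → S, (∀ i, rk i < rk j → γ' i = γ i) →
        aeval (fun o : Option β => o.elim t γ') (ψ j) =
          aeval (fun o : Option β => o.elim t γ) (ψ j) + c * (γ' j - γ j)) : TriT ψ U := by
  intro S _ _ t
  refine ⟨fun γ γ' hγ e => ?_, fun γ' hγ => ?_⟩
  · have key : ∀ m j, rk j < m → γ' j = γ j := fun m => by
      induction m with
      | zero => simp
      | succ m ih =>
        intro j hj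
        obtain ⟨c, hc, h1⟩ := h S t γ hγ j
        have h2 := h1 γ' fun i hi => ih i (by omega)
        rw [e, left_eq_add, hc.mul_right_eq_zero] at h2
        exact sub_eq_zero.1 h2
    exact funext fun j => key _ j (Nat.lt_succ_self _)
  · have key : ∀ m, ∃ γ : β → S, (∀ p ∈ U, γ p = γ' p) ∧ ∀ j, rk j < m →
        aeval (fun o : Option β => o.elim t γ) (ψ j) = γ' j := fun m => by
      induction m with
      | zero => exact ⟨γ', fun _ _ => rfl, by simp⟩
      | succ m ih =>
        obtain ⟨γ, h1, h2⟩ := ih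
        choose c hc h3 using h S t γ fun p hp => h1 p hp ▸ hγ p hp
        choose d hd using fun j => (hc j).exists_right_inv
        refine ⟨fun j => if rk j = m then γ j + d j * (γ' j -
          aeval (fun o : Option β => o.elim t γ) (ψ j)) else γ j, fun p hp => ?_, fun j hj => ?_⟩
        · simp [hU p hp, h1 p hp]
        · rw [h3 j _ fun i hi => if_neg (by omega)]
          split_ifs with h4
          · linear_combination (γ' j - aeval (fun o : Option β => o.elim t γ) (ψ j)) * hd j
          · simp [h2 j (by omega)]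
    obtain ⟨γ, -, h2⟩ := key (Finset.univ.sup rk + 1)
    exact ⟨γ, fun j => h2 j (Nat.lt_succ_of_le (Finset.le_sup (Finset.mem_univ j)))⟩

/-- The quadratic change of variables. -/
theorem cv3 [CharZero k] (h : Adm Φ M) (R : MvPolynomial (Option β) k) {Z : Finset β} {a u m : β}
    (ha : a ∈ Z) (hu : u ∉ Z) (hm : m ∉ Z) (hum : m ≠ u) :
    lc Φ R Z {u} = lc Φ (sbt (fun j => if j = u then X (some u) + X (some a) * X (some m) else
      if j = m then 2 * X (some u) * X (some m) + X (some a) * X (some m) ^ 2
      else X (some j)) R) Z {u} := by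
  have h0 : ∀ j ∈ Z, j ≠ u ∧ j ≠ m := fun j hj =>
    ⟨ne_of_mem_of_not_mem hj hu, ne_of_mem_of_not_mem hj hm⟩
  have two : ∀ (K : Type) [Field K] [Algebra k K], (2 : K) ≠ 0 := fun K _ _ =>
    haveI := charZero_of_injective_algebraMap (algebraMap k K).injective
    two_ne_zero
  refine h.cv R _ (fun K _ _ γ hγ => ⟨fun j hj => ?_, fun j hj => ?_⟩)
    (fun K _ _ γ γ' N hγ hγ' e => ?_) fun K _ _ γ hγ => ?_
  · simpa [h0 j hj] using hγ.1 j hj
  · simpa [Finset.mem_singleton.1 hj, hγ.1 a ha] using hγ.2 u (by simp)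
  · have e0 := e a
    have e1 := e u
    have e2 := e m
    simp only [h0 a ha, hum, if_true, if_false, map_add, map_mul, map_pow, ev_some,
      map_ofNat] at e0 e1 e2
    have h1 : IsUnit (2 * γ u + γ a * (γ m - γ' m)) := isUnit_of_cc (by
      simpa [hγ.1 a ha, map_ofNat, two K] using hγ.2 u (by simp))
    have h2 : PowerSeries.X ^ N ∣ γ' m - γ m := by
      rw [← h1.dvd_mul_right]
      convert dvd_add (dvd_sub e2 (e1.mul_left (2 * γ' m))) (e0.mul_left (γ' m ^ 2)) using 1
      ring
    intro j
    by_cases h3 : j = u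
    · convert dvd_sub (dvd_sub e1 (e0.mul_left (γ' m))) (h2.mul_left (γ a)) using 1
      rw [h3]
      ring
    · by_cases h4 : j = m
      · rwa [h4]
      · simpa [h3, h4] using e j
  · obtain ⟨w, h1, h2⟩ := exists_sqrt (two K) (hγ.2 u (by simp))
      (((PowerSeries.X_dvd_iff.2 (hγ.1 a ha)).mul_right (γ m)).neg_right)
    have h3 : PowerSeries.constantCoeff w = PowerSeries.constantCoeff (γ u) := by
      simpa [sub_eq_zero] using PowerSeries.X_dvd_iff.1 h2
    have h4 : IsUnit (w + γ u) := isUnit_of_cc (by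
      simpa [h3, ← two_mul, two K] using hγ.2 u (by simp))
    obtain ⟨d, hd⟩ := h4.exists_right_inv
    have h5 : w + γ a * (γ m * d) = γ u := by linear_combination d * h1 + (γ u - w) * hd
    refine ⟨fun j => if j = u then w else if j = m then γ m * d else γ j,
      ⟨fun j hj => ?_, fun j hj => ?_⟩, fun j => ?_⟩
    · simpa [h0 j hj] using hγ.1 j hj
    · simpa [Finset.mem_singleton.1 hj, h3] using hγ.2 u (by simp)
    · by_cases h6 : j = u
      · simpa [h6, h0 a ha, hum] using h5
      · by_cases h7 : j = m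
        · simp only [h7, h0 a ha, hum, if_true, if_false, map_add, map_mul, map_pow, ev_some,
            map_ofNat]
          linear_combination γ m * d * h5 + γ m * hd
        · simp [h6, h7]

theorem shift0 (h : Adm Φ M) (R : MvPolynomial (Option β) k) (Z : Finset β) :
    lc Φ R Z ∅ = Linv k ^ Z.card *
      lc Φ (sbt (fun j => if j ∈ Z then X none * X (some j) else X (some j)) R) ∅ ∅ := by
  rw [← h.shift R (by simp) (by simp), Finset.empty_union]

theorem lc_unit (h : Adm Φ M) (P : MvPolynomial β k) (b : ℕ) :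
    lc Φ (tp b (pr2 (X () : MvPolynomial Unit k) P)) ∅ {.inl ()} =
      ls Φ (pr2 (X ()) P) b - Linv k * ls Φ (pr2 (X () : MvPolynomial Unit k) P) (b + 1) := by
  have h2 : ∀ ψ : Unit ⊕ β → MvPolynomial (Option (Unit ⊕ β)) k, (∀ j, ψ (.inr j) =
      X (some (.inr j))) → aeval ψ (rename Sum.inr P) = rename some (rename Sum.inr P) :=
    fun ψ hψ => by
      rw [aeval_rename, rename_rename, rename_eq_aeval]
      exact congrArg (aeval · P) (funext hψ)
  rw [eq_sub_iff_add_eq', ls, ls, h.split (tp b _) ∅ ∅ (.inl ()), insert_empty_eq,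
    shift0 h _ {_}, Finset.card_singleton, pow_one, tp, tp, map_mul, sbt_rename_some, pr2,
    map_mul (aeval _), h2 _ (by simp)]
  simp [pow_succ, mul_assoc]

theorem hom_det {S S' : Type} [CommRing S] [CommRing S'] [Algebra k S] [Algebra k S']
    (φ : S →ₐ[k] S') (x : Matrix I I S) : φ x.det = (x.map φ).det := φ.map_det x

theorem map_of {S S' : Type} (φ : S → S') (x : I → I → S) :
    (Matrix.of x).map φ = Matrix.of fun i j => φ (x i j) := rfl

abbrev V1 (I : Type) := Option (I ⊕ Sym2 I)

abbrev V2 (J : Type) := Option (Option J ⊕ V1 J)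

variable (k I J)

def sD : MvPolynomial (Sym2 I) k := (Matrix.of fun p q => X s(p, q)).det

def D1 : MvPolynomial (V1 I) k :=
  (bM (X none) (fun i => X (some (.inl i))) (Matrix.of fun i j => X (some (.inr s(i, j))))).det

def D2 : MvPolynomial (V2 J) k :=
  (bM (X none) (fun i => X (some (.inl i))) (bM (X (some (.inr none)))
    (fun j => X (some (.inr (some (.inl j)))))
    (Matrix.of fun i j => X (some (.inr (some (.inr s(i, j)))))))).det

variable {k I J}

def emb (e : Option J ≃ I) : V1 J ↪ Sym2 I :=
  ⟨fun o => o.elim s(e none, e none) (Sum.elim (fun j => s(e none, e (some j)))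
    (Sym2.map fun j => e (some j))), by
    rintro (_ | i | ⟨i, i'⟩) (_ | j | ⟨j, j'⟩) h <;> simp_all⟩

theorem emb_apply (e : Option J ≃ I) (o : V1 J) : emb e o = o.elim s(e none, e none)
    (Sum.elim (fun j => s(e none, e (some j))) (Sym2.map fun j => e (some j))) := rfl

theorem ren_D1 (e : Option J ≃ I) : rename (emb e) (D1 k J) = sD k I := by
  rw [D1, sD, hom_det, ← Matrix.det_submatrix_equiv_self e]
  congr 1
  ext1 p q
  cases p <;> cases q <;> simp [bM, emb_apply, Sym2.eq_swap]

def emb2 (e : Option J ≃ I) : V2 J ↪ V1 I := (e.toEmbedding.sumMap (emb e)).optionMap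

theorem ren_D2 (e : Option J ≃ I) : rename (emb2 e) (D2 k J) = D1 k I := by
  rw [D1, D2, hom_det, ← det_sub e]
  congr 1
  ext1 p q
  rcases p with _ | _ | p <;> rcases q with _ | _ | q <;> simp [bM, emb_apply, emb2, Sym2.eq_swap]

/-- Elimination of the first row. -/
def ψ1 (e : ℕ) : V1 I → MvPolynomial (Option (V1 I)) k
  | none => X (some none)
  | some (.inl i) => X (some none) * X (some (some (.inl i)))
  | some (.inr s) => X (some (some (.inr s))) +
      X none ^ e * X (some none) * (s.map fun i => X (some (some (.inl i)))).mul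

theorem unit (h : Adm Φ M) (b e : ℕ) :
    lc Φ (X none ^ b * (bM (X none ^ e * X (some none))
      (fun i => X none ^ e * X (some (some (.inl i))))
      (Matrix.of fun i j => X (some (some (.inr s(i, j)))))).det : MvPolynomial (Option (V1 I)) k)
      ∅ {none} = ls Φ (pr2 (X ()) (sD k I)) (b + e) -
        Linv k * ls Φ (pr2 (X () : MvPolynomial Unit k) (sD k I)) (b + e + 1) := by
  obtain ⟨ε, e1, e2⟩ : ∃ ε : Unit ⊕ Sym2 I ↪ V1 I, ε (.inl ()) = none ∧
      ∀ s, ε (.inr s) = some (.inr s) := ⟨⟨Sum.elim (fun _ => none) fun s => some (.inr s), by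
    rintro (_ | i) (_ | j) h <;> simp_all⟩, rfl, fun _ => rfl⟩
  have h1 := h.rename (tp (b + e) (pr2 (X () : MvPolynomial Unit k) (sD k I))) ∅ {.inl ()} ε
    (Z' := ∅) (U' := ∅) (by simp) (by simp)
  have h2 : TriT (ψ1 (k := k) (I := I) e) {none} := by
    refine triT_rk _ _ (fun o => o.elim 0 (Sum.elim (fun _ => 1) fun _ => 2)) (by simp [ψ1])
      fun S _ _ t γ hγ => ?_
    rintro (_ | i | ⟨i, j⟩)
    · exact ⟨1, isUnit_one, fun γ' _ => by simp [ψ1]⟩
    · exact ⟨γ none, hγ _ (by simp), fun γ' h => by simp [ψ1, h none (by simp), mul_sub]⟩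
    · exact ⟨1, isUnit_one, fun γ' h => by
        simp [ψ1, h none (by simp), fun i => h (some (.inl i)) (by simp)]
        ring⟩
  rw [h.tri' _ h2 (by simp [ψ1]), ← lc_unit h]
  simp only [Finset.map_empty, Finset.union_empty, Finset.map_singleton, Finset.card_empty,
    pow_zero, one_mul, e1] at h1
  rw [← h1]
  congr 1
  simp only [map_mul, map_pow, sbt_none, sbt_some, hom_det, map_bM, map_of, ψ1, Sym2.map_mk,
    Sym2.mul_mk, tp, pr2, sD, rename_X, ← mul_assoc (X none ^ e), Option.map_none, Option.map_some,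
    e1, e2]
  rw [pow_add, mul_assoc, ← mul_assoc (X none ^ e)]
  exact congrArg _ (det_one _ _ (Matrix.of fun i j => X (some (some (Sum.inr s(i, j))))))

/-- Elimination of a hyperbolic plane. -/
def ψ2 : V2 J → MvPolynomial (Option (V2 J)) k
  | none => X (some none)
  | some (.inl i) => X (some (some (.inl i)))
  | some (.inr none) => X (some (some (.inr none)))
  | some (.inr (some (.inl j))) =>
      X (some (some (.inl none))) * X (some (some (.inr (some (.inl j))))) +
        X (some (some (.inr none))) * X (some (some (.inl (some j))))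
  | some (.inr (some (.inr s))) => X (some (some (.inr (some (.inr s))))) + Sym2.lift ⟨fun i j =>
      X (some (some (.inr (some (.inl i))))) * X (some (some (.inl (some j)))) +
      X (some (some (.inr (some (.inl j))))) * X (some (some (.inl (some i)))) - X (some none) *
      (X (some (some (.inr (some (.inl i))))) * X (some (some (.inr (some (.inl j)))))),
      fun i j => by ring⟩ s

/-- Scaling of a row and a column. -/
def ψ3 (j0 : J) : V2 J → MvPolynomial (Option (V2 J)) k
  | none => X (some none)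
  | some (.inl i) => X (some (some (.inl i)))
  | some (.inr none) => X (some (some (.inr none)))
  | some (.inr (some (.inl j))) => X (some (some (.inr (some (.inl j)))))
  | some (.inr (some (.inr s))) => (s.map fun j => if j = j0 then X (some (some (.inl none)))
      else 1).mul * X (some (some (.inr (some (.inr s)))))

theorem piv [CharZero k] (h : Adm Φ M) (j0 : J) (a : ℕ) (Z : Finset (V2 J)) (h1 : none ∈ Z)
    (h2 : ∀ z ∈ Z, z = none ∨ ∃ j, z = some (.inl (some j))) :
    lc Φ (tp a (D2 k J)) Z {some (.inl none)} =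
      (1 - Linv k) * (Linv k ^ Z.card * ls Φ (-sD k J) a) := by
  obtain ⟨ε, e1⟩ : ∃ ε : Sym2 J ↪ V2 J, ∀ s, ε s = some (.inr (some (.inr s))) :=
    ⟨⟨fun s => some (.inr (some (.inr s))), fun _ _ h => by simpa using h⟩, fun _ => rfl⟩
  have h3 : ∀ z ∈ Z ∪ {some (.inl none)}, z = none ∨ ∃ j, z = some (.inl j) := fun z hz => by
    rcases Finset.mem_union.1 hz with hz | hz
    · exact (h2 z hz).imp id fun ⟨j, e⟩ => ⟨_, e⟩
    · exact .inr ⟨_, Finset.mem_singleton.1 hz⟩
  have h4 : some (.inl none) ∉ Z := fun hz => by simpa using h2 _ hz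
  have t2 : TriT (ψ2 (k := k) (J := J)) {some (.inl none)} := by
    refine triT_rk _ _ (fun o => o.elim 0 (Sum.elim (fun _ => 0) fun o => o.elim 0
      (Sum.elim (fun _ => 1) fun _ => 2))) (by simp [ψ2]) fun S _ _ t γ hγ => ?_
    rintro (_ | i | _ | i | ⟨i, j⟩)
    iterate 3 exact ⟨1, isUnit_one, fun γ' _ => by simp [ψ2]⟩
    · exact ⟨_, hγ _ (Finset.mem_singleton_self _), fun γ' h => by
        simp [ψ2, h (some (.inr none)) (by simp), fun i => h (some (.inl i)) (by simp)]
        ring⟩
    · exact ⟨1, isUnit_one, fun γ' h => by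
        simp [ψ2, h none (by simp), fun i => h (some (.inl i)) (by simp),
          fun i => h (some (.inr (some (.inl i)))) (by simp)]
        ring⟩
  have t3 : TriT (ψ3 (k := k) j0) {some (.inl none)} := by
    refine triT_rk _ _ (fun o => o.elim 0 (Sum.elim (fun _ => 0) fun _ => 1)) (by simp [ψ3])
      fun S _ _ t γ hγ => ?_
    have hu : ∀ i, IsUnit (if i = j0 then γ (some (.inl none)) else 1) := fun i => by
      split_ifs
      exacts [hγ _ (Finset.mem_singleton_self _), isUnit_one]
    rintro (_ | i | _ | i | ⟨i, j⟩)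
    iterate 4 exact ⟨1, isUnit_one, fun γ' _ => by simp [ψ3]⟩
    exact ⟨_, (hu i).mul (hu j), fun γ' h => by
      simp only [ψ3, Sym2.map_mk, Sym2.mul_mk, map_mul, apply_ite (aeval _), aeval_X, map_one,
        Option.elim_some, h (some (.inl none)) (by simp)]
      ring⟩
  have h5 := h.rename' (tp a (-sD k J)) ε (Finset.disjoint_singleton_right.2 h4) fun s =>
    ⟨fun hz => by simpa [e1] using h2 _ hz, by simp [e1]⟩
  rw [Finset.card_singleton, pow_one, h.tri' _ t3 fun z hz => by
    rcases h3 z hz with rfl | ⟨j, rfl⟩ <;> rfl] at h5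
  rw [cv3 h _ h1 h4 (m := some (.inr none)) (fun hz => by simpa using h2 _ hz) (by simp),
    h.tri' _ t2 fun z hz => by rcases h3 z hz with rfl | ⟨j, rfl⟩ <;> rfl, ls, ← h5]
  congr 1
  simp only [tp, D2, sD, map_mul, map_pow, map_neg, sbt_none, sbt_some, hom_det, map_bM, map_of,
    rename_X, Option.map_none, Option.map_some, e1, ψ3, Sym2.map_mk,
    Sym2.mul_mk, if_true]
  have h6 := det_sc (S := MvPolynomial (Option (V2 J)) k) (fun j => if j = j0 then
    X (some (some (.inl none))) else 1) (.of fun i j => X (some (some (.inr (some (.inr s(i, j)))))))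
  simp only [Matrix.of_apply, Finset.prod_ite_eq', Finset.mem_univ, if_true] at h6
  rw [h6, ← neg_mul]
  refine congrArg _ (Eq.trans (congrArg _ ?_) (det_two (X (some none)) _
    (X (some (some (Sum.inr none)))) (fun j => X (some (some (Sum.inl (some j)))))
    (fun j => X (some (some (Sum.inr (some (Sum.inl j)))))) _))
  ext1 p q
  rcases p with _ | _ | p <;> rcases q with _ | _ | q <;> simp [bM, ψ2, map_ofNat]

theorem piv' [CharZero k] (h : Adm Φ M) (j0 : J) (a : ℕ) (e : Option J ≃ I) (Z : Finset (V1 I))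
    (h1 : none ∈ Z) (h2 : ∀ z ∈ Z, z = none ∨ ∃ j, z = some (.inl (e (some j)))) :
    lc Φ (tp a (D1 k I)) Z {some (.inl (e none))} =
      (1 - Linv k) * (Linv k ^ Z.card * ls Φ (-sD k J) a) := by
  obtain ⟨Z, -, rfl⟩ := Finset.subset_map_iff.1 (show Z ⊆ Finset.univ.map (emb2 e) from
    fun z hz => by
      rcases h2 z hz with rfl | ⟨j, rfl⟩
      exacts [Finset.mem_map.2 ⟨none, by simp, rfl⟩,
        Finset.mem_map.2 ⟨some (.inl (some j)), by simp, rfl⟩])
  have h3 := h.rename (tp a (D2 k J)) Z {some (.inl none)} (emb2 e) (Z' := ∅) (U' := ∅) (by simp)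
    (by simp)
  rw [piv h j0 a Z ((Finset.mem_map' (emb2 e)).1 h1) fun z hz => by
    rcases h2 _ (Finset.mem_map_of_mem _ hz) with h | ⟨j, h⟩
    exacts [.inl ((emb2 e).injective h), .inr ⟨j, (emb2 e).injective h⟩], ← tp_rename, ren_D2] at h3
  simpa [emb2] using h3

end SymRec

open SymRec

theorem symRec {k : Type} [Field k] [CharZero k] : SymRecStmt k := by
  intro ζ _ _ Φ M h n a
  obtain ⟨ρ, e1⟩ : ∃ ρ : Fin (n + 2) ↪ V1 (Fin (n + 2)), ∀ c, ρ c = some (.inl c) :=
    ⟨⟨fun c => some (.inl c), fun _ _ h => by simpa using h⟩, fun _ => rfl⟩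
  have h0 : ∀ b, ls Φ (symD k (n + 3)) b = ls Φ (D1 k (Fin (n + 2))) b := fun b => by
    rw [← h.ls_rename _ (emb (_root_.finSuccEquiv (n + 2)).symm), ren_D1]
    rfl
  have h1 := unit (I := Fin (n + 2)) h a 0
  have h2 := unit (I := Fin (n + 2)) h a 1
  have h3 : ∀ c : Fin (n + 2), lc Φ (tp a (D1 k (Fin (n + 2)))) ({none} ∪ (Finset.Iio c).map ρ)
      (insert (ρ c) ∅) = (1 - Linv k) * (Linv k ^ c.1 * (Linv k * ls Φ (-symD k (n + 1)) a)) :=
    fun c => by
      have h4 := piv' h (0 : Fin (n + 1)) a (finSuccEquiv' c).symm ({none} ∪ (Finset.Iio c).map ρ)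
        (by simp) fun z hz => by
          rcases Finset.mem_union.1 hz with hz | hz
          · exact .inl (Finset.mem_singleton.1 hz)
          · obtain ⟨c', hc, rfl⟩ := Finset.mem_map.1 hz
            obtain ⟨j, rfl⟩ := Fin.exists_succAbove_eq (Finset.mem_Iio.1 hc).ne
            exact .inr ⟨j, e1 _⟩
      rw [Finset.card_union_of_disjoint (by simp [e1]), Finset.card_map, Fin.card_Iio,
        Finset.card_singleton, add_comm 1, pow_succ, mul_assoc] at h4
      rw [e1]
      exact h4
  have h4 := shift0 h (tp a (D1 k (Fin (n + 2)))) ({none} ∪ Finset.univ.map ρ)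
  rw [Finset.card_union_of_disjoint (by simp [e1]), h.split _ ∅ ∅ none, insert_empty_eq,
    shift0 h _ {none}] at h4
  have m1 : ∀ i, some (.inl i) ∈ {none} ∪ Finset.univ.map ρ := fun i => by simp [e1]
  have m2 : ∀ s, some (.inr s) ∉ {none} ∪ Finset.univ.map ρ := fun s => by simp [e1]
  have h5 : tp (a + 2) (D1 k (Fin (n + 2))) = X none ^ a * (X none ^ 2 * (bM (X (some none))
      (fun i => X (some (some (.inl i)))) (.of fun i j => X (some (some (.inr s(i, j)))))).det) := by
    simp only [tp, D1, hom_det, map_bM, map_of, rename_X, pow_add, mul_assoc]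
  intro A
  rw [h0, h0, ls, ls, ls, h.split _ ∅ ∅ none, insert_empty_eq, h.split_row _ _ _ ρ, h4,
    Finset.sum_congr rfl fun c _ => h3 c, ← Finset.mul_sum, ← Finset.sum_mul,
    Fin.sum_univ_eq_sum_range (fun c => Linv k ^ c), ← mul_assoc, mul_neg_geom_sum, h5, ls]
  simp only [pow_zero, pow_one, one_mul, add_zero] at h1 h2
  simp only [tp, D1, map_mul, map_pow, sbt_none, sbt_some, hom_det, map_bM, map_of, rename_X, m1,
    m2, Finset.mem_union_left _ (Finset.mem_singleton_self _), if_true, if_false,
    Finset.mem_singleton, reduceCtorEq, det_sc', h1, h2, Finset.card_singleton, Finset.card_map,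
    Finset.card_fin]
  simp only [A, symD, sD]
  ring

end

end Pool.Agent.P.MP_b91a16_ag.JB
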