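import Pool.Agent.P.MP_b91a16_ag.JB.Base

/-! Transfer of local Bernstein-Sato equations along a weighted Cayley identity. -/

set_option linter.unusedSectionVars false

open MvPolynomial

namespace Pool.Agent.P.MP_b91a16_ag.JB

noncomputable section

open St Dt

namespace Trans

section pairing

variable {B β : Type} [CommRing B] [Fintype β] [DecidableEq β]

/-- Scaling of the variables over a ring. -/
def scB (w : β → B) : MvPolynomial β B →ₐ[B] MvPolynomial β B := aeval fun a => C (w a) * X a

/-- The weighted Fischer pairing over a ring. -/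
def fB (w : β → B) : MvPolynomial β B →ₗ[B] MvPolynomial β B →ₗ[B] B :=
  fis ∘ₗ (scB w).toLinearMap

theorem fB_apply (w : β → B) (u v : MvPolynomial β B) : fB w u v = fis (scB w u) v := rfl

theorem scB_monomial (w : β → B) (e : β →₀ ℕ) (c : B) :
    scB w (monomial e c) = monomial e (c * ∏ j, w j ^ e j) := by
  rw [scB, aeval_monomial, Finsupp.prod_fintype _ _ (by simp), monomial_eq,
    Finsupp.prod_fintype _ _ (by simp)]
  simp [mul_pow, Finset.prod_mul_distrib, mul_assoc]

theorem fB_comm (w : β → B) (u v : MvPolynomial β B) : fB w u v = fB w v u := by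
  induction u using MvPolynomial.induction_on' with
  | add p p' h h' => simp [h, h']
  | monomial e c =>
    induction v using MvPolynomial.induction_on' with
    | add q q' h h' => simp only [map_add, LinearMap.add_apply, h, h']
    | monomial e' c' =>
      simp only [fB_apply, scB_monomial, fis_monomial, coeff_monomial]
      by_cases h : e = e'
      · simp [h]
        ring
      · simp [h, Ne.symm h]

theorem fB_X_mul (w : β → B) (a : β) (u v : MvPolynomial β B) :
    fB w (X a * u) v = w a * fB w u (pderiv a v) := by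
  rw [fB_apply, fB_apply, map_mul, scB, aeval_X, mul_assoc, C_mul', map_smul, LinearMap.smul_apply,
    fis_X_mul, smul_eq_mul]

theorem fB_mul_X (w : β → B) (a : β) (u v : MvPolynomial β B) :
    fB w u (X a * v) = w a * fB w (pderiv a u) v := by
  rw [fB_comm, fB_X_mul, fB_comm]

theorem fB_one (w : β → B) (v : MvPolynomial β B) : fB w 1 v = constantCoeff v := by
  rw [fB_apply, map_one, fis_one]

theorem fB_eq_zero (w : β → B) {u p : MvPolynomial β B} {e : ℕ} (hu : u ∈ idealOfVars β B ^ e)
    (hp : p.totalDegree < e) : fB w u p = 0 := by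
  rw [u.as_sum, map_sum, LinearMap.sum_apply]
  refine Finset.sum_eq_zero fun α hα => ?_
  rw [fB_apply, scB_monomial, fis_monomial, coeff_eq_zero_of_totalDegree_lt
    (hp.trans_le ((mem_pow_idealOfVars_iff _ _).1 hu α hα)), mul_zero, mul_zero]

theorem exists_adj {w : β → B} (hw : ∀ a, IsUnit (w a)) {Q : Module.End B (MvPolynomial β B)}
    (h : Q ∈ Wd B β) : ∃ c : B, ∃ Q' ∈ Wd B β, ∀ p q, fB w p (Q q) = c * fB w (Q' p) q := by
  induction h using Submonoid.closure_induction with
  | mem Q h =>
    rcases h with ⟨a, rfl⟩ | ⟨a, rfl⟩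
    · exact ⟨w a, _, Submonoid.subset_closure (Or.inr ⟨a, rfl⟩), fB_mul_X w a⟩
    · obtain ⟨c, hc⟩ := (hw a).exists_left_inv
      refine ⟨c, _, Submonoid.subset_closure (Or.inl ⟨a, rfl⟩), fun p q => ?_⟩
      rw [LinearMap.mulLeft_apply, fB_X_mul, ← mul_assoc, hc, one_mul]
      rfl
  | one => exact ⟨1, 1, one_mem _, fun _ _ => (one_mul _).symm⟩
  | mul Q T _ _ h h' =>
    obtain ⟨c, Q', h1, h2⟩ := h
    obtain ⟨c', T', h3, h4⟩ := h'
    refine ⟨c * c', T' * Q', mul_mem h3 h1, fun p q => ?_⟩
    rw [Module.End.mul_apply, h2, h4, mul_assoc, Module.End.mul_apply]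

/-- `P` satisfies a weighted Cayley identity with invertible values `b j`. -/
structure CayW (w : β → B) (P : MvPolynomial β B) (b : ℕ → Bˣ) : Prop where
  unit : ∀ a, IsUnit (w a)
  zero : constantCoeff P = 0
  succ : ∀ j v, fB w (P ^ (j + 1)) (P * v) = b j * fB w (P ^ j) v

variable {w : β → B} {P : MvPolynomial β B} {b : ℕ → Bˣ}

theorem CayW.coeff_aux (h : CayW w P b) (p : MvPolynomial β B) (j : ℕ) :
    (∑ j ∈ Finset.range (p.totalDegree + 1),
      Polynomial.monomial j ((Dt.nn b j)⁻¹ * fB w (P ^ j) p : B)).coeff j =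
      (Dt.nn b j)⁻¹ * fB w (P ^ j) p := by
  simp only [Polynomial.finsetSum_coeff, Polynomial.coeff_monomial, Finset.sum_ite_eq',
    Finset.mem_range]
  split_ifs with hj
  · rfl
  · rw [fB_eq_zero w (e := j) (Ideal.pow_mem_pow ?_ _) (by omega), mul_zero]
    rw [← pow_one (idealOfVars β B), mem_pow_idealOfVars_iff']
    intro x hx
    obtain rfl : x = 0 := by simpa [Finsupp.degree_eq_zero_iff] using hx
    exact h.zero

/-- The orthogonal projection onto the polynomials in `P`. -/
def CayW.pr (h : CayW w P b) : MvPolynomial β B →ₗ[B] Polynomial B where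
  toFun p := ∑ j ∈ Finset.range (p.totalDegree + 1),
    Polynomial.monomial j ((Dt.nn b j)⁻¹ * fB w (P ^ j) p : B)
  map_add' p q := by
    ext j
    rw [Polynomial.coeff_add, h.coeff_aux, h.coeff_aux, h.coeff_aux, map_add, mul_add]
  map_smul' c p := by
    ext j
    rw [Polynomial.coeff_smul, h.coeff_aux, h.coeff_aux, map_smul, smul_eq_mul, RingHom.id_apply,
      smul_eq_mul, mul_left_comm]

theorem CayW.coeff_pr (h : CayW w P b) (p : MvPolynomial β B) (j : ℕ) :
    (h.pr p).coeff j = (Dt.nn b j)⁻¹ * fB w (P ^ j) p := h.coeff_aux p j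

theorem CayW.pr_mul (h : CayW w P b) (p : MvPolynomial β B) :
    h.pr (P * p) = Polynomial.X * h.pr p := by
  ext j
  rcases j with _ | j
  · simp [h.coeff_pr, fB_one, h.zero]
  · rw [Polynomial.coeff_X_mul, h.coeff_pr, h.coeff_pr, h.succ, Dt.nn, Finset.prod_range_succ,
      mul_inv, Units.val_mul, mul_assoc, Units.inv_mul_cancel_left, Dt.nn]

theorem CayW.pr_pow (h : CayW w P b) (p : MvPolynomial β B) (j : ℕ) :
    h.pr (p * P ^ j) = h.pr p * Polynomial.X ^ j := by
  induction j with
  | zero => simp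
  | succ j ih => rw [pow_succ', mul_left_comm, h.pr_mul, ih, pow_succ', mul_left_comm]

theorem CayW.pr_aeval (h : CayW w P b) (p : MvPolynomial β B) (φ : Polynomial B) :
    h.pr (p * Polynomial.aeval P φ) = h.pr p * φ := by
  induction φ using Polynomial.induction_on' with
  | add φ φ' h1 h2 => simp [mul_add, h1, h2]
  | monomial j c =>
    rw [Polynomial.aeval_monomial, ← Algebra.smul_def, mul_smul_comm, map_smul, h.pr_pow,
      ← mul_smul_comm, Polynomial.smul_X_eq_monomial]

variable {δ : Module.End B (Polynomial B)}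

theorem CayW.split (h : CayW w P b) (h0 : δ 1 = 0)
    (h1 : ∀ j, δ (Polynomial.X ^ (j + 1)) = (b j : B) • Polynomial.X ^ j)
    {F : ℕ → MvPolynomial β B} (hF : F ∈ Fa P) : ∃ A ∈ Dt.Al δ, ∃ A' ∈ Dt.Al δ, ∀ i j,
      (A (Polynomial.X ^ j)).coeff i = (if j ≤ i then (h.pr (F j)).coeff i else 0) ∧
      (A' (Polynomial.X ^ j)).coeff i =
        if i < j then (Dt.nn b j * (Dt.nn b i)⁻¹ : Bˣ) * (h.pr (F i)).coeff j else 0 := by
  induction hF using Submodule.span_induction with
  | zero => exact ⟨0, zero_mem _, 0, zero_mem _, by simp⟩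
  | add F G _ _ h2 h3 =>
    obtain ⟨A, hA, A', hA', h2⟩ := h2
    obtain ⟨T, hT, T', hT', h3⟩ := h3
    refine ⟨A + T, add_mem hA hT, A' + T', add_mem hA' hT', fun i j => ?_⟩
    simp only [LinearMap.add_apply, Polynomial.coeff_add, h2 i j, h3 i j, Pi.add_apply, map_add]
    constructor <;> split_ifs <;> ring
  | smul c F _ h2 =>
    obtain ⟨A, hA, A', hA', h2⟩ := h2
    refine ⟨c • A, Subalgebra.smul_mem _ hA c, c • A', Subalgebra.smul_mem _ hA' c, fun i j => ?_⟩
    simp only [LinearMap.smul_apply, Polynomial.coeff_smul, h2 i j, Pi.smul_apply, map_smul,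
      smul_eq_mul]
    constructor <;> split_ifs <;> ring
  | mem F hF =>
    obtain ⟨l, p, rfl⟩ := hF
    obtain ⟨σ, hσ⟩ : ∃ σ : Polynomial B, ∀ e, σ.coeff e = (h.pr p).coeff (e + l) := by
      induction l with
      | zero => exact ⟨_, fun _ => rfl⟩
      | succ l ih =>
        obtain ⟨σ, hσ⟩ := ih
        exact ⟨σ.divX, fun e => by rw [Polynomial.coeff_divX, hσ, add_right_comm, add_assoc]⟩
    have h2 : ∀ i j, j ≤ i → (h.pr ((j.descFactorial l : B) • (p * P ^ (j - l)))).coeff i =
        j.descFactorial l * σ.coeff (i - j) := fun i j e => by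
      rw [map_smul, h.pr_pow, Polynomial.coeff_smul, Polynomial.coeff_mul_X_pow', if_pos (by omega),
        hσ, smul_eq_mul]
      by_cases e' : l ≤ j
      · rw [show i - (j - l) = i - j + l by omega]
      · simp [Nat.descFactorial_of_lt (not_le.1 e')]
    have h3 := aeval_mem_Al (δ := δ) (T := Dt.th B) (Algebra.subset_adjoin (by simp))
      (descPochhammer B l)
    refine ⟨_, mul_mem (aeval_mem_Al (T := LinearMap.mulLeft B Polynomial.X)
      (Algebra.subset_adjoin (by simp)) σ) h3, _, mul_mem h3 (aeval_mem_Al (T := δ)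
      (Algebra.subset_adjoin (by simp)) (σ - Polynomial.C (σ.coeff 0))), fun i j => ⟨?_, ?_⟩⟩
    · have h4 : Polynomial.aeval (Dt.th B) (descPochhammer B l) (Polynomial.X ^ j) =
          (j.descFactorial l : B) • Polynomial.X ^ j := by
        ext i
        rw [coeff_th, descPochhammer_eval_eq_descFactorial]
        by_cases e : i = j <;> simp [e, Polynomial.coeff_X_pow]
      have h5 : Polynomial.aeval (LinearMap.mulLeft B (Polynomial.X : Polynomial B)) σ =
          LinearMap.mulLeft B σ := by
        have := Polynomial.aeval_algHom_apply (Algebra.lmul B (Polynomial B)) Polynomial.X σ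
        rw [Polynomial.aeval_X_left_apply] at this
        exact this
      rw [Module.End.mul_apply, h4, h5, map_smul, LinearMap.mulLeft_apply, Polynomial.coeff_smul,
        Polynomial.coeff_mul_X_pow']
      split_ifs with e
      · rw [h2 _ _ e, smul_eq_mul]
      · simp
    · rw [Module.End.mul_apply, coeff_th, descPochhammer_eval_eq_descFactorial, coeff_dl h0 h1]
      rcases lt_trichotomy i j with e | rfl | e
      · rw [if_pos e.le, if_pos e, h2 _ _ e.le, Polynomial.coeff_sub, Polynomial.coeff_C,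
          if_neg (by omega)]
        ring
      · simp
      · simp [e.not_ge, e.not_gt]

theorem CayW.core (h : CayW w P b) (h0 : δ 1 = 0)
    (h1 : ∀ j, δ (Polynomial.X ^ (j + 1)) = (b j : B) • Polynomial.X ^ j)
    {Q : Module.End B (MvPolynomial β B)} (hQ : Q ∈ Wd B β) :
    ∃ A ∈ Dt.Al δ, ∀ φ, h.pr (Q (Polynomial.aeval P φ)) = A φ := by
  have h2 : (fun j => P ^ j) ∈ Fa P := Submodule.subset_span ⟨0, 1, by simp⟩
  obtain ⟨c', Q', hQ', h3⟩ := exists_adj h.unit hQ
  obtain ⟨A, hA, _, -, h4⟩ := h.split h0 h1 (mem_Fa hQ h2)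
  obtain ⟨_, -, A', hA', h5⟩ := h.split h0 h1 (mem_Fa hQ' h2)
  refine ⟨A + c' • A', add_mem hA (Subalgebra.smul_mem _ hA' c'), fun φ => ?_⟩
  induction φ using Polynomial.induction_on' with
  | add φ φ' h6 h7 => simp only [map_add, h6, h7]
  | monomial j c =>
    rw [← Polynomial.smul_X_eq_monomial, map_smul, map_smul, map_smul, map_smul, map_pow,
      Polynomial.aeval_X]
    congr 1
    ext i
    rw [LinearMap.add_apply, Polynomial.coeff_add, LinearMap.smul_apply, Polynomial.coeff_smul,
      (h4 i j).1, (h5 i j).2]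
    rcases le_or_gt j i with e | e
    · simp [e, e.not_gt]
    · simp only [e, e.not_ge, if_true, if_false, h.coeff_pr, h3, fB_comm w (P ^ j), zero_add,
        Units.val_mul, smul_eq_mul]
      rw [mul_comm (Dt.nn b j : B), mul_assoc, Units.mul_inv_cancel_left, mul_left_comm]

theorem exists_dl (b : ℕ → B) : ∃ δ : Module.End B (Polynomial B), δ 1 = 0 ∧
    ∀ j, δ (Polynomial.X ^ (j + 1)) = b j • Polynomial.X ^ j := by
  let v : ℕ → Polynomial B := fun j => Nat.rec 0 (fun i _ => b i • Polynomial.X ^ i) j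
  have h : ∀ j, (Polynomial.basisMonomials B).constr B v (Polynomial.X ^ j) = v j := fun j => by
    have := (Polynomial.basisMonomials B).constr_basis B v j
    simpa only [Polynomial.coe_basisMonomials, Polynomial.monomial_one_right_eq_X_pow] using this
  exact ⟨(Polynomial.basisMonomials B).constr B v, (congrArg _ (pow_zero _).symm).trans (h 0),
    fun j => h (j + 1)⟩

end pairing

variable {k β γ ζ : Type} [Field k] [Fintype β] [DecidableEq β] [Fintype γ] [DecidableEq γ]
  [Fintype ζ] [DecidableEq ζ]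

theorem scB_map (w : β → k) (u : MvPolynomial β k) :
    scB (fun a => (C (w a) : MvPolynomial ζ k)) (map C u) = map C (sc w u) := by
  induction u using MvPolynomial.induction_on' with
  | add u u' h h' => simp only [map_add, h, h']
  | monomial e c => simp [scB_monomial, sc_monomial]

theorem fis_map (u v : MvPolynomial β k) :
    fis (map (C : k →+* MvPolynomial ζ k) u) (map C v) = C (fis u v) := by
  induction u using MvPolynomial.induction_on' with
  | add u u' h h' => simp [h, h']
  | monomial e c => simp [fis_monomial, coeff_map]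

theorem cayW {w : β → k} {P : MvPolynomial β k} {b : ℕ → kˣ} (hw : ∀ a, w a ≠ 0)
    (h0 : constantCoeff P = 0) (h : CayR w P fun j => b j) :
    CayW (fun a => (C (w a) : MvPolynomial ζ k)) (map C P)
      fun j => Units.map C.toMonoidHom (b j) := by
  refine ⟨fun a => (IsUnit.mk0 _ (hw a)).map C, by simp [constantCoeff_map, h0], fun j v => ?_⟩
  induction v using MvPolynomial.induction_on' with
  | add v v' h1 h2 => simp only [mul_add, map_add, h1, h2]
  | monomial e c =>
    have h1 : monomial e c = c • map (C : k →+* MvPolynomial ζ k) (monomial e 1) := by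
      simp [smul_monomial]
    have h2 := h j (monomial e 1)
    rw [fw_apply, fw_apply] at h2
    rw [h1, mul_smul_comm, map_smul, map_smul, ← map_pow, ← map_pow, ← map_mul, fB_apply, fB_apply,
      scB_map, scB_map, fis_map, fis_map, h2, smul_eq_mul, smul_eq_mul, mul_left_comm, map_mul]
    rfl

variable (ζ) in
theorem exists_lift {D : Module.End k (MvPolynomial γ k)} (hD : D ∈ Wl k γ) :
    ∃ D' ∈ Wl k (γ ⊕ ζ), ∀ (c : MvPolynomial ζ k) p,
      D' (rename Sum.inr c * rename Sum.inl p) = rename Sum.inr c * rename Sum.inl (D p) := by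
  induction hD using Algebra.adjoin_induction with
  | mem D hD =>
    rcases hD with ⟨a, rfl⟩ | ⟨a, rfl⟩
    · exact ⟨_, Algebra.subset_adjoin (Or.inl ⟨.inl a, rfl⟩), fun c p => by
        simp [mul_left_comm]⟩
    · exact ⟨_, Algebra.subset_adjoin (Or.inr ⟨.inl a, rfl⟩), fun c p => by
        simp [pderiv_rename_inl, pderiv_rename Sum.inl_injective]⟩
  | algebraMap c => exact ⟨_, Subalgebra.algebraMap_mem _ c, fun c' p => by simp⟩
  | add D E _ _ h1 h2 =>
    obtain ⟨D', h3, h4⟩ := h1
    obtain ⟨E', h5, h6⟩ := h2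
    exact ⟨D' + E', add_mem h3 h5, fun c p => by simp [h4, h6, mul_add]⟩
  | mul D E _ _ h1 h2 =>
    obtain ⟨D', h3, h4⟩ := h1
    obtain ⟨E', h5, h6⟩ := h2
    exact ⟨D' * E', mul_mem h3 h5, fun c p => by simp [h4, h6]⟩

variable {g : MvPolynomial γ k} {f : MvPolynomial (γ ⊕ ζ) k}
  {ψ : ℕ → Polynomial (MvPolynomial ζ k)}

theorem Fm_lift {D : Module.End k (MvPolynomial γ k)} (hD : D ∈ Wl k γ)
    {T : Module.End (MvPolynomial ζ k) (Polynomial (MvPolynomial ζ k))}
    (hT : ∀ j, sub ζ g (T (Polynomial.X ^ j)) = rename Sum.inl (D (g ^ j)))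
    (h : (fun m => sub ζ g (ψ m)) ∈ Fm f) : (fun m => sub ζ g (T (ψ m))) ∈ Fm f := by
  obtain ⟨D', h1, h2⟩ := exists_lift ζ hD
  refine mo (Fm_op h h1) fun m => ?_
  generalize ψ m = φ
  induction φ using Polynomial.induction_on' with
  | add φ φ' h3 h4 => simp only [map_add, h3, h4]
  | monomial j c =>
    rw [← Polynomial.smul_X_eq_monomial, map_smul T, Polynomial.smul_eq_C_mul,
      Polynomial.smul_eq_C_mul, map_mul (sub ζ g), map_mul (sub ζ g), sub_C, hT, map_pow, sub_X,
      ← map_pow, h2]

theorem Fm_Al {b : ℕ → k} (hg : Low g b)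
    {δ : Module.End (MvPolynomial ζ k) (Polynomial (MvPolynomial ζ k))} (h0 : δ 1 = 0)
    (h1 : ∀ j, δ (Polynomial.X ^ (j + 1)) = (C (b j) : MvPolynomial ζ k) • Polynomial.X ^ j)
    {A : Module.End _ (Polynomial (MvPolynomial ζ k))}
    (hA : A ∈ Dt.Al δ) (h : (fun m => sub ζ g (ψ m)) ∈ Fm f) :
    (fun m => sub ζ g (A (ψ m))) ∈ Fm f := by
  obtain ⟨-, ⟨E, hE, e1⟩, D, hD, d0, d1⟩ := hg
  induction hA using Algebra.adjoin_induction generalizing ψ with
  | mem A hA =>
    rcases hA with rfl | rfl | rfl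
    · simpa using Fm_mul h (rename Sum.inl g)
    · refine Fm_lift hE (fun j => ?_) h
      rcases j with _ | j
      · simpa [Dt.th] using congrArg (rename (Sum.inl : γ → γ ⊕ ζ)) (e1 0).symm
      · rw [e1]
        simp [Dt.th, smul_eq_C_mul]
        ring
    · refine Fm_lift hD (fun j => ?_) h
      rcases j with _ | j
      · simp [h0, d0]
      · rw [h1, d1]
        simp [Polynomial.smul_eq_C_mul, smul_eq_C_mul]
  | algebraMap c => simpa [Polynomial.smul_eq_C_mul] using Fm_mul h (rename Sum.inr c)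
  | add A A' _ _ h1 h2 => exact mo (add_mem (h1 h) (h2 h)) (by simp)
  | mul A A' _ _ h1 h2 => exact h1 (h2 h)

theorem transfer {w : β → k} {P : MvPolynomial β k} {b : ℕ → kˣ} (hg : Low g fun j => b j)
    (h : CayW (fun a => (C (w a) : MvPolynomial ζ k)) (map C P)
      fun j => Units.map C.toMonoidHom (b j))
    {F : Polynomial (MvPolynomial ζ k)} {c : Polynomial k} (hF : LB (sub ζ P F) c) :
    LB (sub ζ g F) c := by
  obtain ⟨u, h0, h1⟩ := hF
  obtain ⟨δ, d0, d1⟩ := exists_dl fun j => (C (b j : k) : MvPolynomial ζ k)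
  let T : Submodule k (ℕ → MvPolynomial (β ⊕ ζ) k) :=
    { carrier := {Φ | ∀ Q ∈ Wd _ β, (fun m => sub ζ g (h.pr (Q (toIt k β ζ (Φ m))))) ∈
        Fm (sub ζ g F)}
      add_mem' := fun h2 h3 Q hQ => mo (add_mem (h2 Q hQ) (h3 Q hQ)) (by simp)
      zero_mem' := fun Q hQ => mo (zero_mem _) (by simp)
      smul_mem' := fun c Φ h2 Q hQ => mo (Submodule.smul_mem _ c (h2 Q hQ)) (by simp) }
  have h2 : Fm (sub ζ P F) ≤ T := by
    refine Fm_le (fun Q hQ => ?_) (fun Φ hΦ j Q hQ => ?_) (fun Φ hΦ j Q hQ => ?_)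
      fun Φ hΦ Q hQ => mo (Fm_nat (hΦ Q hQ)) (by simp)
    · obtain ⟨A, hA, h3⟩ := h.core (δ := δ) d0 d1 hQ
      refine mo (Fm_Al hg d0 d1 hA (ψ := fun m => F ^ (m + 1)) (by simpa using Fm_base))
        fun m => ?_
      beta_reduce
      rw [← map_pow (sub ζ P), toIt_sub, h3]
    · rcases j with a | j
      · exact mo (hΦ _ (mul_mem hQ (Submonoid.subset_closure (Or.inl ⟨a, rfl⟩)))) (by simp [toIt])
      · refine mo (Fm_mul (hΦ Q hQ) (X (.inr j))) fun m => ?_
        rw [map_mul, show toIt k β ζ (X (.inr j)) = C (X j) by simp [toIt], C_mul', map_smul,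
          map_smul]
        simp [Polynomial.smul_eq_C_mul]
    · rcases j with a | j
      · exact mo (hΦ _ (mul_mem hQ (Submonoid.subset_closure (Or.inr ⟨a, rfl⟩))))
          (by simp [toIt_pderiv])
      · refine mo (Fm_pderiv (hΦ Q hQ) (.inr j)) fun m => (pderiv_sub_inr _ _ fun i => ?_).symm
        rw [h.coeff_pr, h.coeff_pr, ← map_pow, fB_apply, fB_apply, scB_map,
          ((rel_toIt j (Φ m)).wd hQ).fis, Dt.nn, ← map_prod, ← map_inv]
        exact pderiv_C_mul.symm
  refine ⟨sub ζ g (h.pr (toIt k β ζ u)), ?_, mo (h2 h1 1 (one_mem _)) fun m => ?_⟩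
  · have h3 : ∀ φ, constantCoeff (sub ζ g φ) = constantCoeff (φ.coeff 0) := fun φ => by
      induction φ using Polynomial.induction_on' with
      | add φ φ' h h' => simp [h, h']
      | monomial j c =>
        rw [← Polynomial.C_mul_X_pow_eq_monomial]
        rcases j with _ | j <;> simp [hg.1]
    have h4 : ∀ u, constantCoeff (constantCoeff (toIt k β ζ u)) = constantCoeff u := fun u => by
      induction u using MvPolynomial.induction_on with
      | C c => simp [toIt]
      | add p q hp hq => simp [hp, hq]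
      | mul_X p i hp => rcases i with i | i <;> simp [toIt]
    rwa [h3, h.coeff_pr, pow_zero, fB_one, Dt.nn, Finset.prod_range_zero, inv_one, Units.val_one,
      one_mul, h4]
  · rw [Module.End.one_apply, map_smul, ← map_pow, map_mul, toIt_sub, LinearMap.map_smul_of_tower,
      h.pr_aeval, map_smul, map_mul, map_pow]

end Trans

theorem trans {k : Type} [Field k] [CharZero k] : TransStmt k := by
  intro β γ ζ _ _ _ _ _ _ w P g b hw hb h0 h hg G c hF
  rw [← sub_eq_sb] at hF ⊢
  exact Trans.transfer (b := fun j => Units.mk0 (b j) (hb j)) hg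
    (Trans.cayW (b := fun j => Units.mk0 (b j) (hb j)) hw h0 h) hF

end

end Pool.Agent.P.MP_b91a16_ag.JB
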