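import Pool.Agent.P.MP_b91a16_ag.JB.Asm
import Pool.Agent.P.MP_b91a16_ag.JB.Trans
import Pool.Agent.P.MP_b91a16_ag.JB.Peirce
import Pool.Agent.P.MP_b91a16_ag.JB.CaySym
import Pool.Agent.P.MP_b91a16_ag.JB.CayPf
import Pool.Agent.P.MP_b91a16_ag.JB.CayE6
import Pool.Agent.P.MP_b91a16_ag.JB.LowTw
import Pool.Agent.P.MP_b91a16_ag.JB.Nd
import Pool.Agent.P.MP_b91a16_ag.JB.LawTw
import Pool.Agent.P.MP_b91a16_ag.JB.LawPf
import Pool.Agent.P.MP_b91a16_ag.JB.LawE6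
import Pool.Agent.P.MP_b91a16_ag.JB.LawQuad
import Pool.Agent.P.MP_b91a16_ag.JB.SymRec

/-! The strong motivic monodromy conjecture for compositions with Jordan norms. -/

namespace Pool.Agent.P.MP_b91a16_ag.JB

theorem main {k : Type} [Field k] [CharZero k] {r l N : ℕ} {β : Fin r → Type}
    (P : ∀ i, MvPolynomial (β i) k) (hP : ∀ i, IsNorm k (β i) (P i))
    (ε : (Σ i, β i) ⊕ Fin l ≃ Fin N) (F : MvPolynomial (Fin (r + l)) k)
    (hF : F ≠ 0) (h0 : MvPolynomial.constantCoeff F = 0) (hN : Nondeg F) :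
    ∃ S : Finset (ℕ × ℕ), zeta (comp P ε F) ∈ poleRing k S ∧ ∀ p ∈ S, 0 < p.1 ∧ 0 < p.2 ∧
      ∀ b, LocalBernsteinEq (comp P ε F) b → b.eval (-(p.1 : k) / p.2) = 0 :=
  main_of nd P (fun i => hasModel trans (caySym peirce) (cayPf peirce) cayE6 low (lawPf lawTw)
    (lawE6 lawTw) (lawSym lawTw quad symRec) (hP i)) ε F hF h0 hN

end Pool.Agent.P.MP_b91a16_ag.JB
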