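import Pool.Agent.P.MP_b91a16_ag.JB.Calc

/-! The law of the `E₆` cubic. -/

set_option linter.unusedSectionVars false

open MvPolynomial

namespace Pool.Agent.P.MP_b91a16_ag.JB

noncomputable section

open St Dt Function

namespace LawE6

section alg

variable {S : Type} [CommRing S]

/-- The skew part. -/
def sk {ι : Type} (y : ι × ι → S) (i j : ι) : S := y (i, j) - y (j, i)

/-- The Pfaffians of size four of a skew matrix of size five. -/
def p4 (y : Fin 5 × Fin 5 → S) (j : Fin 5) : S :=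
  sk y (j + 1) (j + 2) * sk y (j + 3) (j + 4) + sk y (j + 3) (j + 1) * sk y (j + 2) (j + 4) +
    sk y (j + 1) (j + 4) * sk y (j + 2) (j + 3)

/-- `Pf ω + s ∑ ω_{0 j} r_j`. -/
def f5 (s : S) (y : Fin 5 × Fin 5 → S) (w r : Fin 5 → S) : S := ∑ j, w j * (p4 y j + s * r j)

/-- `Pf ω + s ω (r, q)`. -/
def f6 (s : S) (y : Fin 6 × Fin 6 → S) (r q : Fin 6 → S) : S :=
  ∑ j : Fin 5, sk y 0 j.succ * p4 (fun p => y (p.1.succ, p.2.succ)) j +
    s * ∑ i, ∑ j, r i * sk y i j * q j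

/-- Even permutations. -/
def σ : Fin 6 → Fin 6 → Fin 6 := ![![0, 1, 2, 3, 4, 5], ![1, 0, 2, 3, 5, 4], ![2, 0, 1, 3, 4, 5],
  ![3, 0, 1, 2, 5, 4], ![4, 0, 1, 2, 3, 5], ![5, 0, 1, 2, 4, 3]]

theorem f6_perm (c : Fin 6) (s : S) (y : Fin 6 × Fin 6 → S) (r q : Fin 6 → S) :
    f6 s (fun p => y (σ c p.1, σ c p.2)) (fun i => r (σ c i)) (fun i => q (σ c i)) = f6 s y r q := by
  fin_cases c <;> simp [f6, p4, sk, σ, Fin.sum_univ_six, Fin.sum_univ_five] <;> ring

theorem id6 (s : S) (y : Fin 6 × Fin 6 → S) (r q : Fin 6 → S) :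
    f6 s (fun p => r 0 ^ ((if p.1 = 1 then 1 else 0) + if p.2 = 1 then 1 else 0) * y p) r
      (fun j => r 0 ^ (if j = 0 then 1 else 0) * q j) =
    f5 s (fun p => y (p.1.succ, p.2.succ))
      (fun j => r 0 * y (0, j.succ) + (∑ l : Fin 5, r 0 ^ (if l = 0 then 1 else 0) * r l.succ *
        (y (l.succ, j.succ) - y (j.succ, l.succ)) - r 0 * y (j.succ, 0)))
      (fun j => r 0 ^ (if j = 0 then 1 else 0) * q j.succ +
        -(r 0 ^ (if j = 0 then 1 else 0) * q 0 * r j.succ)) := by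
  simp [f6, f5, p4, sk, Fin.sum_univ_six, Fin.sum_univ_five]
  ring

theorem id5 (c : Fin 5) (s : S) (y : Fin 5 × Fin 5 → S) (w r : Fin 5 → S) :
    f5 s (fun p => w c ^ ((if p.1 = c then 1 else 0) + if p.2 = c then 1 else 0) * y p) w r =
    w c * p4 (fun p => y p - w p.1 * sk y c p.2) c + s * ∑ j, w j * r j := by
  fin_cases c <;> simp [f5, p4, sk, Fin.sum_univ_five] <;> ring

theorem dvd65 (s : S) (y : Fin 6 × Fin 6 → S) (r q : Fin 6 → S) (r' : Fin 5 → S) :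
    s ∣ f6 s y r q - f5 s (fun p => y (p.1.succ, p.2.succ)) (fun j => sk y 0 j.succ) r' :=
  ⟨∑ i, ∑ j, r i * sk y i j * q j - ∑ j : Fin 5, sk y 0 j.succ * r' j, by
    simp only [f6, f5, Fin.sum_univ_five]; ring⟩

theorem dz {x y : S} (h : y = 0) : x ∣ y := h ▸ dvd_zero x

end alg

abbrev B6 : Type := (Fin 6 × Fin 6) ⊕ Fin 6 ⊕ Fin 6
abbrev B5 : Type := (Fin 5 × Fin 5) ⊕ Fin 5 ⊕ Fin 5
abbrev B3 : Type := Option (Fin 3 ⊕ Fin 3)
abbrev B9 : Type := (Fin 3 ⊕ Fin 6) ⊕ Fin 3 ⊕ Fin 6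

/-- Polynomial functions with a parameter. -/
abbrev NF (β : Type) : Type 1 := ∀ (S : Type) [CommRing S], S → (β → S) → S

/-- Compatibility with ring homomorphisms. -/
def Nt {β : Type} (F : NF β) : Prop := ∀ (S T : Type) [CommRing S] [CommRing T] (φ : S →+* T) s γ,
  φ (F S s γ) = F T (φ s) fun j => φ (γ j)

def F6 : NF B6 := fun _ _ s γ =>
  f6 s (fun p => γ (.inl p)) (fun i => γ (.inr (.inl i))) fun i => γ (.inr (.inr i))

def F5 : NF B5 := fun _ _ s γ =>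
  f5 s (fun p => γ (.inl p)) (fun i => γ (.inr (.inl i))) fun i => γ (.inr (.inr i))

def F3 : NF B3 := fun _ _ s γ => ∑ i, γ (some (.inl i)) * γ (some (.inr i)) + s * γ none

def F9 : NF B9 := fun _ _ s γ => ∑ i, γ (.inl (.inl i)) * γ (.inr (.inl i)) +
  s * ∑ j, γ (.inl (.inr j)) * γ (.inr (.inr j))

theorem n6 : Nt F6 := fun _ _ _ _ φ s γ => by simp [F6, f6, p4, sk]
theorem n5 : Nt F5 := fun _ _ _ _ φ s γ => by simp [F5, f5, p4, sk]
theorem n3 : Nt F3 := fun _ _ _ _ φ s γ => by simp [F3]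
theorem n9 : Nt F9 := fun _ _ _ _ φ s γ => by simp [F9]

variable {k β β' ζ α : Type} [Field k] [Fintype β] [DecidableEq β] [Fintype β'] [DecidableEq β']
  [Fintype ζ] [DecidableEq ζ] {Φ : AP k (Option ζ)} {M : ℕ} {F : NF β} {G : NF β'}

variable (k) in
/-- The polynomial `t ^ a F (t ^ b, x)`. -/
def pol (F : NF β) (a b : ℕ) : MvPolynomial (Option β) k :=
  X none ^ a * F _ (X none ^ b) fun j => X (some j)

theorem map_pol (hF : Nt F) {T : Type} [CommRing T] [Algebra k T]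
    (φ : MvPolynomial (Option β) k →ₐ[k] T) (a b : ℕ) :
    φ (pol k F a b) = φ (X none) ^ a * F T (φ (X none) ^ b) fun j => φ (X (some j)) := by
  rw [pol, map_mul, map_pow, ← map_pow φ _ b]
  exact congrArg _ (hF _ _ (φ : MvPolynomial (Option β) k →+* T) _ _)

theorem sbt_ren (hG : Nt G) (ψ : β → MvPolynomial (Option β) k) (ε : β' → β) (a b : ℕ) :
    sbt ψ (rename (Option.map ε) (pol k G a b)) =
      X none ^ a * G _ (X none ^ b) fun j => ψ (ε j) := by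
  simpa using map_pol hG ((sbt ψ).comp (rename (Option.map ε))) a b

theorem triT_scale (p : β) (n : β → ℕ) (hn : n p = 0) :
    TriT (fun j => X (some p) ^ n j * X (some j) : β → MvPolynomial (Option β) k) {p} := by
  refine fun S _ _ t => ⟨fun γ γ' h e => ?_, fun γ' h => ?_⟩
  · have h0 : γ' p = γ p := by simpa [hn] using e p
    funext j
    exact ((h p (by simp)).pow (n j)).mul_left_cancel (by simpa [h0] using e j)
  · obtain ⟨u, hu⟩ := (h p (by simp)).exists_right_inv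
    exact ⟨fun j => u ^ n j * γ' j, fun j => by simp [hn, ← mul_assoc, ← mul_pow, hu]⟩

theorem triT_id (U : Finset β) :
    TriT (fun j => X (some j) : β → MvPolynomial (Option β) k) U :=
  fun S _ _ t => ⟨fun γ γ' _ e => funext fun j => by simpa using e j, fun γ' _ => ⟨γ', by simp⟩⟩

theorem exists_ext {T : Type} {ι : α → β} (hι : Injective ι) (u : α → T) (v : β → T) :
    ∃ w : β → T, (∀ i, w (ι i) = u i) ∧ ∀ j, (∀ i, ι i ≠ j) → w j = v j :=
  ⟨extend ι u v, hι.extend_apply u v, fun j hj => extend_apply' u v j (not_exists.2 hj)⟩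

/-- Triangular substitutions with one level. -/
theorem exists_tri {ι : α → β} (hι : Injective ι) (c f : α → MvPolynomial (Option β) k)
    {U : Finset β} (h : ∀ (S : Type) [CommRing S] [Algebra k S] (t : S) (γ γ' : β → S),
      (∀ j, (∀ i, ι i ≠ j) → γ' j = γ j) → ∀ i,
      ((∀ p ∈ U, IsUnit (γ p)) → IsUnit (aeval (fun o : Option β => o.elim t γ) (c i))) ∧
      aeval (fun o : Option β => o.elim t γ') (c i) = aeval (fun o : Option β => o.elim t γ) (c i) ∧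
      aeval (fun o : Option β => o.elim t γ') (f i) =
        aeval (fun o : Option β => o.elim t γ) (f i)) :
    ∃ ψ, TriT ψ U ∧ (∀ i, ψ (ι i) = c i * X (some (ι i)) + f i) ∧
      ∀ j, (∀ i, ι i ≠ j) → ψ j = X (some j) := by
  obtain ⟨ψ, h1, h2⟩ := exists_ext hι (fun i => c i * X (some (ι i)) + f i) fun j => X (some j)
  refine ⟨ψ, fun S _ _ t => ⟨fun γ γ' hu e => ?_, fun γ' hu => ?_⟩, h1, h2⟩
  · have h0 : ∀ j, (∀ i, ι i ≠ j) → γ' j = γ j := fun j hj => by simpa [h2 j hj] using e j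
    funext j
    by_cases hj : ∃ i, ι i = j
    · obtain ⟨i, rfl⟩ := hj
      obtain ⟨a1, a2, a3⟩ := h S t γ γ' h0 i
      exact (a1 hu).mul_left_cancel (by simpa [h1, a2, a3] using e (ι i))
    · exact h0 j (not_exists.1 hj)
  · choose u hu using fun i => ((h S t γ' γ' (fun _ _ => rfl) i).1 hu).exists_right_inv
    obtain ⟨γ, g1, g2⟩ := exists_ext hι
      (fun i => u i * (γ' (ι i) - aeval (fun o : Option β => o.elim t γ') (f i))) γ'
    refine ⟨γ, fun j => ?_⟩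
    by_cases hj : ∃ i, ι i = j
    · obtain ⟨i, rfl⟩ := hj
      obtain ⟨-, a2, a3⟩ := h S t γ' γ g2 i
      simp [h1, a2, a3, g1, ← mul_assoc, hu]
    · simp [h2 j (not_exists.1 hj), g2 j (not_exists.1 hj)]

/-- The data for a pivot. -/
def Piv (k : Type) [Field k] (F : NF β) (G : NF β') {D : ℕ} (ρ : Fin D → β) (c : Fin D) : Prop :=
  ∃ (ε : β' ↪ β) (ψ ψ' : β → MvPolynomial (Option β) k), (∀ j c, ε j ≠ ρ c) ∧
    TriT ψ {ρ c} ∧ TriT ψ' {ρ c} ∧ (∀ c, ψ (ρ c) = X (some (ρ c))) ∧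
    (∀ c, ψ' (ρ c) = X (some (ρ c))) ∧ ∀ s, F _ s ψ = G _ s fun j => ψ' (ε j)

theorem step (h : Adm Φ M) (hF : Nt F) (hG : Nt G) {D : ℕ} (ρ : Fin D ↪ β)
    (hp : ∀ c, Piv k F G ρ c) {a b a' b' : ℕ}
    (hs : X none ^ a * F _ (X none ^ b) (fun j => if j ∈ Finset.univ.map ρ then
      X none * X (some j) else X (some j)) = pol k F a' b') :
    lc Φ (pol k F a b) ∅ ∅ = (1 - Linv k ^ D) * lc Φ (pol k G a b) ∅ ∅ +
      Linv k ^ D * lc Φ (pol k F a' b') ∅ ∅ := by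
  rw [h.step ρ (R' := pol k G a b) fun c => ?_, map_pol hF, ← hs]
  · simp
  obtain ⟨ε, ψ, ψ', h1, h2, h3, h4, h5, h6⟩ := hp c
  exact ⟨ε, ψ, ψ', h1, h2, h3, h4, h5, by rw [sbt_ren hG, map_pol hF, ← h6]; simp⟩

theorem chg (h : Adm Φ M) (ε : β' ↪ β) {ψ : β → MvPolynomial (Option β) k} (hψ : TriT ψ ∅)
    {R : MvPolynomial (Option β) k} {R' : MvPolynomial (Option β') k}
    (e : X none ^ (M + 1) ∣ R - sbt ψ (rename (Option.map ε) R')) :
    lc Φ R' ∅ ∅ = lc Φ R ∅ ∅ := by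
  rw [← h.congr (R := sbt ψ (rename (Option.map ε) R')) fun K _ _ γ _ => by
    simpa using map_dvd (ev γ) e, ← h.tri' _ hψ (by simp), h.rename' _ ε (by simp) (by simp)]
  simp

def ρ6 : Fin 6 ↪ B6 := ⟨fun i => .inr (.inl i), fun _ _ h => by simpa using h⟩
def ρ5 : Fin 5 ↪ B5 := ⟨fun i => .inr (.inl i), fun _ _ h => by simpa using h⟩
def ρ9 : Fin 6 ↪ B9 := ⟨fun i => .inl (.inr i), fun _ _ h => by simpa using h⟩

def ε6 (τ : Fin 6 → Fin 6) : B5 → B6 := Sum.elim (fun p => .inl (τ p.1.succ, τ p.2.succ))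
  (Sum.elim (fun j => .inl (τ 0, τ j.succ)) fun j => .inr (.inr (τ j.succ)))

theorem ε6_inj {τ : Fin 6 → Fin 6} (hτ : Injective τ) : Injective (ε6 τ) := by
  rintro (p | i | i) (q | j | j) <;>
    simp [ε6, hτ.eq_iff, Prod.ext_iff, Fin.succ_ne_zero, (Fin.succ_ne_zero _).symm]

theorem piv6 (c : Fin 6) : Piv k F6 F5 ρ6 c := by
  obtain ⟨τ, rfl, hτ, hp⟩ : ∃ τ : Fin 6 → Fin 6, τ 0 = c ∧ Injective τ ∧
      ∀ (s : MvPolynomial (Option B6) k) y r q, f6 s (fun p => y (τ p.1, τ p.2))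
        (fun i => r (τ i)) (fun i => q (τ i)) = f6 s y r q :=
    ⟨σ c, by revert c; decide, by revert c; decide, f6_perm c⟩
  let y : Fin 6 × Fin 6 → MvPolynomial (Option B6) k := fun p => X (some (.inl (τ p.1, τ p.2)))
  let r : Fin 6 → MvPolynomial (Option B6) k := fun i => X (some (.inr (.inl (τ i))))
  let q : Fin 6 → MvPolynomial (Option B6) k := fun i => X (some (.inr (.inr (τ i))))
  obtain ⟨ψ, h1, h2, h3⟩ := exists_tri (k := k) ((ε6_inj hτ).comp Sum.inr_injective)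
    (Sum.elim (fun _ => r 0) fun j => r 0 ^ (if j = 0 then 1 else 0))
    (Sum.elim (fun j => ∑ l : Fin 5, r 0 ^ (if l = 0 then 1 else 0) * r l.succ *
        (y (l.succ, j.succ) - y (j.succ, l.succ)) - r 0 * y (j.succ, 0))
      fun j => -(r 0 ^ (if j = 0 then 1 else 0) * q 0 * r j.succ)) (U := {ρ6 (τ 0)})
    fun S _ _ t γ γ' e i => by
      have e1 : ∀ i, γ' (.inr (.inl i)) = γ (.inr (.inl i)) := fun i => e _ (by simp [ε6])
      have e2 : ∀ (l : Fin 5) m, γ' (.inl (τ l.succ, m)) = γ (.inl (τ l.succ, m)) := fun l m =>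
        e _ (by simp [ε6, hτ.eq_iff, (Fin.succ_ne_zero _).symm])
      have e3 : γ' (.inr (.inr (τ 0))) = γ (.inr (.inr (τ 0))) :=
        e _ (by simp [ε6, hτ.eq_iff, Fin.succ_ne_zero])
      rcases i with j | j <;>
        simp only [y, r, q, Sum.elim_inl, Sum.elim_inr, map_sub, map_sum, map_mul, map_pow, map_neg,
          aeval_X, Option.elim_some, e1, e2, e3, and_self, and_true]
      · exact fun hu => hu _ (Finset.mem_singleton_self _)
      · exact fun hu => (hu _ (Finset.mem_singleton_self _)).pow _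
  refine ⟨⟨_, ε6_inj hτ⟩, _, ψ, by rintro (p | i | i) c <;> simp [ε6, ρ6],
    triT_scale _ (Sum.elim (fun p => (if p.1 = τ 1 then 1 else 0) + if p.2 = τ 1 then 1 else 0)
      (Sum.elim 0 fun j => if j = τ 0 then 1 else 0)) rfl, h1, fun c => by simp [ρ6],
    fun c => h3 _ (by simp [ε6, ρ6]), fun s => ?_⟩
  have h4 : ∀ p : Fin 5 × Fin 5, ψ (ε6 τ (.inl p)) = y (p.1.succ, p.2.succ) := fun p =>
    h3 _ fun i hi => by simpa using ε6_inj hτ hi
  have h5 := id6 s y r q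
  simp only [F6, F5, Embedding.coeFn_mk, h4]
  rw [← hp]
  refine Eq.trans ?_ (h5.trans ?_)
  · simp only [ρ6, Embedding.coeFn_mk, Sum.elim_inl, Sum.elim_inr, hτ.eq_iff, Pi.zero_apply,
      pow_zero, one_mul, y, r, q]
  · exact congrArg₂ _ (funext fun j => (h2 (.inl j)).symm) (funext fun j => (h2 (.inr j)).symm)

/-- The positions of the variables of the quadratic form. -/
def sl : Fin 3 ⊕ Fin 3 → Fin 5 × Fin 5 :=
  Sum.elim ![(1, 2), (3, 1), (1, 4)] ![(3, 4), (2, 4), (2, 3)]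

def ε5 (c : Fin 5) : B3 → B5 := fun o =>
  o.elim (.inr (.inr c)) fun i => .inl (c + (sl i).1, c + (sl i).2)

theorem piv5 (c : Fin 5) : Piv k F5 F3 ρ5 c := by
  have hε : Injective (ε5 c) := by revert c; decide
  let y : Fin 5 × Fin 5 → MvPolynomial (Option B5) k := fun p => X (some (.inl p))
  let w : Fin 5 → MvPolynomial (Option B5) k := fun i => X (some (.inr (.inl i)))
  let r : Fin 5 → MvPolynomial (Option B5) k := fun i => X (some (.inr (.inr i)))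
  let m : Fin 3 ⊕ Fin 3 → MvPolynomial (Option B5) k := Sum.elim (fun _ => w c) 1
  obtain ⟨ψ, h1, h2, h3⟩ := exists_tri (k := k) hε (fun o => o.elim (w c) m)
    (fun o => o.elim (∑ j ∈ Finset.univ.erase c, w j * r j) fun i =>
      m i * (-(w (c + (sl i).1) * sk y c (c + (sl i).2)) - (y (c + (sl i).2, c + (sl i).1) -
        w (c + (sl i).2) * sk y c (c + (sl i).1)))) (U := {ρ5 c})
    fun S _ _ t γ γ' e i => by
      have e1 : ∀ i, γ' (.inr (.inl i)) = γ (.inr (.inl i)) := fun i =>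
        e _ (by rintro (_ | _) <;> simp [ε5])
      have e2 : ∀ m, γ' (.inl (c, m)) = γ (.inl (c, m)) := fun m =>
        e _ (by clear * -; revert c m; decide)
      have e3 : ∀ m, γ' (.inl (m, c)) = γ (.inl (m, c)) := fun m =>
        e _ (by clear * -; revert c m; decide)
      have e4 : ∀ i, γ' (.inl (c + (sl i).2, c + (sl i).1)) =
          γ (.inl (c + (sl i).2, c + (sl i).1)) := fun i => e _ (by clear * -; revert c i; decide)
      have e5 : ∀ j ∈ Finset.univ.erase c, γ' (.inr (.inr j)) = γ (.inr (.inr j)) := fun j hj =>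
        e _ (by rintro (_ | _) <;> simp [ε5, (Finset.ne_of_mem_erase hj).symm])
      rcases i with _ | j | j <;>
        simp only [y, w, r, m, sk, Option.elim_none, Option.elim_some, Sum.elim_inl, Sum.elim_inr,
          map_sub, map_sum, map_mul, map_neg, aeval_X, e1, e2, e3, e4, and_self, and_true, true_and,
          Pi.one_apply, map_one, isUnit_one, implies_true]
      · exact ⟨fun hu => hu _ (Finset.mem_singleton_self _),
          Finset.sum_congr rfl fun j hj => by rw [e5 j hj]⟩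
      · exact fun hu => hu _ (Finset.mem_singleton_self _)
  refine ⟨⟨_, hε⟩, _, ψ, by rintro (_ | i) c <;> simp [ε5, ρ5],
    triT_scale _ (Sum.elim (fun p => (if p.1 = c then 1 else 0) + if p.2 = c then 1 else 0) 0) rfl,
    h1, fun c => by simp [ρ5], fun c => h3 _ (by rintro (_ | i) <;> simp [ε5, ρ5]), fun s => ?_⟩
  simp only [F5, F3, Embedding.coeFn_mk, h2]
  refine Eq.trans ?_ ((id5 c s y w r).trans ?_)
  · simp only [ρ5, Embedding.coeFn_mk, Sum.elim_inl, Sum.elim_inr, Pi.zero_apply,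
      pow_zero, one_mul, y, w, r]
  · rw [← Finset.add_sum_erase _ _ (Finset.mem_univ c)]
    simp [p4, Fin.sum_univ_three, sl, ε5, m, sk, y, r]
    ring

def ε9 (c : Fin 6) : B3 → B9 := fun o =>
  o.elim (.inr (.inr c)) (Sum.elim (fun i => .inl (.inl i)) fun i => .inr (.inl i))

theorem ε9_inj (c : Fin 6) : Injective (ε9 c) := by
  rintro (_ | i | i) (_ | j | j) <;> simp [ε9]

theorem piv9 (c : Fin 6) : Piv k F9 F3 ρ9 c := by
  let x : B9 → MvPolynomial (Option B9) k := fun j => X (some j)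
  obtain ⟨ψ, h1, h2, h3⟩ := exists_tri (k := k) (ε9_inj c) (fun o => o.elim (x (ρ9 c)) 1)
    (fun o => o.elim (∑ j ∈ Finset.univ.erase c, x (ρ9 j) * x (.inr (.inr j))) 0)
    (U := {ρ9 c}) fun S _ _ t γ γ' e i => by
      have e1 : ∀ i, γ' (ρ9 i) = γ (ρ9 i) := fun i => e _ (by rintro (_ | _ | _) <;> simp [ε9, ρ9])
      have e5 : ∀ j ∈ Finset.univ.erase c, γ' (.inr (.inr j)) = γ (.inr (.inr j)) := fun j hj =>
        e _ (by rintro (_ | _ | _) <;> simp [ε9, (Finset.ne_of_mem_erase hj).symm])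
      rcases i with _ | j
      · simp only [x, Option.elim_none, Option.elim_some, map_sum, map_mul, aeval_X, e1, true_and]
        exact ⟨fun hu => hu _ (Finset.mem_singleton_self _),
          Finset.sum_congr rfl fun j hj => by rw [e5 j hj]⟩
      · simp
  refine ⟨⟨_, ε9_inj c⟩, _, ψ, by rintro (_ | i | i) c <;> simp [ε9, ρ9], triT_id _, h1,
    fun c => rfl, fun c => h3 _ (by rintro (_ | i | i) <;> simp [ε9, ρ9]), fun s => ?_⟩
  simp only [F9, F3, Embedding.coeFn_mk, h2]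
  rw [← Finset.add_sum_erase _ _ (Finset.mem_univ c)]
  simp [ε9, ρ9, x]

theorem rec6 (h : Adm Φ M) (a b : ℕ) : lc Φ (pol k F6 a b) ∅ ∅ =
    (1 - Linv k ^ 6) * lc Φ (pol k F5 a b) ∅ ∅ + Linv k ^ 6 * lc Φ (pol k F6 a (b + 1)) ∅ ∅ :=
  step h n6 n5 ρ6 piv6 (by simp [pol, F6, f6, ρ6, Finset.mul_sum, pow_succ, mul_assoc])

theorem rec5 (h : Adm Φ M) (a b : ℕ) : lc Φ (pol k F5 a b) ∅ ∅ =
    (1 - Linv k ^ 5) * lc Φ (pol k F3 a b) ∅ ∅ + Linv k ^ 5 * lc Φ (pol k F5 (a + 1) b) ∅ ∅ :=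
  step h n5 n3 ρ5 piv5 (by simp [pol, F5, f5, ρ5, Finset.mul_sum, pow_succ, mul_assoc])

theorem rec9 (h : Adm Φ M) (a b : ℕ) : lc Φ (pol k F9 a b) ∅ ∅ =
    (1 - Linv k ^ 6) * lc Φ (pol k F3 a b) ∅ ∅ + Linv k ^ 6 * lc Φ (pol k F9 a (b + 1)) ∅ ∅ :=
  step h n9 n3 ρ9 piv9 (by simp [pol, F9, ρ9, Finset.mul_sum, pow_succ, mul_assoc])

theorem big6 (h : Adm Φ M) (a : ℕ) {b : ℕ} (hb : M + 1 ≤ b) :
    lc Φ (pol k F5 a b) ∅ ∅ = lc Φ (pol k F6 a b) ∅ ∅ := by
  obtain ⟨ψ, h1, h2, -⟩ := exists_tri (k := k) (ε6_inj injective_id) 1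
    (Sum.elim 0 (Sum.elim (fun j => -X (some (.inl (j.succ, 0)))) 0)) (U := ∅)
    fun S _ _ t γ γ' e i => by
      have e1 : ∀ j : Fin 5, γ' (.inl (j.succ, 0)) = γ (.inl (j.succ, 0)) := fun j =>
        e _ (by rintro (_ | _ | _) <;> simp [ε6, Fin.succ_ne_zero])
      rcases i with _ | j | j <;> simp [e1]
  refine chg h ⟨_, ε6_inj injective_id⟩ h1 ?_
  rw [sbt_ren n5, pol, ← mul_sub]
  refine ((pow_dvd_pow _ hb).trans ?_).mul_left _
  simp only [F5, Embedding.coeFn_mk, h2]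
  simpa [F6, ε6, sk, sub_eq_add_neg] using dvd65 (X none ^ b : MvPolynomial (Option B6) k)
    (fun p => X (some (.inl p))) (fun i => X (some (.inr (.inl i))))
    (fun i => X (some (.inr (.inr i)))) fun i => X (some (.inr (.inr i.succ)))

theorem big9 (h : Adm Φ M) (a : ℕ) {b : ℕ} (hb : M + 1 ≤ b) :
    lc Φ (pol k F3 a b) ∅ ∅ = lc Φ (pol k F9 a b) ∅ ∅ := by
  refine chg h ⟨_, ε9_inj 0⟩ (triT_id _) ?_
  rw [sbt_ren n3, pol, ← mul_sub]
  refine ((pow_dvd_pow _ hb).trans ?_).mul_left _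
  simp [F9, F3, ε9, ← mul_sub]

theorem key (h : Adm Φ M) (a : ℕ) : lc Φ (pol k F6 a 0) ∅ ∅ =
    (1 - Linv k ^ 5) * lc Φ (pol k F9 a 0) ∅ ∅ + Linv k ^ 5 * lc Φ (pol k F6 (a + 1) 0) ∅ ∅ := by
  rw [← sub_eq_zero]
  refine cancel (s := fun b => lc Φ (pol k F6 a b) ∅ ∅ - ((1 - Linv k ^ 5) *
    lc Φ (pol k F9 a b) ∅ ∅ + Linv k ^ 5 * lc Φ (pol k F6 (a + 1) b) ∅ ∅)) (c := Linv k ^ 6)
    (N := M + 1) one_pos (fun b => ?_) (fun b hb => ?_) 0
  · rw [rec6 h a b, rec6 h (a + 1) b, rec9 h a b, rec5 h a b]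
    ring
  · rw [← big6 h a hb, ← big6 h (a + 1) hb, ← big9 h a hb, rec5 h a b, sub_self]

/-- The positions of the variables of the cubic. -/
def ι6 (p : Fin 3 × Fin 3 × Fin 3) : B6 :=
  (![![![.inl (1, 2), .inl (2, 0), .inl (0, 1)], ![.inr (.inl 0), .inr (.inl 1), .inr (.inl 2)],
      ![.inr (.inr 0), .inr (.inr 1), .inr (.inr 2)]],
    ![![.inl (3, 0), .inl (4, 0), .inl (5, 0)], ![.inl (3, 1), .inl (4, 1), .inl (5, 1)],
      ![.inl (3, 2), .inl (4, 2), .inl (5, 2)]],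
    ![![.inl (4, 5), .inr (.inr 3), .inr (.inl 3)], ![.inl (5, 3), .inr (.inr 4), .inr (.inl 4)],
      ![.inl (3, 4), .inr (.inr 5), .inr (.inl 5)]]] : Fin 3 → Fin 3 → Fin 3 → B6) p.1 p.2.1 p.2.2

theorem e6_eq (h : Adm Φ M) (a : ℕ) : ls Φ (e6 k) a = lc Φ (pol k F6 a 0) ∅ ∅ := by
  have hι : Injective ι6 := by decide +kernel
  have h0 : ∀ i p, ι6 i = .inl p → ∀ j, ι6 j ≠ .inl p.swap := by decide +kernel
  obtain ⟨ψ, h1, h2, -⟩ := exists_tri (k := k) hι (fun i => if i.1 = 2 ∧ i.2.2 = 2 then -1 else 1)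
    (fun i => (ι6 i).elim (fun p => -X (some (.inl p.swap))) 0) (U := ∅)
    fun S _ _ t γ γ' e i => by
      refine ⟨fun _ => by split_ifs <;> simp, by split_ifs <;> simp, ?_⟩
      rcases hi : ι6 i with p | p
      · simp [e _ (h0 i p hi)]
      · simp
  refine chg h ⟨_, hι⟩ h1 (dz ?_)
  rw [← tp_rename, tp, map_mul, map_pow, sbt_none, sbt_rename_some, aeval_rename, pol, ← mul_sub]
  refine mul_eq_zero_of_right _ ?_
  simp only [e6, mat3, Matrix.det_fin_three, Matrix.trace, Matrix.diag_apply, Matrix.mul_apply,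
    Fin.sum_univ_three, Matrix.of_apply, map_add, map_sub, map_mul, aeval_X, comp_apply,
    Embedding.coeFn_mk, h2]
  simp [F6, f6, p4, sk, ι6, Fin.sum_univ_six, Fin.sum_univ_five]
  ring

theorem t9_eq (h : Adm Φ M) (a : ℕ) : lc Φ (pol k F9 a 0) ∅ ∅ =
    ls Φ (tw (X () : MvPolynomial Unit k) (fun _ : Fin 1 => 9) 1) a := by
  let e : Fin 3 ⊕ Fin 6 ≃ Fin 9 := finSumFinEquiv
  let g : Fin 3 ⊕ Fin 6 → Fin 1 → Ix fun _ : Fin 1 => 9 := fun j _ _ => e j
  have hg : Bijective g := ⟨fun a b h => e.injective (congrFun (congrFun h 0) 0),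
    fun I => ⟨e.symm (I 0 0), funext₂ fun a b => by
      rw [Subsingleton.elim a 0, Subsingleton.elim b 0]; exact e.apply_symm_apply _⟩⟩
  refine chg h (Embedding.sumMap ⟨fun j => ((), g j), fun a b h => hg.1 (congrArg Prod.snd h)⟩
    ⟨fun j => ⟨0, e j⟩, fun a b h => by simpa using h⟩) (triT_id _) (dz ?_)
  rw [sbt_ren n9, tp, ← mul_sub]
  refine mul_eq_zero_of_right _ ?_
  simp [tw, F9, ← hg.sum_comp, g]

end LawE6

open LawE6 in
theorem lawE6 {k : Type} [Field k] [CharZero k] (h : TwStmt k) : LawE6Stmt k := by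
  intro ζ _ _ Φ M hΦ a
  have h1 := (h Unit ζ (X ()) 1 1 Φ M (fun S _ _ s x => by simp) hΦ).2 1 ![5, 9]
  have h2 : (fun i : Fin 1 => (![5, 9] : Fin 2 → ℕ) i.succ) = fun _ => 9 :=
    funext fun i => by rw [Subsingleton.elim i 0]; rfl
  rw [← sub_eq_zero]
  refine cancel (s := fun a => ls Φ (e6 k) a -
    ls Φ (tw (X () : MvPolynomial Unit k) ![5, 9] 1) a) (c := Linv k ^ 5) (N := M + 1) one_pos
    (fun a => ?_) (fun a ha => ?_) a
  · rw [h1 a, h2, e6_eq hΦ, e6_eq hΦ, key hΦ a, t9_eq hΦ]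
    simp only [Matrix.cons_val_zero, mul_one]
    ring
  · rw [hΦ.ls_large _ ha, hΦ.ls_large _ ha, sub_self]

end

end Pool.Agent.P.MP_b91a16_ag.JB
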