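import Pool.Agent.P.MP_b91a16_ag.JB.Calc

/-! The law of the symmetric determinant. -/

set_option linter.unusedSectionVars false

open MvPolynomial

namespace Pool.Agent.P.MP_b91a16_ag.JB

noncomputable section

open St Dt

namespace LawSym

variable {k β ζ : Type} [Field k] [Fintype β] [DecidableEq β] [Fintype ζ] [DecidableEq ζ]
  {Φ : AP k (Option ζ)} {M : ℕ}

theorem transport {T : ∀ m, (Fin m → ℕ) → ℕ → Mot k} {N : ℕ}
    (hs : ∀ m (d : Fin (m + 1) → ℕ) a, T (m + 1) d a =
      (1 - Linv k ^ d 0) * T m (fun i => d i.succ) a + Linv k ^ d 0 * T (m + 1) d (a + 2))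
    (h0 : ∀ d a, T 0 d a = 0) (hl : ∀ m d a, N ≤ a → T m d a = 0) (m : ℕ) (d : Fin m → ℕ) (a : ℕ) :
    T m d a = 0 := by
  induction m generalizing a with
  | zero => exact h0 d a
  | succ m ih => exact cancel two_pos (fun a => by rw [hs, ih, mul_zero, zero_add]) (hl _ d) a

theorem ls_sc (h : Adm Φ M) {c : β → k} (hc : ∀ j, c j ≠ 0) (P : MvPolynomial β k) (a : ℕ) :
    ls Φ (sc c P) a = ls Φ P a := by
  rw [ls, ls, h.tri' (tp a P) (ψ := fun j => C (c j) * X (some j)) (fun S _ _ t =>
    ⟨fun γ γ' _ e => funext fun j => ((IsUnit.mk0 _ (hc j)).map (algebraMap k S)).mul_left_cancel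
      (by simpa using e j), fun γ' _ => ⟨fun j => algebraMap k S (c j)⁻¹ * γ' j, fun j => by
        rw [map_mul, aeval_C, aeval_X, Option.elim_some, ← mul_assoc, ← map_mul,
          mul_inv_cancel₀ (hc j), map_one, one_mul]⟩⟩) (by simp)]
  congr 1
  simp only [tp, map_mul, map_pow, sbt_none, sbt_rename_some, sc]
  congr 1
  exact algHom_aeval _ _ _ (by simp) P

theorem ls_mono (h : Adm Φ M) {i j : β} (hij : i ≠ j) {c : k} (hc : c ≠ 0) (e a : ℕ) :
    ls Φ (C c * X i * X j ^ e) a =
      (1 - Linv k) * ls Φ (X () : MvPolynomial Unit k) a + Linv k * ls Φ (C c * X i * X j ^ e) (a + e) := by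
  have h1 := h.step (R := tp a (C c * X i * X j ^ e)) (R' := tp a (X () : MvPolynomial Unit k))
    (⟨fun _ => j, fun _ _ _ => Subsingleton.elim _ _⟩ : Fin 1 ↪ β) fun _ =>
    ⟨⟨fun _ => i, fun _ _ _ => rfl⟩, fun p => X (some p),
      fun p => if p = i then C c * X (some j) ^ e * X (some i) else X (some p), fun _ _ => hij,
      fun S _ _ t => ⟨fun γ γ' _ e => by simpa [funext_iff] using e, fun γ' _ => ⟨γ', by simp⟩⟩,
      fun S _ _ t => ⟨fun γ γ' hu e' => ?_, fun γ' hu => ?_⟩, fun _ => rfl,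
      fun _ => if_neg hij.symm, by simp [tp, mul_right_comm]⟩
  · simp only [pow_one] at h1
    rw [ls, h1]
    congr 3
    simp [tp, hij, mul_pow, pow_add]
    ring
  · have h2 : γ' j = γ j := by simpa [hij.symm] using e' j
    funext p
    by_cases hp : p = i
    · subst hp
      exact (((IsUnit.mk0 _ hc).map (algebraMap k S)).mul ((hu j (by simp)).pow e)).mul_left_cancel
        (by simpa [h2] using e' p)
    · simpa [hp] using e' p
  · obtain ⟨u, hu⟩ :=
      (((IsUnit.mk0 _ hc).map (algebraMap k S)).mul ((hu j (by simp)).pow e)).exists_right_inv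
    refine ⟨fun p => if p = i then u * γ' i else γ' p, fun p => ?_⟩
    by_cases hp : p = i
    · simp [hp, hij.symm, ← mul_assoc, hu]
    · simp [hp]

theorem ls_CZ (h : Adm Φ M) {c : k} (hc : c ≠ 0) (a : ℕ) : ls Φ (C c * (X () : MvPolynomial Unit k)) a = ls Φ (X () : MvPolynomial Unit k) a := by
  simpa [sc] using ls_sc h (c := fun _ : Unit => c) (fun _ => hc) (X () : MvPolynomial Unit k) a

theorem xz (h : Adm Φ M) (a : ℕ) :
    ls (mulT Φ (X () : MvPolynomial Unit k)) (X () : MvPolynomial Unit k) a = (1 - Linv k) * ls Φ (X () : MvPolynomial Unit k) a + Linv k * ls (mulT Φ (X () : MvPolynomial Unit k)) (X () : MvPolynomial Unit k) (a + 1) := by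
  simpa [h.ls_mulT, pr2] using
    ls_mono h (i := (.inl () : Unit ⊕ Unit)) (j := .inr ()) (by simp) one_ne_zero 1 a

theorem quadC (h2 : QuadStmt k) (h : Adm Φ M) {c : k} (hc : c ≠ 0) (m a : ℕ) :
    ls Φ (C c * Qd k (m + 1)) a = (1 - Linv k) * (ls Φ (X () : MvPolynomial Unit k) a + Linv k ^ (2 * m + 2) * ls Φ (X () : MvPolynomial Unit k) (a + 1)) +
    Linv k * (ls Φ (C c * Qd k m) a - Linv k ^ (2 * m + 1) * ls Φ (C c * Qd k m) (a + 2)) +
    Linv k ^ (2 * m + 3) * ls Φ (C c * Qd k (m + 1)) (a + 2) := by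
  simpa only [h.ls_mulC, ls_CZ h hc] using h2 _ _ _ (h.mulT (C c : MvPolynomial Empty k)) m a

theorem xq (h2 : QuadStmt k) (h : Adm Φ M) {c : k} (hc : c ≠ 0) (m a : ℕ) :
    ls (mulT Φ (X () : MvPolynomial Unit k)) (C c * Qd k m) a - Linv k * ls (mulT Φ (X () : MvPolynomial Unit k)) (C c * Qd k m) (a + 1) -
      Linv k ^ (2 * m + 1) * (ls (mulT Φ (X () : MvPolynomial Unit k)) (C c * Qd k m) (a + 2) -
        Linv k * ls (mulT Φ (X () : MvPolynomial Unit k)) (C c * Qd k m) (a + 3)) =
      (1 - Linv k) * (ls Φ (X () : MvPolynomial Unit k) a - Linv k ^ (2 * m + 1) * ls Φ (X () : MvPolynomial Unit k) (a + 1)) := by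
  induction m with
  | zero =>
    have h3 : ∀ a, ls (mulT Φ (X () : MvPolynomial Unit k)) (C c * Qd k 0) a =
        (1 - Linv k) * ls Φ (X () : MvPolynomial Unit k) a + Linv k * ls (mulT Φ (X () : MvPolynomial Unit k)) (C c * Qd k 0) (a + 2) := fun a => by
      simpa [h.ls_mulT, pr2, Qd, mul_left_comm, mul_assoc] using ls_mono h
        (i := (.inl () : Unit ⊕ Option (Fin 0 ⊕ Fin 0))) (j := .inr none) (by simp) hc 2 a
    linear_combination h3 a - Linv k * h3 (a + 1)
  | succ m ih =>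
    have h3 := quadC h2 (h.mulT (X () : MvPolynomial Unit k)) hc m
    linear_combination h3 a - Linv k * h3 (a + 1) + Linv k * ih + (1 - Linv k) * xz h a +
      (1 - Linv k) * Linv k ^ (2 * m + 2) * xz h (a + 1)

theorem hom_Z : Hom (X () : MvPolynomial Unit k) 1 := fun S _ _ s x => by simp

theorem hom_Q (c : k) (m : ℕ) : Hom (C c * Qd k m) 2 := fun S _ _ s x => by
  simp only [Qd, map_mul, map_add, map_pow, map_sum, aeval_X, aeval_C, mul_add, Finset.mul_sum]
  exact congrArg₂ (· + ·) (by ring) (Finset.sum_congr rfl fun i _ => by ring)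

theorem large {τ τ' : Type} [Fintype τ] [DecidableEq τ] [Fintype τ'] [DecidableEq τ']
    (h : Adm Φ M) (H : MvPolynomial τ k) (P : MvPolynomial τ' k) {a : ℕ} (ha : M + 1 ≤ a) :
    ls (mulT Φ H) P a = ls Φ (0 : MvPolynomial Empty k) 0 := by
  rw [h.ls_mulT, h.ls_large _ ha]

end LawSym

open LawSym

variable {k : Type} [Field k] [CharZero k]

theorem lawSym (h1 : TwStmt k) (h2 : QuadStmt k) (h3 : SymRecStmt k) : LawSymStmt k := by
  intro m
  induction m with
  | zero =>
    refine fun d _ => ⟨fun ζ _ _ Φ M h a => ?_, fun ζ _ _ Φ M h a => ?_⟩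
    · rw [(h1 _ _ _ _ _ _ _ hom_Z h).1, ← h.ls_rename (X () : MvPolynomial Unit k)
        (⟨fun _ => s(0, 0), fun _ _ _ => rfl⟩ : Unit ↪ Sym2 (Fin (2 * 0 + 1)))]
      congr 1
      simp [symD]
    · let ε : Option (Fin 1 ⊕ Fin 1) ↪ Sym2 (Fin 2) := ⟨fun o => o.elim s(0, 1)
        (Sum.elim (fun _ => s(0, 0)) fun _ => s(1, 1)), by decide⟩
      rw [(h1 _ _ _ _ _ _ _ (hom_Q _ _) h).1, ← h.ls_rename _ ε, ← ls_sc h
        (c := fun s => if s = s(1, 1) then -1 else 1) (fun s => by split_ifs <;> simp)]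
      congr 1
      change sc _ (symD k 2) = _
      simp [symD, Matrix.det_fin_two, Qd, ε, sc, Sym2.eq_swap (a := (1 : Fin 2)) (b := 0)]
      ring
  | succ m ih =>
    intro d hd
    obtain ⟨i1, i2⟩ := ih (fun i => d i.succ) fun i => by have := hd i.succ; simp at this; omega
    have hd0 : d 0 = 2 * m + 3 := by have := hd 0; simp at this; omega
    have hc : ∀ n : ℕ, ((-1 : k) ^ n) ≠ 0 := fun n => pow_ne_zero _ (by simp)
    have g1 : Law (symD k (2 * m + 3)) (tw (X () : MvPolynomial Unit k) d 2) := fun ζ _ _ Φ M h => by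
      have zs := (h1 _ _ _ _ 2 _ _ hom_Z h).2
      have z0 := (h1 _ _ _ _ 2 _ _ hom_Z h).1
      have hx := h.mulT (X () : MvPolynomial Unit k)
      have hn := h.mulT (C (-1) : MvPolynomial Empty k)
      have e1 := transport (T := fun m d a => ls (mulT Φ (C (-1) : MvPolynomial Empty k))
        (tw (X () : MvPolynomial Unit k) d 2) a - ls Φ (tw (X () : MvPolynomial Unit k) d 2) a) (N := M + 1) (fun m d a => by
          linear_combination (h1 _ _ _ _ 2 _ _ hom_Z hn).2 m d a - zs m d a)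
        (fun d a => by rw [(h1 _ _ _ _ 2 _ _ hom_Z hn).1, z0, h.ls_mulC, ls_CZ h (by simp),
          sub_self]) (fun m d a ha => by rw [large h _ _ ha, h.ls_large _ ha, sub_self])
        m fun i => d i.succ
      have qs := (h1 _ _ _ _ 1 _ _ (hom_Q ((-1) ^ (m + 1)) (m + 1)) hx).2
      have q0 := (h1 _ _ _ _ 1 _ _ (hom_Q ((-1) ^ (m + 1)) (m + 1)) hx).1
      have e2 := transport (T := fun n d a =>
        let A := ls (mulT Φ (X () : MvPolynomial Unit k)) (tw (C ((-1) ^ (m + 1)) * Qd k (m + 1)) d 1)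
        A a - Linv k * A (a + 1) - Linv k ^ (2 * m + 3) * (A (a + 2) - Linv k * A (a + 3)) -
          (1 - Linv k) * (ls Φ (tw (X () : MvPolynomial Unit k) d 2) a - Linv k ^ (2 * m + 3) * ls Φ (tw (X () : MvPolynomial Unit k) d 2) (a + 1)))
        (N := M + 1) (fun n d a => by
          linear_combination qs n d a - Linv k * qs n d (a + 1) - Linv k ^ (2 * m + 3) * (qs n d (a + 2) -
            Linv k * qs n d (a + 3)) - (1 - Linv k) * (zs n d a - Linv k ^ (2 * m + 3) * zs n d (a + 1)))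
        (fun d a => by
          simp only [q0, z0]
          linear_combination xq h2 h (hc (m + 1)) (m + 1) a)
        (fun n d a ha => by
          simp only [large h _ _ ha, large h _ _ (ha.trans (Nat.le_add_right a _)),
            h.ls_large _ ha, h.ls_large _ (ha.trans (Nat.le_add_right a _))]
          ring) m fun i => d i.succ
      have e3 := h3 _ _ _ h (2 * m)
      have e4 : ∀ a, ls Φ (-symD k (2 * m + 1)) a = ls Φ (tw (X () : MvPolynomial Unit k) (fun i : Fin m => d i.succ) 2) a :=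
        fun a => by
          rw [← sub_eq_zero.1 (e1 a), ← i1 _ _ _ hn, h.ls_mulC]
          simp
      simp only [← h.ls_mulT, i2 _ _ _ hx, e4] at e3
      have e5 := zs m d
      rw [hd0] at e5
      have e6 := cancel (s := fun a => ls Φ (symD k (2 * m + 3)) a - ls Φ (tw (X () : MvPolynomial Unit k) d 2) a -
        Linv k ^ (2 * m + 4) * (ls Φ (symD k (2 * m + 3)) (a + 2) - ls Φ (tw (X () : MvPolynomial Unit k) d 2) (a + 2)))
        (c := Linv k ^ (2 * m + 3)) (N := M + 1) two_pos (fun a => by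
          linear_combination e3 a - Linv k ^ (2 * m + 3) * e3 (a + 2) + e2 a +
            Linv k ^ (2 * m + 3) * e2 (a + 1) - e5 a + Linv k ^ (2 * m + 4) * e5 (a + 2))
        fun a ha => by
          simp only [h.ls_large _ ha, h.ls_large _ (ha.trans (Nat.le_add_right a _))]
          ring
      exact fun a => sub_eq_zero.1 (cancel (s := fun a => ls Φ (symD k (2 * m + 3)) a -
        ls Φ (tw (X () : MvPolynomial Unit k) d 2) a) (N := M + 1) two_pos (fun a => sub_eq_zero.1 (e6 a))
        (fun a ha => by simp only [h.ls_large _ ha, sub_self]) a)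
    refine ⟨g1, fun ζ _ _ Φ M h => ?_⟩
    have zs := (h1 _ _ _ _ 2 _ _ hom_Z h).2
    have z0 := (h1 _ _ _ _ 2 _ _ hom_Z h).1
    have hx := h.mulT (X () : MvPolynomial Unit k)
    have hn := h.mulT (C (-1) : MvPolynomial Empty k)
    have xs := (h1 _ _ _ _ 2 _ _ hom_Z hx).2
    have e1 := transport (T := fun n d a => ls (mulT Φ (X () : MvPolynomial Unit k)) (tw (X () : MvPolynomial Unit k) d 2) a -
      Linv k * ls (mulT Φ (X () : MvPolynomial Unit k)) (tw (X () : MvPolynomial Unit k) d 2) (a + 1) - (1 - Linv k) * ls Φ (tw (X () : MvPolynomial Unit k) d 2) a) (N := M + 1)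
      (fun n d a => by linear_combination xs n d a - Linv k * xs n d (a + 1) - (1 - Linv k) * zs n d a)
      (fun d a => by
        simp only [(h1 _ _ _ _ 2 _ _ hom_Z hx).1, z0]
        linear_combination xz h a)
      (fun n d a ha => by
        simp only [large h _ _ ha, large h _ _ (ha.trans (Nat.le_add_right a _)), h.ls_large _ ha]
        ring) _ d
    have qs := fun n => (h1 _ _ _ _ 1 _ _ (hom_Q ((-1) ^ (m + 1 + 1)) n) h).2
    have q0 := fun n => (h1 _ _ _ _ 1 _ _ (hom_Q ((-1) ^ (m + 1 + 1)) n) h).1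
    have e2 := transport (T := fun n d a =>
      let A := ls Φ (tw (C ((-1) ^ (m + 1 + 1)) * Qd k (m + 1 + 1)) d 1)
      let B := ls Φ (tw (C ((-1) ^ (m + 1 + 1)) * Qd k (m + 1)) d 1)
      A a - Linv k ^ (2 * m + 5) * A (a + 2) - Linv k * (B a - Linv k ^ (2 * m + 3) * B (a + 2)) -
        (1 - Linv k) * (ls Φ (tw (X () : MvPolynomial Unit k) d 2) a + Linv k ^ (2 * m + 4) * ls Φ (tw (X () : MvPolynomial Unit k) d 2) (a + 1)))
      (N := M + 1) (fun n d a => by
        linear_combination qs (m + 1 + 1) n d a - Linv k ^ (2 * m + 5) * qs (m + 1 + 1) n d (a + 2) -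
          Linv k * (qs (m + 1) n d a - Linv k ^ (2 * m + 3) * qs (m + 1) n d (a + 2)) -
          (1 - Linv k) * (zs n d a + Linv k ^ (2 * m + 4) * zs n d (a + 1)))
      (fun d a => by
        simp only [q0, z0]
        linear_combination quadC h2 h (hc (m + 1 + 1)) (m + 1) a)
      (fun n d a ha => by
        simp only [h.ls_large _ ha, h.ls_large _ (ha.trans (Nat.le_add_right a _))]
        ring) _ d
    have e3 := h3 _ _ _ h (2 * m + 1)
    have e4 : ∀ a, ls Φ (-symD k (2 * m + 1 + 1)) a = ls Φ (tw (C ((-1) ^ (m + 1 + 1)) *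
        Qd k (m + 1)) (fun i : Fin m => d i.succ) 1) a := fun a => by
      have := i2 _ _ _ hn a
      rw [h.ls_mulC, h.ls_mulC] at this
      convert this using 2
      · simp
      · simp [tw, pow_succ]
    have e7 : ∀ a, ls (mulT Φ (X () : MvPolynomial Unit k)) (symD k (2 * m + 1 + 2)) a = ls (mulT Φ (X () : MvPolynomial Unit k)) (tw (X () : MvPolynomial Unit k) d 2) a :=
      g1 _ _ _ hx
    simp only [← h.ls_mulT, e7, e4] at e3
    have e5 := qs (m + 1) m d
    rw [hd0] at e5
    exact fun a => sub_eq_zero.1 (cancel (s := fun a => ls Φ (symD k (2 * m + 1 + 3)) a -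
      ls Φ (tw (C ((-1) ^ (m + 1 + 1)) * Qd k (m + 1 + 1)) d 1) a) (c := Linv k ^ (2 * m + 5))
      (N := M + 1) two_pos (fun a => by
        linear_combination e3 a + e1 a + Linv k ^ (2 * m + 4) * e1 (a + 1) - e2 a - Linv k * e5 a)
      (fun a ha => by simp only [h.ls_large _ ha, sub_self]) a)

end

end Pool.Agent.P.MP_b91a16_ag.JB
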